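import Pool.Agent.Helper54.RC.Fast4

/-!
# The matrix certificate of a cell (fast format)

Every coordinate `x` has a packed vector `X` with `n` digits (the entries of the functionals `ρ_c` and of the Cholesky
factor at this coordinate). `Y` is the reversed and weighted vector, so the weighted dot product of two coordinates is
one digit of ONE product of natural numbers.
-/

set_option autoImplicit false

open Helper49.LT
open Finset

namespace Helper54.SH.MatF

open Helper76.RC.TPoly Helper54.RC.Fast

/-! ## Coefficients of products -/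

theorem getD_addL (l m : List ℤ) (k : ℕ) : (addL l m).getD k 0 = l.getD k 0 + m.getD k 0 := by
  induction l generalizing m k with
  | nil => cases m <;> simp [addL]
  | cons a l ih =>
    cases m with
    | nil => simp [addL]
    | cons b m =>
      cases k with
      | zero => simp [addL]
      | succ k => simpa [addL] using ih m k

theorem getD_map_mul (a : ℤ) (l : List ℤ) (k : ℕ) : (l.map (a * ·)).getD k 0 = a * l.getD k 0 := by
  induction l generalizing k with
  | nil => simp
  | cons c l ih =>
    cases k with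
    | zero => simp
    | succ k => simpa using ih k

theorem conv_getD (l m : List ℤ) (k : ℕ) :
    (conv l m).getD k 0 = ∑ i ∈ range (k + 1), l.getD i 0 * m.getD (k - i) 0 := by
  induction l generalizing k with
  | nil => simp [conv]
  | cons a l ih =>
    rw [conv, getD_addL, getD_map_mul, Finset.sum_range_succ']
    cases k with
    | zero => simp
    | succ k =>
      simp only [List.getD_cons_succ, List.getD_cons_zero, Nat.sub_zero]
      rw [ih k, add_comm]
      congr 1
      refine Finset.sum_congr rfl fun i hi => ?_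
      rw [Finset.mem_range] at hi
      have : k + 1 - (i + 1) = k - i := by omega
      rw [this]

theorem getD_reverse (l : List ℤ) (n i : ℕ) (hl : l.length = n) (hi : i < n) :
    l.reverse.getD (n - 1 - i) 0 = l.getD i 0 := by
  rw [List.getD_eq_getElem?_getD, List.getD_eq_getElem?_getD, List.getElem?_reverse (by omega)]
  congr 2
  omega

/-- the dot product as a coefficient -/
theorem conv_dot (l m : List ℤ) (n : ℕ) (hn : 1 ≤ n) (hm : m.length = n) :
    (conv l m.reverse).getD (n - 1) 0 = ∑ i ∈ range n, l.getD i 0 * m.getD i 0 := by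
  rw [conv_getD]
  have e : n - 1 + 1 = n := by omega
  rw [e]
  refine Finset.sum_congr rfl fun i hi => ?_
  rw [Finset.mem_range] at hi
  rw [getD_reverse m n i hm hi]

/-! ## Reversed weighted vectors -/

/-- reversed packing with weights -/
def mkY (b : ℕ) : List ℕ → ℕ → ℕ → ℕ
  | [], _, acc => acc
  | w :: ws, X, acc => mkY b ws (Nat.div X (Nat.pow 2 (Nat.succ b)))
      (Nat.add (Nat.sub (Nat.add (Nat.mul w (Nat.mod X (Nat.pow 2 (Nat.succ b)))) (Nat.pow 2 b)) (Nat.mul w (Nat.pow 2 b)))
        (Nat.mul (Nat.pow 2 (Nat.succ b)) acc))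

/-- weighted list -/
def wl : List ℕ → List ℤ → List ℤ
  | w :: ws, a :: l => ((w : ℤ) * a) :: wl ws l
  | _, _ => []

theorem length_wl (ws : List ℕ) (l : List ℤ) (h : l.length = ws.length) : (wl ws l).length = ws.length := by
  induction ws generalizing l with
  | nil => simp [wl]
  | cons w ws ih =>
    cases l with
    | nil => simp at h
    | cons a l => simp [wl, ih l (by simpa using h)]

theorem getD_wl (ws : List ℕ) (l : List ℤ) (h : l.length = ws.length) (i : ℕ) :
    (wl ws l).getD i 0 = (ws.getD i 0 : ℤ) * l.getD i 0 := by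
  induction ws generalizing l i with
  | nil => simp [wl]
  | cons w ws ih =>
    cases l with
    | nil => simp at h
    | cons a l =>
      cases i with
      | zero => simp [wl]
      | succ i => simpa [wl] using ih l (by simpa using h) i

theorem mkY_sound (b m : ℕ) (ws : List ℕ) : ∀ (X acc : ℕ), acc < (2 ^ (b + 1)) ^ m →
    (∀ c ∈ wl ws (ls b ws.length X), -((2 ^ b : ℕ) : ℤ) ≤ c ∧ c < (2 ^ b : ℕ)) →
    ls b (ws.length + m) (mkY b ws X acc) = (wl ws (ls b ws.length X)).reverse ++ ls b m acc ∧
      mkY b ws X acc < (2 ^ (b + 1)) ^ (ws.length + m) := by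
  induction ws generalizing m with
  | nil =>
    intro X acc h _
    simpa [mkY, wl] using h
  | cons w ws ih =>
    intro X acc h hb
    set d := X % 2 ^ (b + 1) with hd
    have e0 : ls b (w :: ws).length X = ((d : ℤ) - ((2 ^ b : ℕ) : ℤ)) :: ls b ws.length (X / 2 ^ (b + 1)) := rfl
    rw [e0] at hb ⊢
    have e1 : wl (w :: ws) (((d : ℤ) - ((2 ^ b : ℕ) : ℤ)) :: ls b ws.length (X / 2 ^ (b + 1))) =
      ((w : ℤ) * ((d : ℤ) - ((2 ^ b : ℕ) : ℤ))) :: wl ws (ls b ws.length (X / 2 ^ (b + 1))) := rfl
    rw [e1] at hb ⊢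
    obtain ⟨g1, g2⟩ := hb _ List.mem_cons_self
    have e2 : mkY b (w :: ws) X acc = mkY b ws (X / 2 ^ (b + 1)) ((w * d + 2 ^ b - w * 2 ^ b) + 2 ^ (b + 1) * acc) := rfl
    have h4 : 2 ^ (b + 1) = 2 ^ b + 2 ^ b := by rw [pow_succ]; ring
    have g3 : (((w * d + 2 ^ b - w * 2 ^ b : ℕ)) : ℤ) = (w : ℤ) * ((d : ℤ) - ((2 ^ b : ℕ) : ℤ)) + ((2 ^ b : ℕ) : ℤ) := by
      have hle : w * 2 ^ b ≤ w * d + 2 ^ b := by
        have : ((w * 2 ^ b : ℕ) : ℤ) ≤ ((w * d + 2 ^ b : ℕ) : ℤ) := by
          push_cast
          push_cast at g1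
          linarith
        exact_mod_cast this
      rw [Nat.cast_sub hle]
      push_cast
      ring
    set e := w * d + 2 ^ b - w * 2 ^ b with he
    have hlt : e < 2 ^ (b + 1) := by
      have : (e : ℤ) < ((2 ^ (b + 1) : ℕ) : ℤ) := by
        rw [g3, h4]
        push_cast
        push_cast at g2
        linarith
      exact_mod_cast this
    have h6 : e + 2 ^ (b + 1) * acc < (2 ^ (b + 1)) ^ (m + 1) := by
      rw [pow_succ]
      calc e + 2 ^ (b + 1) * acc < 2 ^ (b + 1) + 2 ^ (b + 1) * acc := by omega
        _ = (acc + 1) * 2 ^ (b + 1) := by ring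
        _ ≤ (2 ^ (b + 1)) ^ m * 2 ^ (b + 1) := Nat.mul_le_mul_right _ h
    obtain ⟨i1, i2⟩ := ih (m + 1) (X / 2 ^ (b + 1)) (e + 2 ^ (b + 1) * acc) h6
      (fun c hc => hb c (List.mem_cons_of_mem _ hc))
    have e3 : (w :: ws).length + m = ws.length + (m + 1) := by
      rw [List.length_cons]; ring
    rw [e2, e3]
    refine ⟨?_, i2⟩
    rw [i1]
    have e4 : ls b (m + 1) (e + 2 ^ (b + 1) * acc) = ((e : ℤ) - ((2 ^ b : ℕ) : ℤ)) :: ls b m acc := by
      show ((((e + 2 ^ (b + 1) * acc) % 2 ^ (b + 1) : ℕ) : ℤ) - ((2 ^ b : ℕ) : ℤ)) ::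
        ls b m ((e + 2 ^ (b + 1) * acc) / 2 ^ (b + 1)) = _
      rw [Nat.add_mul_mod_self_left, Nat.mod_eq_of_lt hlt, Nat.add_mul_div_left _ _ (by positivity),
        Nat.div_eq_of_lt hlt, zero_add]
    have e5 : (e : ℤ) - ((2 ^ b : ℕ) : ℤ) = (w : ℤ) * ((d : ℤ) - ((2 ^ b : ℕ) : ℤ)) := by
      rw [g3]; ring
    rw [e4, e5, List.reverse_cons, List.append_assoc]
    rfl

/-! ## Dot products -/

/-- the offset of the product -/
def dotK (b n : ℕ) : ℕ := Nat.add (Nat.mul (of b n) (of b n)) (of b (Nat.sub (Nat.add n n) 1))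

/-- `2 ^ b` plus the dot product; `OX, OY` are `of b n * X`, `of b n * Y` -/
def dotF (b n K X OX Y OY : ℕ) : ℕ :=
  Nat.mod (Nat.shiftRight (Nat.sub (Nat.add (Nat.mul X Y) K) (Nat.add OX OY)) (Nat.mul (Nat.succ b) (Nat.sub n 1)))
    (Nat.pow 2 (Nat.succ b))

theorem getD_ls (b n X k : ℕ) (hk : k < n) : (ls b n X).getD k 0 = (dg b k X : ℤ) - ((2 ^ b : ℕ) : ℤ) := by
  induction n generalizing X k with
  | zero => omega
  | succ n ih =>
    have e0 : ls b (n + 1) X = (((X % 2 ^ (b + 1) : ℕ) : ℤ) - ((2 ^ b : ℕ) : ℤ)) :: ls b n (X / 2 ^ (b + 1)) := rfl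
    rw [e0]
    cases k with
    | zero =>
      rw [List.getD_cons_zero]
      have : dg b 0 X = X % 2 ^ (b + 1) := by
        show X >>> ((b + 1) * 0) % 2 ^ (b + 1) = _
        simp
      rw [this]
    | succ k =>
      rw [List.getD_cons_succ, ih _ _ (by omega)]
      have e1 : dg b k (X / 2 ^ (b + 1)) = dg b (k + 1) X := by
        show (X / 2 ^ (b + 1)) >>> ((b + 1) * k) % 2 ^ (b + 1) = X >>> ((b + 1) * (k + 1)) % 2 ^ (b + 1)
        rw [Nat.shiftRight_eq_div_pow, Nat.shiftRight_eq_div_pow, Nat.div_div_eq_div_mul, ← pow_add]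
        have e5 : b + 1 + (b + 1) * k = (b + 1) * (k + 1) := by ring
        rw [e5]
      rw [e1]

theorem dotF_sound (b n X Y : ℕ) (hn : 1 ≤ n) (hX : X < (2 ^ (b + 1)) ^ n) (hY : Y < (2 ^ (b + 1)) ^ n)
    (h : l1 (ls b n X) * l1 (ls b n Y) < 2 ^ b) (m : List ℤ) (hm : m.length = n) (hmY : ls b n Y = m.reverse) :
    ((dotF b n (dotK b n) X (of b n * X) Y (of b n * Y) : ℕ) : ℤ) =
      ((2 ^ b : ℕ) : ℤ) + ∑ i ∈ range n, (ls b n X).getD i 0 * m.getD i 0 := by
  have a1 := evz_lst' b n X hX
  have a2 := evz_lst' b n Y hY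
  have hne : ∀ l : List ℤ, l.length = n → l ≠ [] := by
    intro l hl h0
    rw [h0] at hl
    simp at hl
    omega
  have c1 : (conv (ls b n X) (ls b n Y)).length = n + n - 1 := by
    rw [length_conv _ _ (hne _ (length_ls b n X)) (hne _ (length_ls b n Y)), length_ls, length_ls]
  obtain ⟨k1, k2⟩ := ls_sub b (n + n - 1) _ c1 (Bd_range (Bd_conv _ _ (Bd_l1 (ls b n Y))) h)
    (X * Y + (of b n * of b n + of b (n + n - 1))) (of b n * X + of b n * Y) (by
      rw [evz_conv, of_eq, of_eq]
      push_cast
      rw [a1, a2]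
      push_cast
      ring)
  have e1 : dotF b n (dotK b n) X (of b n * X) Y (of b n * Y) =
    dg b (n - 1) (X * Y + (of b n * of b n + of b (n + n - 1)) - (of b n * X + of b n * Y)) := rfl
  have e2 := getD_ls b (n + n - 1) (X * Y + (of b n * of b n + of b (n + n - 1)) - (of b n * X + of b n * Y)) (n - 1)
    (by omega)
  rw [k1, hmY, conv_dot _ m n hn hm] at e2
  rw [e1, e2]
  ring

/-! ## Vectors of one coordinate -/

/-- vectors of one coordinate in one block: `X`, `Y` and the products with the offset -/
structure BD where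
  X : ℕ
  OX : ℕ
  Y : ℕ
  OY : ℕ

/-- the constants of a block -/
structure BC where
  b : ℕ
  n : ℕ
  K : ℕ

def mkBD (b n X Y : ℕ) : BD := ⟨X, Nat.mul (of b n) X, Y, Nat.mul (of b n) Y⟩
def mkBC (b n : ℕ) : BC := ⟨b, n, dotK b n⟩

/-- `2 ^ b +` the dot product of two coordinates -/
def dt (c : BC) (p q : BD) : ℕ := dotF c.b c.n c.K p.X p.OX q.Y q.OY

/-- sum over the blocks -/
def sumd : List BC → List BD → List BD → ℕ
  | c :: cs, p :: ps, q :: qs => Nat.add (dt c p q) (sumd cs ps qs)
  | _, _, _ => 0

/-- the sum of the offsets -/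
def toff : List BC → ℕ
  | c :: cs => Nat.add (Nat.pow 2 c.b) (toff cs)
  | [] => 0

def difN (p n : ℕ) : ℕ := Nat.add (Nat.sub p n) (Nat.sub n p)

/-- one row of the matrix -/
def entR (cs : List BC) (a : List BD) : List (List BD) → List ℕ
  | [] => []
  | c :: r => sumd cs a c :: entR cs a r

/-- the rows of the upper triangle: row `i` has the entries `i ≤ j` -/
def entA (cs : List BC) : List (List BD) → List (List ℕ)
  | [] => []
  | a :: l => (sumd cs a a :: entR cs a l) :: entA cs l

/-- `e + T` against `dt + U` -/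
def pr3 (T U rho : ℕ) (c : BC) (p q : BD) (e : ℕ) : Bool :=
  Nat.ble (difN (Nat.add e T) (Nat.add (dt c p q) U)) rho

def cR3 (T U rho : ℕ) (c : BC) (p : BD) : List ℕ → List BD → Bool
  | e :: es, q :: qs => bif pr3 T U rho c p q e then cR3 T U rho c p es qs else false
  | _, _ => true

/-- all pairs -/
def cA3 (T U UD rho : ℕ) (c : BC) : List (List ℕ) → List BD → Bool
  | (e :: es) :: ess, p :: ps =>
    bif pr3 T UD rho c p p e then bif cR3 T U rho c p es ps then cA3 T U UD rho c ess ps else false else false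
  | _, _ => true

/-- one more block in front of the rows -/
def zc : List BD → List (List BD) → List (List BD)
  | a :: l, r :: rs => (a :: r) :: zc l rs
  | _, _ => []

def rowsOf (N : ℕ) : List (List BD) → List (List BD)
  | [] => List.replicate N []
  | x :: xs => zc x (rowsOf N xs)

theorem bif3 {a c : Bool} : (bif a then c else false) = true ↔ a = true ∧ c = true := by
  cases a <;> simp

/-- a block with its integer matrix -/
structure Bl where
  b : ℕ
  n : ℕ
  xs : List BD
  M : ℕ → ℕ → ℤ

instance : Inhabited BD := ⟨⟨0, 0, 0, 0⟩⟩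

/-- the constants -/
def Bl.bc (B : Bl) : BC := mkBC B.b B.n

/-- meaning of a block -/
structure Bl.OK (N : ℕ) (B : Bl) : Prop where
  len : B.xs.length = N
  sym : ∀ i j, B.M i j = B.M j i
  val : ∀ i j, i < N → j < N →
    ((dt B.bc (B.xs.getD i default) (B.xs.getD j default) : ℕ) : ℤ) = ((2 ^ B.b : ℕ) : ℤ) + B.M i j

theorem zc_length (l : List BD) (rs : List (List BD)) (h : l.length = rs.length) : (zc l rs).length = l.length := by
  induction l generalizing rs with
  | nil => cases rs <;> simp [zc]
  | cons a l ih =>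
    cases rs with
    | nil => simp at h
    | cons r rs => simp [zc, ih rs (by simpa using h)]

theorem zc_getD (l : List BD) (rs : List (List BD)) (h : l.length = rs.length) (i : ℕ) (hi : i < l.length) :
    (zc l rs).getD i [] = l.getD i default :: rs.getD i [] := by
  induction l generalizing rs i with
  | nil => simp at hi
  | cons a l ih =>
    cases rs with
    | nil => simp at h
    | cons r rs =>
      cases i with
      | zero => simp [zc]
      | succ i =>
        have h2 : l.length = rs.length := by simpa using h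
        have h3 : i < l.length := by simpa using hi
        simpa [zc] using ih rs h2 i h3

theorem rowsOf_length (N : ℕ) (xs : List (List BD)) (h : ∀ x ∈ xs, x.length = N) : (rowsOf N xs).length = N := by
  induction xs with
  | nil => simp [rowsOf]
  | cons x xs ih =>
    have h1 := h x List.mem_cons_self
    have h2 := ih fun y hy => h y (List.mem_cons_of_mem _ hy)
    rw [rowsOf, zc_length _ _ (h1.trans h2.symm), h1]

theorem rowsOf_getD (N : ℕ) (xs : List (List BD)) (h : ∀ x ∈ xs, x.length = N) (i : ℕ) (hi : i < N) :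
    (rowsOf N xs).getD i [] = xs.map fun x => x.getD i default := by
  induction xs with
  | nil =>
    rw [rowsOf, List.getD_eq_getElem?_getD]
    simp [hi]
  | cons x xs ih =>
    have h1 := h x List.mem_cons_self
    have h2 : ∀ y ∈ xs, y.length = N := fun y hy => h y (List.mem_cons_of_mem _ hy)
    rw [rowsOf, zc_getD _ _ (h1.trans (rowsOf_length N xs h2).symm) i (by rw [h1]; exact hi), ih h2]
    rfl

/-- the sum of the dot products of all blocks -/
theorem sumd_eq (N : ℕ) (bl : List Bl) (h : ∀ B ∈ bl, B.OK N) (i j : ℕ) (hi : i < N) (hj : j < N) :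
    ((sumd (bl.map Bl.bc) (bl.map fun B => B.xs.getD i default)
      (bl.map fun B => B.xs.getD j default) : ℕ) : ℤ) =
      ((toff (bl.map Bl.bc) : ℕ) : ℤ) + (bl.map fun B => B.M i j).sum := by
  induction bl with
  | nil => simp [sumd, toff]
  | cons B bl ih =>
    have h1 := (h B List.mem_cons_self).val i j hi hj
    have h2 := ih fun C hC => h C (List.mem_cons_of_mem _ hC)
    have e : sumd ((B :: bl).map Bl.bc) ((B :: bl).map fun B => B.xs.getD i default)
      ((B :: bl).map fun B => B.xs.getD j default) =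
      dt B.bc (B.xs.getD i default) (B.xs.getD j default) +
      sumd (bl.map Bl.bc) (bl.map fun B => B.xs.getD i default)
      (bl.map fun B => B.xs.getD j default) := rfl
    have e' : toff ((B :: bl).map Bl.bc) = 2 ^ B.b + toff (bl.map Bl.bc) := rfl
    rw [e, e', Nat.cast_add, h1, h2]
    simp only [List.map_cons, List.sum_cons]
    push_cast
    ring

theorem entR_getD (cs : List BC) (a : List BD) (l : List (List BD)) (j : ℕ) (hj : j < l.length) :
    (entR cs a l).getD j 0 = sumd cs a (l.getD j []) := by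
  induction l generalizing j with
  | nil => simp at hj
  | cons c l ih =>
    cases j with
    | zero => simp [entR]
    | succ j => simpa [entR] using ih j (by simpa using hj)

theorem entR_length (cs : List BC) (a : List BD) (l : List (List BD)) : (entR cs a l).length = l.length := by
  induction l with
  | nil => simp [entR]
  | cons c l ih => simp [entR, ih]

theorem cR3_mem (T U rho : ℕ) (c : BC) (p : BD) (es : List ℕ) (qs : List BD) (hl : es.length = qs.length)
    (h : cR3 T U rho c p es qs = true) (j : ℕ) (hj : j < es.length) :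
    pr3 T U rho c p (qs.getD j default) (es.getD j 0) = true := by
  induction es generalizing qs j with
  | nil => simp at hj
  | cons e es ih =>
    cases qs with
    | nil => simp at hl
    | cons q qs =>
      unfold cR3 at h
      rw [bif3] at h
      cases j with
      | zero => simpa using h.1
      | succ j => simpa using ih qs (by simpa using hl) h.2 j (by simpa using hj)

theorem cA3_mem (T U UD rho : ℕ) (c : BC) (cs : List BC) (l : List (List BD)) (ps : List BD)
    (hl : l.length = ps.length) (h : cA3 T U UD rho c (entA cs l) ps = true) (i j : ℕ) (hij : i ≤ j)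
    (hj : j < l.length) :
    pr3 T (if i = j then UD else U) rho c (ps.getD i default) (ps.getD j default)
      (sumd cs (l.getD i []) (l.getD j [])) = true := by
  induction l generalizing ps i j with
  | nil => simp at hj
  | cons a l ih =>
    cases ps with
    | nil => simp at hl
    | cons p ps =>
      have hl' : l.length = ps.length := by simpa using hl
      unfold entA cA3 at h
      simp only [bif3] at h
      cases i with
      | zero =>
        cases j with
        | zero => simpa using h.1
        | succ j =>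
          have hj' : j < l.length := by simpa using hj
          have h2 := cR3_mem T U rho c p (entR cs a l) ps (by rw [entR_length, hl']) h.2.1 j
            (by rw [entR_length]; exact hj')
          rw [entR_getD cs a l j hj'] at h2
          rw [if_neg (by omega)]
          simpa using h2
      | succ i =>
        cases j with
        | zero => omega
        | succ j =>
          have := ih ps hl' h.2.2 i j (by omega) (by simpa using hj)
          by_cases e : i = j
          · rw [if_pos e] at this
            rw [if_pos (by omega)]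
            simpa using this
          · rw [if_neg e] at this
            rw [if_neg (by omega)]
            simpa using this

theorem difN_le (p n rho : ℕ) (h : difN p n ≤ rho) : |(p : ℤ) - n| ≤ rho := by
  have e : difN p n = (p - n) + (n - p) := rfl
  rw [e] at h
  rw [abs_le]
  omega

/-- THE CHECK of the entries: `cs` the constants of the blocks, `xss` their vectors, `C` the factor -/
def chkM (N rho δ : ℕ) (cs : List BC) (xss : List (List BD)) (c : BC) (C : List BD) : Bool :=
  cA3 (Nat.pow 2 c.b) (toff cs) (Nat.add (toff cs) δ) rho c (entA cs (rowsOf N xss)) C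

/-- the entries of the sum of all blocks minus the factor are small except of the diagonal, which is close to `δ` -/
theorem chkM_sound (N rho δ : ℕ) (bl : List Bl) (h : ∀ B ∈ bl, B.OK N) (C : Bl) (hC : C.OK N)
    (hc : chkM N rho δ (bl.map Bl.bc) (bl.map Bl.xs) C.bc C.xs = true) (i j : ℕ) (hi : i < N)
    (hj : j < N) : |(bl.map fun B => B.M i j).sum - C.M i j - (if i = j then (δ : ℤ) else 0)| ≤ rho := by
  have key : ∀ i j, i ≤ j → j < N →
      |(bl.map fun B => B.M i j).sum - C.M i j - (if i = j then (δ : ℤ) else 0)| ≤ rho := by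
    intro i j hij hj
    have hlen : ∀ x ∈ bl.map Bl.xs, x.length = N := by
      intro x hx
      obtain ⟨B, hB, rfl⟩ := List.mem_map.1 hx
      exact (h B hB).len
    have h1 := cA3_mem _ _ _ _ _ _ _ C.xs (by rw [rowsOf_length N _ hlen, hC.len]) hc i j hij
      (by rw [rowsOf_length N _ hlen]; exact hj)
    rw [rowsOf_getD N _ hlen i (by omega), rowsOf_getD N _ hlen j hj, List.map_map, List.map_map] at h1
    have h2 := sumd_eq N bl h i j (by omega) hj
    have h3 := difN_le _ _ _ (Nat.le_of_ble_eq_true h1)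
    have h4 := hC.val i j (by omega) hj
    have e1 : ((fun x : List BD => x.getD i default) ∘ Bl.xs) = fun B : Bl => B.xs.getD i default := rfl
    have e2 : ((fun x : List BD => x.getD j default) ∘ Bl.xs) = fun B : Bl => B.xs.getD j default := rfl
    have e3 : C.bc.b = C.b := rfl
    have e5 : ∀ a c : ℕ, ((Nat.add a c : ℕ) : ℤ) = (a : ℤ) + c := fun a c => Nat.cast_add a c
    have e6 : ((Nat.pow 2 C.b : ℕ) : ℤ) = ((2 ^ C.b : ℕ) : ℤ) := rfl
    rw [e1, e2, e5, e5, h2, h4, e3, e6] at h3
    by_cases e : i = j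
    · rw [if_pos e] at h3 ⊢
      rw [e5] at h3
      have e7 : ((toff (bl.map Bl.bc) : ℕ) : ℤ) + (bl.map fun B => B.M i j).sum + ((2 ^ C.b : ℕ) : ℤ) -
        (((2 ^ C.b : ℕ) : ℤ) + C.M i j + (((toff (bl.map Bl.bc) : ℕ) : ℤ) + δ)) =
        (bl.map fun B => B.M i j).sum - C.M i j - δ := by ring
      rw [e7] at h3
      exact h3
    · rw [if_neg e] at h3 ⊢
      have e7 : ((toff (bl.map Bl.bc) : ℕ) : ℤ) + (bl.map fun B => B.M i j).sum + ((2 ^ C.b : ℕ) : ℤ) -
        (((2 ^ C.b : ℕ) : ℤ) + C.M i j + ((toff (bl.map Bl.bc) : ℕ) : ℤ)) =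
        (bl.map fun B => B.M i j).sum - C.M i j - 0 := by ring
      rw [e7] at h3
      exact h3
  rcases le_total i j with hij | hij
  · exact key i j hij hj
  · have h1 := key j i hij hi
    have e1 : (bl.map fun B => B.M j i) = bl.map fun B => B.M i j := by
      refine List.map_congr_left fun B hB => ?_
      exact (h B hB).sym j i
    rw [e1, hC.sym j i] at h1
    by_cases e : i = j
    · subst e
      exact h1
    · rw [if_neg (fun e' => e e'.symm)] at h1
      rw [if_neg e]
      exact h1

/-- the form of an integer matrix -/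
noncomputable def fm (N : ℕ) (M : ℕ → ℕ → ℤ) (v : ℕ → ℝ) : ℝ :=
  ∑ i ∈ range N, ∑ j ∈ range N, (M i j : ℝ) * (v i * v j)

theorem sum_abs_le (N : ℕ) (v : ℕ → ℝ) : ∑ i ∈ range N, ∑ j ∈ range N, |v i| * |v j| ≤ N * ∑ i ∈ range N, v i ^ 2 := by
  have h1 : ∑ i ∈ range N, ∑ j ∈ range N, |v i| * |v j| = (∑ i ∈ range N, |v i|) ^ 2 := by
    rw [sq, Finset.sum_mul_sum]
  rw [h1]
  have := sq_sum_le_card_mul_sum_sq (s := range N) (f := fun i => |v i|)
  simpa [sq_abs] using this

/-- an entrywise bound gives a bound of the form -/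
theorem form_le (N : ℕ) (E : ℕ → ℕ → ℝ) (κ : ℝ) (hκ : 0 ≤ κ) (h : ∀ i j, i < N → j < N → |E i j| ≤ κ) (v : ℕ → ℝ) :
    |∑ i ∈ range N, ∑ j ∈ range N, E i j * (v i * v j)| ≤ κ * N * ∑ i ∈ range N, v i ^ 2 := by
  have h1 : |∑ i ∈ range N, ∑ j ∈ range N, E i j * (v i * v j)| ≤ ∑ i ∈ range N, ∑ j ∈ range N, κ * (|v i| * |v j|) := by
    refine (Finset.abs_sum_le_sum_abs _ _).trans (Finset.sum_le_sum fun i hi => ?_)
    refine (Finset.abs_sum_le_sum_abs _ _).trans (Finset.sum_le_sum fun j hj => ?_)
    rw [abs_mul, abs_mul]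
    exact mul_le_mul_of_nonneg_right (h i j (Finset.mem_range.1 hi) (Finset.mem_range.1 hj)) (by positivity)
  have h2 : ∑ i ∈ range N, ∑ j ∈ range N, κ * (|v i| * |v j|) = κ * ∑ i ∈ range N, ∑ j ∈ range N, |v i| * |v j| := by
    rw [Finset.mul_sum]
    exact Finset.sum_congr rfl fun i _ => by rw [Finset.mul_sum]
  rw [h2] at h1
  have h3 := mul_le_mul_of_nonneg_left (sum_abs_le N v) hκ
  linarith

/-- the sum of the forms of a list of matrices -/
theorem fm_sum (N : ℕ) (bl : List Bl) (v : ℕ → ℝ) : (bl.map fun B => fm N B.M v).sum =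
    fm N (fun i j => (bl.map fun B => B.M i j).sum) v := by
  induction bl with
  | nil => simp [fm]
  | cons B bl ih =>
    simp only [List.map_cons, List.sum_cons]
    rw [ih]
    unfold fm
    rw [← Finset.sum_add_distrib]
    refine Finset.sum_congr rfl fun i _ => ?_
    rw [← Finset.sum_add_distrib]
    refine Finset.sum_congr rfl fun j _ => ?_
    push_cast
    ring

/-- the sum of the forms of all blocks -/
theorem forms_ge (N rho δ : ℕ) (bl : List Bl) (h : ∀ B ∈ bl, B.OK N) (C : Bl) (hC : C.OK N)
    (hc : chkM N rho δ (bl.map Bl.bc) (bl.map Bl.xs) C.bc C.xs = true) (v : ℕ → ℝ) :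
    fm N C.M v + ((δ : ℝ) - rho * N) * ∑ i ∈ range N, v i ^ 2 ≤ (bl.map fun B => fm N B.M v).sum := by
  rw [fm_sum]
  have h1 := form_le N (fun i j => (((bl.map fun B => B.M i j).sum - C.M i j - (if i = j then (δ : ℤ) else 0) : ℤ) : ℝ))
    rho (Nat.cast_nonneg _) (fun i j hi hj => by
      have := chkM_sound N rho δ bl h C hC hc i j hi hj
      rw [← Int.cast_abs]
      exact_mod_cast this) v
  have h2 : ∑ i ∈ range N, ∑ j ∈ range N,
      (((bl.map fun B => B.M i j).sum - C.M i j - (if i = j then (δ : ℤ) else 0) : ℤ) : ℝ) * (v i * v j) =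
      fm N (fun i j => (bl.map fun B => B.M i j).sum) v - fm N C.M v - δ * ∑ i ∈ range N, v i ^ 2 := by
    unfold fm
    rw [Finset.mul_sum, ← Finset.sum_sub_distrib, ← Finset.sum_sub_distrib]
    refine Finset.sum_congr rfl fun i hi => ?_
    have e1 : ∑ j ∈ range N, (((if i = j then (δ : ℤ) else 0 : ℤ)) : ℝ) * (v i * v j) = δ * v i ^ 2 := by
      rw [Finset.sum_eq_single i]
      · rw [if_pos rfl]; push_cast; ring
      · intro j _ hne
        rw [if_neg (fun e => hne e.symm)]
        push_cast
        ring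
      · intro hn
        exact absurd hi hn
    rw [← e1, ← Finset.sum_sub_distrib, ← Finset.sum_sub_distrib]
    refine Finset.sum_congr rfl fun j _ => ?_
    rw [Int.cast_sub, Int.cast_sub]
    ring
  rw [h2] at h1
  have h3 := (abs_le.1 h1).1
  nlinarith

end Helper54.SH.MatF
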