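import Pool.Agent.Helper54.SH.MatF

/-!
# The matrix certificate of a cell: blocks and the final theorem

A block is given, for every coordinate, by packed vectors `a` (and `b` for pairs). Its form is
`± ∑_c w_c a_c(v)²` or `± 2 ∑_c w_c a_c(v) b_c(v)`.
-/

set_option autoImplicit false

open Finset

namespace Helper54.SH.MatF

open Helper76.RC.TPoly Helper54.RC.Fast

/-! ## Dot products of lists -/

/-- dot product -/
def dotL : List ℤ → List ℤ → ℤ
  | a :: l, b :: m => a * b + dotL l m
  | _, _ => 0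

theorem dotL_sum (l m : List ℤ) (n : ℕ) (hl : l.length = n) :
    dotL l m = ∑ i ∈ range n, l.getD i 0 * m.getD i 0 := by
  induction l generalizing m n with
  | nil =>
    subst hl
    cases m <;> simp [dotL]
  | cons a l ih =>
    subst hl
    cases m with
    | nil => simp [dotL]
    | cons b m =>
      rw [List.length_cons, Finset.sum_range_succ', dotL, ih m l.length rfl]
      simp only [List.getD_cons_succ, List.getD_cons_zero]
      ring

theorem dotL_append (l m l' m' : List ℤ) (h : l.length = m.length) :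
    dotL (l ++ l') (m ++ m') = dotL l m + dotL l' m' := by
  induction l generalizing m with
  | nil =>
    cases m with
    | nil => simp [dotL]
    | cons b m => simp at h
  | cons a l ih =>
    cases m with
    | nil => simp at h
    | cons b m =>
      simp only [List.cons_append, dotL]
      rw [ih m (by simpa using h)]
      ring

theorem wl_append (ws vs : List ℕ) (l m : List ℤ) (h : l.length = ws.length) :
    wl (ws ++ vs) (l ++ m) = wl ws l ++ wl vs m := by
  induction ws generalizing l with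
  | nil =>
    cases l with
    | nil => simp [wl]
    | cons b l => simp at h
  | cons w ws ih =>
    cases l with
    | nil => simp at h
    | cons b l =>
      simp only [List.cons_append, wl]
      rw [ih l (by simpa using h)]

theorem wl_dot (ws : List ℕ) (l m : List ℤ) (n : ℕ) (hl : l.length = n) (hm : m.length = n) (hw : ws.length = n) :
    dotL l (wl ws m) = ∑ i ∈ range n, (ws.getD i 0 : ℤ) * (l.getD i 0 * m.getD i 0) := by
  rw [dotL_sum l _ n hl]
  refine Finset.sum_congr rfl fun i _ => ?_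
  rw [getD_wl ws m (by rw [hm, hw])]
  ring

/-! ## General vectors -/

/-- sign of the reversed vector -/
def sgY (b n : ℕ) (neg : Bool) (Y : ℕ) : ℕ := bif neg then Nat.sub (Nat.mul 2 (of b n)) Y else Y

/-- the vectors of one coordinate -/
def gBD (b n : ℕ) (neg : Bool) (ws : List ℕ) (X Z : ℕ) : BD := mkBD b n X (sgY b n neg (mkY b ws Z 0))

/-- sign -/
def sgn (neg : Bool) : ℤ := if neg then -1 else 1

/-- the check of one coordinate -/
def okC (b r n W NX NY : ℕ) (ws : List ℕ) (X Z : ℕ) : Bool :=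
  bif Nat.ble (Nat.succ X) (Nat.pow (Nat.pow 2 (Nat.succ b)) n) then
  bif Nat.ble (l1F b r n X) NX then
  bif Nat.ble (Nat.succ (Nat.mul W (l1F b r n Z))) (Nat.pow 2 b) then
  Nat.ble (l1F b r n (mkY b ws Z 0)) NY else false else false else false

/-- all weights are at most `W` -/
def wOK (W : ℕ) : List ℕ → Bool
  | [] => true
  | w :: ws => bif Nat.ble w W then wOK W ws else false

theorem wOK_iff (W : ℕ) (ws : List ℕ) (h : wOK W ws = true) : ∀ w ∈ ws, w ≤ W := by
  induction ws with
  | nil => intro w hw; simp at hw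
  | cons a ws ih =>
    unfold wOK at h
    rw [bif3] at h
    intro w hw
    rcases List.mem_cons.1 hw with h2 | h2
    · rw [h2]; exact Nat.le_of_ble_eq_true h.1
    · exact ih h.2 w h2

/-- the constants of a block: `NX NY < 2 ^ b`, lengths and weights -/
def okK (b r n W NX NY : ℕ) (ws : List ℕ) : Bool :=
  bif Nat.beq ws.length n then bif Nat.ble 1 n then bif wOK W ws then bif Nat.ble r (Nat.succ b) then
    bif Nat.ble (Nat.succ NY) (Nat.pow 2 b) then
    Nat.ble (Nat.succ (Nat.mul NX NY)) (Nat.pow 2 b) else false else false else false else false else false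

theorem wl_range (b W : ℕ) (ws : List ℕ) (hw : ∀ w ∈ ws, w ≤ W) (l : List ℤ) (h : W * l1 l < 2 ^ b) :
    ∀ c ∈ wl ws l, -((2 ^ b : ℕ) : ℤ) ≤ c ∧ c < (2 ^ b : ℕ) := by
  induction ws generalizing l with
  | nil => intro c hc; simp [wl] at hc
  | cons w ws ih =>
    cases l with
    | nil => intro c hc; simp [wl] at hc
    | cons a l =>
      intro c hc
      have h1 : W * l1 (a :: l) = W * a.natAbs + W * l1 l := by simp only [l1]; ring
      rw [h1] at h
      rcases List.mem_cons.1 hc with h2 | h2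
      · have h3 : w ≤ W := hw w List.mem_cons_self
        have h4 : c.natAbs ≤ W * a.natAbs := by
          rw [h2, Int.natAbs_mul, Int.natAbs_natCast]
          exact Nat.mul_le_mul_right _ h3
        have h5 : c.natAbs < 2 ^ b := by omega
        omega
      · exact ih (fun w hw' => hw w (List.mem_cons_of_mem _ hw')) l (by omega) c h2

structure OKK (b r n W NX NY : ℕ) (ws : List ℕ) : Prop where
  len : ws.length = n
  n1 : 1 ≤ n
  w : ∀ w ∈ ws, w ≤ W
  hr : r ≤ b + 1
  hY : NY < 2 ^ b
  hN : NX * NY < 2 ^ b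

theorem okK_iff (b r n W NX NY : ℕ) (ws : List ℕ) (h : okK b r n W NX NY ws = true) : OKK b r n W NX NY ws := by
  unfold okK at h
  simp only [bif3] at h
  obtain ⟨h1, h2, h3, h4, h5, h6⟩ := h
  exact ⟨Nat.eq_of_beq_eq_true h1, Nat.le_of_ble_eq_true h2, wOK_iff W ws h3, Nat.le_of_ble_eq_true h4,
    Nat.le_of_ble_eq_true h5, Nat.le_of_ble_eq_true h6⟩

structure OKC (b n W NX NY : ℕ) (ws : List ℕ) (X Z : ℕ) : Prop where
  hX : X < (2 ^ (b + 1)) ^ n
  lX : l1 (ls b n X) ≤ NX
  lY : l1 (wl ws (ls b n Z)) ≤ NY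
  hY : ls b n (mkY b ws Z 0) = (wl ws (ls b n Z)).reverse
  hY2 : mkY b ws Z 0 < (2 ^ (b + 1)) ^ n

theorem okC_sound (b r n W NX NY : ℕ) (ws : List ℕ) (hk : OKK b r n W NX NY ws) (X Z : ℕ)
    (h : okC b r n W NX NY ws X Z = true) : OKC b n W NX NY ws X Z := by
  unfold okC at h
  simp only [bif3] at h
  obtain ⟨h1, h2, h3, h4⟩ := h
  have h1 : X < (2 ^ (b + 1)) ^ n := Nat.le_of_ble_eq_true h1
  have h2 : l1F b r n X ≤ NX := Nat.le_of_ble_eq_true h2
  have h3 : W * l1F b r n Z < 2 ^ b := Nat.le_of_ble_eq_true h3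
  have h4 : l1F b r n (mkY b ws Z 0) ≤ NY := Nat.le_of_ble_eq_true h4
  have g2 : W * l1 (ls b n Z) < 2 ^ b := lt_of_le_of_lt (Nat.mul_le_mul_left _ (l1F_le b r n Z hk.hr)) h3
  have k := mkY_sound b 0 ws Z 0 (by simp) (by
    rw [hk.len]
    exact wl_range b W ws hk.w _ g2)
  rw [hk.len] at k
  simp only [Nat.add_zero, lst, List.append_nil] at k
  refine ⟨h1, (l1F_le b r n X hk.hr).trans h2, ?_, k.1, k.2⟩
  have g3 := l1F_le b r n (mkY b ws Z 0) hk.hr
  rw [← l1_reverse, ← k.1]
  exact g3.trans h4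

theorem negL_reverse (l : List ℤ) : negL l.reverse = (negL l).reverse := by
  unfold negL
  rw [List.map_reverse]

theorem dotL_negL (l m : List ℤ) : dotL l (negL m) = -dotL l m := by
  induction l generalizing m with
  | nil => cases m <;> simp [dotL]
  | cons a l ih =>
    cases m with
    | nil => simp [dotL, negL]
    | cons b m =>
      have e : negL (b :: m) = (-b) :: negL m := rfl
      rw [e, dotL, dotL, ih]
      ring

/-- the value of a general block -/
theorem gBD_val (b r n W NX NY : ℕ) (ws : List ℕ) (neg : Bool) (hk : OKK b r n W NX NY ws) (X Z X' Z' : ℕ)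
    (h : OKC b n W NX NY ws X Z) (h' : OKC b n W NX NY ws X' Z') :
    ((dt (mkBC b n) (gBD b n neg ws X Z) (gBD b n neg ws X' Z') : ℕ) : ℤ) =
      ((2 ^ b : ℕ) : ℤ) + sgn neg * dotL (ls b n X) (wl ws (ls b n Z')) := by
  have hlen : (wl ws (ls b n Z')).length = n := by rw [length_wl ws _ (by rw [length_ls, hk.len]), hk.len]
  have hlt : l1 (ls b n X) * l1 (wl ws (ls b n Z')) < 2 ^ b :=
    lt_of_le_of_lt (Nat.mul_le_mul h.lX h'.lY) hk.hN
  cases neg with
  | false =>
    have k := dotF_sound b n X (mkY b ws Z' 0) hk.n1 h.hX h'.hY2 (by rw [h'.hY, l1_reverse]; exact hlt)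
      (wl ws (ls b n Z')) hlen h'.hY
    have e : dt (mkBC b n) (gBD b n false ws X Z) (gBD b n false ws X' Z') =
      dotF b n (dotK b n) X (of b n * X) (mkY b ws Z' 0) (of b n * mkY b ws Z' 0) := rfl
    rw [e, k, dotL_sum _ _ n (length_ls b n X)]
    simp [sgn]
  | true =>
    have hl1Y : l1 (ls b n (mkY b ws Z' 0)) < 2 ^ b := by
      rw [h'.hY, l1_reverse]
      exact lt_of_le_of_lt h'.lY hk.hY
    obtain ⟨k1, k2⟩ := ls_neg b n (mkY b ws Z' 0) h'.hY2 hl1Y
    have k3 : ls b n (2 * of b n - mkY b ws Z' 0) = (negL (wl ws (ls b n Z'))).reverse := by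
      rw [k1, h'.hY, negL_reverse]
    have k := dotF_sound b n X (2 * of b n - mkY b ws Z' 0) hk.n1 h.hX k2 (by
      rw [k3, l1_reverse, l1_negL]; exact hlt) (negL (wl ws (ls b n Z'))) (by rw [length_negL, hlen]) k3
    have e : dt (mkBC b n) (gBD b n true ws X Z) (gBD b n true ws X' Z') =
      dotF b n (dotK b n) X (of b n * X) (2 * of b n - mkY b ws Z' 0) (of b n * (2 * of b n - mkY b ws Z' 0)) := rfl
    rw [e, k, ← dotL_sum _ _ n (length_ls b n X), dotL_negL]
    simp [sgn]

/-! ## Blocks of squares -/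

/-- all coordinates of a block of squares -/
def sqL (b n : ℕ) (neg : Bool) (ws : List ℕ) (as : List ℕ) : List BD := as.map fun a => gBD b n neg ws a a

def okSL (b r n W NX NY : ℕ) (ws : List ℕ) : List ℕ → Bool
  | [] => true
  | a :: as => bif okC b r n W NX NY ws a a then okSL b r n W NX NY ws as else false

/-- the check of a block of squares -/
def okSq (b r N n W NX NY : ℕ) (ws : List ℕ) (as : List ℕ) : Bool :=
  bif okK b r n W NX NY ws then bif Nat.beq as.length N then okSL b r n W NX NY ws as else false else false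

/-- digit `c` of coordinate `i` -/
def dgt (b n : ℕ) (as : List ℕ) (i c : ℕ) : ℤ := (ls b n (as.getD i 0)).getD c 0

/-- the matrix -/
def sqM (b n : ℕ) (neg : Bool) (ws : List ℕ) (as : List ℕ) (i j : ℕ) : ℤ :=
  sgn neg * ∑ c ∈ range n, (ws.getD c 0 : ℤ) * (dgt b n as i c * dgt b n as j c)

theorem okSL_mem (b r n W NX NY : ℕ) (ws : List ℕ) (hk : OKK b r n W NX NY ws) (as : List ℕ)
    (h : okSL b r n W NX NY ws as = true) (i : ℕ) (hi : i < as.length) :
    OKC b n W NX NY ws (as.getD i 0) (as.getD i 0) := by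
  induction as generalizing i with
  | nil => simp at hi
  | cons a as ih =>
    unfold okSL at h
    rw [bif3] at h
    cases i with
    | zero => simpa using okC_sound b r n W NX NY ws hk a a h.1
    | succ i => simpa using ih h.2 i (by simpa using hi)

theorem getD_map_BD (f : ℕ → BD) (as : List ℕ) (i : ℕ) (hi : i < as.length) :
    (as.map f).getD i default = f (as.getD i 0) := by
  rw [List.getD_eq_getElem?_getD, List.getD_eq_getElem?_getD, List.getElem?_map, List.getElem?_eq_getElem hi]
  rfl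

/-- the block of squares -/
def sqB (b n : ℕ) (neg : Bool) (ws : List ℕ) (as : List ℕ) : Bl := ⟨b, n, sqL b n neg ws as, sqM b n neg ws as⟩

theorem sqB_OK (b r N n W NX NY : ℕ) (neg : Bool) (ws as : List ℕ) (h : okSq b r N n W NX NY ws as = true) :
    (sqB b n neg ws as).OK N := by
  unfold okSq at h
  simp only [bif3] at h
  obtain ⟨h1, h2, h3⟩ := h
  have hk := okK_iff b r n W NX NY ws h1
  have hN : as.length = N := Nat.eq_of_beq_eq_true h2
  constructor
  · show (as.map fun a => gBD b n neg ws a a).length = N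
    rw [List.length_map, hN]
  · intro i j
    show sqM b n neg ws as i j = sqM b n neg ws as j i
    unfold sqM
    congr 1
    exact Finset.sum_congr rfl fun c _ => by ring
  · intro i j hi hj
    show ((dt (mkBC b n) ((as.map fun a => gBD b n neg ws a a).getD i default)
      ((as.map fun a => gBD b n neg ws a a).getD j default) : ℕ) : ℤ) = ((2 ^ b : ℕ) : ℤ) + sqM b n neg ws as i j
    rw [getD_map_BD _ as i (by omega), getD_map_BD _ as j (by omega)]
    have ci := okSL_mem b r n W NX NY ws hk as h3 i (by omega)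
    have cj := okSL_mem b r n W NX NY ws hk as h3 j (by omega)
    rw [gBD_val b r n W NX NY ws neg hk _ _ _ _ ci cj, wl_dot ws _ _ n (length_ls _ _ _) (length_ls _ _ _) hk.len]
    rfl

/-- the value of a row at a vector -/
noncomputable def rv (b n N : ℕ) (as : List ℕ) (v : ℕ → ℝ) (c : ℕ) : ℝ := ∑ i ∈ range N, (dgt b n as i c : ℝ) * v i

/-- a bilinear sum -/
theorem bform (n N : ℕ) (w : ℕ → ℝ) (x z : ℕ → ℕ → ℝ) (v : ℕ → ℝ) :
    ∑ i ∈ range N, ∑ j ∈ range N, (∑ c ∈ range n, w c * (x i c * z j c)) * (v i * v j) =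
      ∑ c ∈ range n, w c * ((∑ i ∈ range N, x i c * v i) * ∑ i ∈ range N, z i c * v i) := by
  have h1 : ∀ c, w c * ((∑ i ∈ range N, x i c * v i) * ∑ i ∈ range N, z i c * v i) =
      ∑ i ∈ range N, ∑ j ∈ range N, w c * (x i c * z j c) * (v i * v j) := by
    intro c
    rw [Finset.sum_mul_sum, Finset.mul_sum]
    refine Finset.sum_congr rfl fun i _ => ?_
    rw [Finset.mul_sum]
    exact Finset.sum_congr rfl fun j _ => by ring
  simp_rw [h1]
  conv_rhs => rw [Finset.sum_comm]
  refine Finset.sum_congr rfl fun i _ => ?_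
  conv_rhs => rw [Finset.sum_comm]
  refine Finset.sum_congr rfl fun j _ => ?_
  rw [Finset.sum_mul]

theorem sqM_form (b n N : ℕ) (neg : Bool) (ws as : List ℕ) (v : ℕ → ℝ) :
    fm N (sqM b n neg ws as) v = sgn neg * ∑ c ∈ range n, (ws.getD c 0 : ℝ) * (rv b n N as v c * rv b n N as v c) := by
  unfold fm sqM rv
  rw [← bform n N (fun c => (ws.getD c 0 : ℝ)) (fun i c => (dgt b n as i c : ℝ)) (fun i c => (dgt b n as i c : ℝ)) v,
    Finset.mul_sum]
  refine Finset.sum_congr rfl fun i _ => ?_
  rw [Finset.mul_sum]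
  refine Finset.sum_congr rfl fun j _ => ?_
  push_cast
  ring

/-! ## Blocks of pairs -/

/-- concatenation -/
def catN (b n X Y : ℕ) : ℕ := Nat.add X (Nat.mul (Nat.pow (Nat.pow 2 (Nat.succ b)) n) Y)

theorem ls_cat (b n m X Y : ℕ) (hX : X < (2 ^ (b + 1)) ^ n) : ls b (n + m) (catN b n X Y) = ls b n X ++ ls b m Y := by
  have e : catN b n X Y = X + (2 ^ (b + 1)) ^ n * Y := rfl
  rw [ls_append, e, Nat.add_mul_div_left _ _ (by positivity), Nat.div_eq_of_lt hX, zero_add]
  congr 1
  have h := ls_mod b n n (X + (2 ^ (b + 1)) ^ n * Y) le_rfl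
  rw [Nat.add_mul_mod_self_left, Nat.mod_eq_of_lt hX] at h
  exact h.symm

/-- all coordinates of a block of pairs -/
def prL (b n : ℕ) (neg : Bool) (ws : List ℕ) : List ℕ → List ℕ → List BD
  | a :: as, c :: cs => gBD b (Nat.add n n) neg (ws ++ ws) (catN b n a c) (catN b n c a) :: prL b n neg ws as cs
  | _, _ => []

def okPL (b r n W NX NY : ℕ) (ws : List ℕ) : List ℕ → List ℕ → Bool
  | a :: as, c :: cs => bif Nat.ble (Nat.succ a) (Nat.pow (Nat.pow 2 (Nat.succ b)) n) then
      bif Nat.ble (Nat.succ c) (Nat.pow (Nat.pow 2 (Nat.succ b)) n) then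
      bif okC b r (Nat.add n n) W NX NY (ws ++ ws) (catN b n a c) (catN b n c a) then okPL b r n W NX NY ws as cs
      else false else false else false
  | _, _ => true

/-- the check of a block of pairs -/
def okPr (b r N n W NX NY : ℕ) (ws : List ℕ) (as cs : List ℕ) : Bool :=
  bif okK b r (Nat.add n n) W NX NY (ws ++ ws) then bif Nat.beq ws.length n then bif Nat.beq as.length N then
    bif Nat.beq cs.length N then okPL b r n W NX NY ws as cs else false else false else false else false

/-- the matrix -/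
def prM (b n : ℕ) (neg : Bool) (ws : List ℕ) (as cs : List ℕ) (i j : ℕ) : ℤ :=
  sgn neg * (∑ c ∈ range n, (ws.getD c 0 : ℤ) * (dgt b n as i c * dgt b n cs j c) +
    ∑ c ∈ range n, (ws.getD c 0 : ℤ) * (dgt b n cs i c * dgt b n as j c))

/-- the block of pairs -/
def prB (b n : ℕ) (neg : Bool) (ws : List ℕ) (as cs : List ℕ) : Bl :=
  ⟨b, n + n, prL b n neg ws as cs, prM b n neg ws as cs⟩

theorem prL_length (b n : ℕ) (neg : Bool) (ws as cs : List ℕ) (h : as.length = cs.length) :
    (prL b n neg ws as cs).length = as.length := by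
  induction as generalizing cs with
  | nil => cases cs <;> simp [prL]
  | cons a as ih =>
    cases cs with
    | nil => simp at h
    | cons c cs => simp [prL, ih cs (by simpa using h)]

theorem prL_getD (b n : ℕ) (neg : Bool) (ws as cs : List ℕ) (h : as.length = cs.length) (i : ℕ) (hi : i < as.length) :
    (prL b n neg ws as cs).getD i default =
      gBD b (n + n) neg (ws ++ ws) (catN b n (as.getD i 0) (cs.getD i 0)) (catN b n (cs.getD i 0) (as.getD i 0)) := by
  induction as generalizing cs i with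
  | nil => simp at hi
  | cons a as ih =>
    cases cs with
    | nil => simp at h
    | cons c cs =>
      cases i with
      | zero => simp [prL]
      | succ i => simpa [prL] using ih cs (by simpa using h) i (by simpa using hi)

theorem okPL_mem (b r n W NX NY : ℕ) (ws : List ℕ) (hk : OKK b r (n + n) W NX NY (ws ++ ws)) (as cs : List ℕ)
    (hl : as.length = cs.length) (h : okPL b r n W NX NY ws as cs = true) (i : ℕ) (hi : i < as.length) :
    OKC b (n + n) W NX NY (ws ++ ws) (catN b n (as.getD i 0) (cs.getD i 0)) (catN b n (cs.getD i 0) (as.getD i 0)) ∧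
      as.getD i 0 < (2 ^ (b + 1)) ^ n ∧ cs.getD i 0 < (2 ^ (b + 1)) ^ n := by
  induction as generalizing cs i with
  | nil => simp at hi
  | cons a as ih =>
    cases cs with
    | nil => simp at hl
    | cons c cs =>
      unfold okPL at h
      simp only [bif3] at h
      obtain ⟨h1, h2, h3, h4⟩ := h
      cases i with
      | zero =>
        refine ⟨?_, ?_, ?_⟩
        · simpa using okC_sound b r (n + n) W NX NY (ws ++ ws) hk _ _ h3
        · simpa using (Nat.le_of_ble_eq_true h1 : a + 1 ≤ (2 ^ (b + 1)) ^ n)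
        · simpa using (Nat.le_of_ble_eq_true h2 : c + 1 ≤ (2 ^ (b + 1)) ^ n)
      | succ i => simpa using ih cs (by simpa using hl) h4 i (by simpa using hi)

theorem prB_OK (b r N n W NX NY : ℕ) (neg : Bool) (ws as cs : List ℕ) (h : okPr b r N n W NX NY ws as cs = true) :
    (prB b n neg ws as cs).OK N := by
  unfold okPr at h
  simp only [bif3] at h
  obtain ⟨h1, h2, h3, h4, h5⟩ := h
  have hk : OKK b r (n + n) W NX NY (ws ++ ws) := okK_iff b r (n + n) W NX NY (ws ++ ws) h1
  have hw : ws.length = n := Nat.eq_of_beq_eq_true h2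
  have hN : as.length = N := Nat.eq_of_beq_eq_true h3
  have hN' : cs.length = N := Nat.eq_of_beq_eq_true h4
  have hl : as.length = cs.length := hN.trans hN'.symm
  constructor
  · show (prL b n neg ws as cs).length = N
    rw [prL_length b n neg ws as cs hl, hN]
  · intro i j
    show prM b n neg ws as cs i j = prM b n neg ws as cs j i
    unfold prM
    rw [add_comm]
    congr 2
    · exact Finset.sum_congr rfl fun c _ => by ring
    · exact Finset.sum_congr rfl fun c _ => by ring
  · intro i j hi hj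
    show ((dt (mkBC b (n + n)) ((prL b n neg ws as cs).getD i default)
      ((prL b n neg ws as cs).getD j default) : ℕ) : ℤ) = ((2 ^ b : ℕ) : ℤ) + prM b n neg ws as cs i j
    rw [prL_getD b n neg ws as cs hl i (by omega), prL_getD b n neg ws as cs hl j (by omega)]
    obtain ⟨ci, ai, bi⟩ := okPL_mem b r n W NX NY ws hk as cs hl h5 i (by omega)
    obtain ⟨cj, aj, bj⟩ := okPL_mem b r n W NX NY ws hk as cs hl h5 j (by omega)
    rw [gBD_val b r (n + n) W NX NY (ws ++ ws) neg hk _ _ _ _ ci cj, ls_cat b n n _ _ ai, ls_cat b n n _ _ bj,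
      wl_append ws ws _ _ (by rw [length_ls, hw]), dotL_append _ _ _ _ (by
        rw [length_ls, length_wl ws _ (by rw [length_ls, hw]), hw]),
      wl_dot ws _ _ n (length_ls _ _ _) (length_ls _ _ _) hw, wl_dot ws _ _ n (length_ls _ _ _) (length_ls _ _ _) hw]
    rfl

theorem prM_form (b n N : ℕ) (neg : Bool) (ws as cs : List ℕ) (v : ℕ → ℝ) :
    fm N (prM b n neg ws as cs) v =
      sgn neg * (2 * ∑ c ∈ range n, (ws.getD c 0 : ℝ) * (rv b n N as v c * rv b n N cs v c)) := by
  have h1 := bform n N (fun c => (ws.getD c 0 : ℝ)) (fun i c => (dgt b n as i c : ℝ)) (fun i c => (dgt b n cs i c : ℝ)) v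
  have h2 := bform n N (fun c => (ws.getD c 0 : ℝ)) (fun i c => (dgt b n cs i c : ℝ)) (fun i c => (dgt b n as i c : ℝ)) v
  have h3 : ∑ c ∈ range n, (ws.getD c 0 : ℝ) * (rv b n N cs v c * rv b n N as v c) =
      ∑ c ∈ range n, (ws.getD c 0 : ℝ) * (rv b n N as v c * rv b n N cs v c) :=
    Finset.sum_congr rfl fun c _ => by ring
  have h4 : fm N (prM b n neg ws as cs) v = sgn neg * (
      (∑ i ∈ range N, ∑ j ∈ range N, (∑ c ∈ range n, (ws.getD c 0 : ℝ) * ((dgt b n as i c : ℝ) * dgt b n cs j c)) * (v i * v j)) +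
      ∑ i ∈ range N, ∑ j ∈ range N, (∑ c ∈ range n, (ws.getD c 0 : ℝ) * ((dgt b n cs i c : ℝ) * dgt b n as j c)) * (v i * v j)) := by
    unfold fm prM
    rw [← Finset.sum_add_distrib, Finset.mul_sum]
    refine Finset.sum_congr rfl fun i _ => ?_
    rw [← Finset.sum_add_distrib, Finset.mul_sum]
    refine Finset.sum_congr rfl fun j _ => ?_
    push_cast
    ring
  rw [h4, h1, h2]
  show (sgn neg : ℝ) * ((∑ c ∈ range n, (ws.getD c 0 : ℝ) * (rv b n N as v c * rv b n N cs v c)) +
    ∑ c ∈ range n, (ws.getD c 0 : ℝ) * (rv b n N cs v c * rv b n N as v c)) = _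
  rw [h3]
  ring

/-! ## Real forms -/

/-- a block with its real form: `|σ g(v) - form| ≤ κ N |v|²` -/
structure GB where
  B : Bl
  g : (ℕ → ℝ) → ℝ
  κ : ℕ

def GB.OK (N : ℕ) (σ : ℝ) (G : GB) : Prop :=
  G.B.OK N ∧ ∀ v : ℕ → ℝ, v 0 = 1 → |σ * G.g v - fm N G.B.M v| ≤ G.κ * N * ∑ i ∈ range N, v i ^ 2

/-- the sum of all forms -/
def gsum : List GB → (ℕ → ℝ) → ℝ
  | [], _ => 0
  | G :: L, v => G.g v + gsum L v

/-- the sum of the errors -/
def κsum : List GB → ℕ
  | [] => 0
  | G :: L => G.κ + κsum L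

theorem gsum_le (N : ℕ) (σ : ℝ) (L : List GB) (hL : ∀ G ∈ L, G.OK N σ) (v : ℕ → ℝ) (hv : v 0 = 1) :
    ((L.map GB.B).map fun B => fm N B.M v).sum ≤ σ * gsum L v + κsum L * N * ∑ i ∈ range N, v i ^ 2 := by
  induction L with
  | nil => simp [gsum, κsum]
  | cons G L ih =>
    have i1 := ih fun H hH => hL H (List.mem_cons_of_mem _ hH)
    have i2 := (abs_le.1 ((hL G List.mem_cons_self).2 v hv)).1
    simp only [List.map_cons, List.sum_cons, gsum, κsum]
    rw [Nat.cast_add]
    have e1 : σ * (G.g v + gsum L v) + ((G.κ : ℝ) + (κsum L : ℝ)) * N * ∑ i ∈ range N, v i ^ 2 =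
      (σ * G.g v + G.κ * N * ∑ i ∈ range N, v i ^ 2) + (σ * gsum L v + κsum L * N * ∑ i ∈ range N, v i ^ 2) := by ring
    rw [e1]
    refine add_le_add ?_ i1
    linarith

/-- FINAL THEOREM: all blocks, a block of squares (the Cholesky factor) and the slack -/
theorem gb_final {N : ℕ} {σ : ℝ} (hσ : 0 < σ) (L : List GB) (hL : ∀ G ∈ L, G.OK N σ)
    {b r n W NX NY : ℕ} {ws cs : List ℕ} (hC : okSq b r N n W NX NY ws cs = true) {rho δ κ0 : ℕ}
    (hc : chkM N rho δ ((L.map GB.B).map Bl.bc) ((L.map GB.B).map Bl.xs) (mkBC b n) (sqL b n false ws cs) = true)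
    (hδ : Nat.ble (N * (rho + κsum L) + κ0) δ = true) {c0 : ℝ} (hc0 : σ * c0 ≤ κ0) (v : ℕ → ℝ) (hv : v 0 = 1) :
    c0 * ∑ i ∈ range N, v i ^ 2 ≤ gsum L v := by
  have hCB := sqB_OK b r N n W NX NY false ws cs hC
  have h1 := forms_ge N rho δ (L.map GB.B) (by
    intro B hB
    obtain ⟨G, hG, rfl⟩ := List.mem_map.1 hB
    exact (hL G hG).1) (sqB b n false ws cs) hCB hc v
  have h2 : 0 ≤ fm N (sqB b n false ws cs).M v := by
    show 0 ≤ fm N (sqM b n false ws cs) v
    rw [sqM_form]
    have : 0 ≤ ∑ c ∈ range n, (ws.getD c 0 : ℝ) * (rv b n N cs v c * rv b n N cs v c) :=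
      Finset.sum_nonneg fun c _ => mul_nonneg (Nat.cast_nonneg _) (mul_self_nonneg _)
    simpa [sgn] using this
  have h3 := gsum_le N σ L hL v hv
  set S : ℝ := ∑ i ∈ range N, v i ^ 2 with hS
  have hS0 : 0 ≤ S := Finset.sum_nonneg fun i _ => sq_nonneg _
  have h4 : (N : ℝ) * (rho + κsum L) + κ0 ≤ δ := by exact_mod_cast Nat.le_of_ble_eq_true hδ
  have h5 : σ * (c0 * S) ≤ σ * gsum L v := by
    have h6 : σ * c0 * S ≤ κ0 * S := mul_le_mul_of_nonneg_right hc0 hS0
    have h7 : ((N : ℝ) * (rho + κsum L) + κ0) * S ≤ δ * S := mul_le_mul_of_nonneg_right h4 hS0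
    nlinarith
  exact le_of_mul_le_mul_left h5 hσ

end Helper54.SH.MatF
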