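import Pool.Agent.Helper54.SH.MatG

/-!
# The matrix certificate of a cell: the factor is computed in the kernel

`ldl` computes an approximate `L D Lᵀ` factorisation of the sum of all blocks with packed rows; nothing about it is proved,
its result is only used as data of the final check `chkF`.
-/

set_option autoImplicit false

open Finset

namespace Helper54.SH.MatF

open Helper76.RC.TPoly Helper54.RC.Fast

/-- a row of the Schur complement (digits `j ≥ i`, base `2 ^ w`, offset `2 ^ β`) and the factor row -/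
structure RA where
  r : ℕ
  c : ℕ

/-- `q` is the offset quotient -/
def el2 (u P BC K r c p o q : ℕ) : RA :=
  ⟨Nat.land (Nat.shiftRight (Nat.sub (Nat.add (Nat.mul (Nat.pow 2 u) r) (Nat.add (Nat.mul q o) (Nat.mul P p)))
      (Nat.add (Nat.mul q p) (Nat.mul P o))) u) K,
    Nat.sub (Nat.add c (Nat.mul q BC)) (Nat.mul P BC)⟩

/-- elimination of one row; `p` is the pivot row shifted, `o` the offset -/
def el1 (w u d P BC K : ℕ) (a : RA) (p o : ℕ) : RA :=
  el2 u P BC K a.r a.c p o (Nat.div (Nat.mul (Nat.mod p (Nat.pow 2 w)) (Nat.pow 2 u)) d)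

/-- elimination of all rows below the pivot row -/
def elA (w u d P BC K : ℕ) : List RA → ℕ → ℕ → List RA
  | [], _, _ => []
  | a :: l, p, o => el1 w u d P BC K a p o :: elA w u d P BC K l (Nat.shiftRight p w) (Nat.shiftRight o w)

/-- all pivots; the result is the list of `(d, C)`; `BC` is the position of the digit in the factor -/
def ldl (w β u bC K : ℕ) : ℕ → ℕ → ℕ → List RA → List RA
  | fuel + 1, BC, o, a :: l => ⟨Nat.sub (Nat.mod a.r (Nat.pow 2 w)) (Nat.pow 2 β), Nat.add a.c (Nat.mul (Nat.pow 2 u) BC)⟩ ::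
    ldl w β u bC K fuel (Nat.mul (Nat.pow 2 (Nat.succ bC)) BC) (Nat.shiftRight o w)
      (elA w u (Nat.sub (Nat.mod a.r (Nat.pow 2 w)) (Nat.pow 2 β))
        (Nat.div (Nat.pow 2 (Nat.add β u)) (Nat.sub (Nat.mod a.r (Nat.pow 2 w)) (Nat.pow 2 β))) BC K l
        (Nat.shiftRight a.r w) (Nat.shiftRight o w))
  | _, _, _, _ => []

/-- packed row of the matrix: `(e + A) / 2 ^ t - S` (`A = 2 ^ (β + t) + 2 ^ x - TO`) -/
def pkR (w t A S : ℕ) : List ℕ → ℕ
  | [] => 0
  | e :: es => Nat.add (Nat.sub (Nat.shiftRight (Nat.add e A) t) S) (Nat.mul (Nat.pow 2 w) (pkR w t A S es))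

/-- all rows; the diagonal is reduced by `δ` -/
def pkA (w t A S δ c : ℕ) : List (List ℕ) → List RA
  | (e :: es) :: l => ⟨pkR w t A S (Nat.sub e δ :: es), c⟩ :: pkA w t A S δ c l
  | _ => []

/-- parameters of the factorisation: width `w`, precision `β, u`, scale `2 ^ t`, format `bC` of the factor -/
structure LP where
  w : ℕ
  β : ℕ
  u : ℕ
  t : ℕ
  bC : ℕ
  r : ℕ
  W : ℕ
  NX : ℕ
  NY : ℕ

/-- `(e + A) / 2 ^ t - S = M / 2 ^ t + 2 ^ β` for `e = T + M` -/
def ldlM (q : LP) (N T δ : ℕ) (ents : List (List ℕ)) : List RA :=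
  ldl q.w q.β q.u q.bC (Nat.mul (Nat.sub (Nat.pow 2 (Nat.sub q.w q.u)) 1)
      (Nat.div (Nat.sub (Nat.pow 2 (Nat.mul q.w N)) 1) (Nat.sub (Nat.pow 2 q.w) 1))) N 1
    (Nat.mul (Nat.pow 2 q.β) (Nat.div (Nat.sub (Nat.pow 2 (Nat.mul q.w N)) 1) (Nat.sub (Nat.pow 2 q.w) 1)))
    (pkA q.w q.t (Nat.sub (Nat.mul (Nat.pow 2 q.t) (Nat.add (Nat.pow 2 q.β) (Nat.shiftRight T q.t))) T)
      (Nat.shiftRight T q.t) δ (of q.bC N) ents)

/-- the weights -/
def wsR (t u : ℕ) : List RA → List ℕ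
  | [] => []
  | a :: l => Nat.shiftRight (Nat.mul a.r (Nat.pow 2 t)) (Nat.mul 2 u) :: wsR t u l

/-- the factor -/
def csR : List RA → List ℕ
  | [] => []
  | a :: l => a.c :: csR l

/-- the final check with given factor -/
def chkC (N rho δ : ℕ) (q : LP) (cs : List BC) (ents : List (List ℕ)) (l : List RA) : Bool :=
  bif okSq q.bC q.r N N q.W q.NX q.NY (wsR q.t q.u l) (csR l) then
    cA3 (Nat.pow 2 q.bC) (toff cs) (Nat.add (toff cs) δ) rho (mkBC q.bC N) ents
      (sqL q.bC N false (wsR q.t q.u l) (csR l))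
  else false

def chkE (N rho δ : ℕ) (q : LP) (cs : List BC) (ents : List (List ℕ)) : Bool :=
  chkC N rho δ q cs ents (ldlM q N (toff cs) δ ents)

/-- THE FINAL CHECK -/
def chkF (N rho δ : ℕ) (q : LP) (cs : List BC) (xss : List (List BD)) : Bool :=
  chkE N rho δ q cs (entA cs (rowsOf N xss))

theorem chkF_sound {N rho δ : ℕ} {q : LP} {cs : List BC} {xss : List (List BD)} (h : chkF N rho δ q cs xss = true) :
    ∃ ws as, okSq q.bC q.r N N q.W q.NX q.NY ws as = true ∧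
      chkM N rho δ cs xss (mkBC q.bC N) (sqL q.bC N false ws as) = true := by
  unfold chkF chkE chkC at h
  rw [bif3] at h
  exact ⟨_, _, h.1, h.2⟩

/-- FINAL THEOREM: `c0 |v|² ≤ ∑ g(v)` if the check passes -/
theorem final {N : ℕ} {σ : ℝ} (hσ : 0 < σ) (L : List GB) (hL : ∀ G ∈ L, G.OK N σ) {rho δ κ0 : ℕ} {q : LP}
    (hc : chkF N rho δ q ((L.map GB.B).map Bl.bc) ((L.map GB.B).map Bl.xs) = true)
    (hδ : Nat.ble (N * (rho + κsum L) + κ0) δ = true) {c0 : ℝ} (hc0 : σ * c0 ≤ κ0) (v : ℕ → ℝ) (hv : v 0 = 1) :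
    c0 * ∑ i ∈ range N, v i ^ 2 ≤ gsum L v := by
  obtain ⟨ws, as, h1, h2⟩ := chkF_sound hc
  exact gb_final hσ L hL h1 h2 hδ hc0 v hv

end Helper54.SH.MatF
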