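import Pool.Agent.Helper54.SH.MatS4
import Pool.Agent.Helper95.SH.Cell

/-!
# The matrix certificate: blocks from real linear functionals

`sqG`, `prG`: blocks of squares and of pairs; `LR` is the row predicate of the cell engine.
-/

set_option autoImplicit false

open Finset Helper95.SH

namespace Helper54.SH.MatF

open Helper76.RC.TPoly Helper54.RC.Fast

/-- weighted `ℓ¹` norm of the `Z` digits of an item at the coordinate `i` -/
def It.lw (b : ℕ) (t : It) (i : ℕ) : ℤ := ∑ c ∈ range t.n, (t.ws.getD c 0 : ℤ) * |dgt b t.n t.zs i c|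

/-- meaning of a block, given the bound `NY` of the weighted norms -/
def GI2.OKY (b N NY : ℕ) (σ : ℝ) (G : GI2) : Prop :=
  (∀ i j, itM b G.its i j = itM b G.its j i) ∧
  ((∀ t ∈ G.its, ∀ i < N, t.lw b i ≤ NY) →
    ∀ v : ℕ → ℝ, v 0 = 1 → |σ * G.g v - fm N (itM b G.its) v| ≤ G.κ * N * ∑ i ∈ range N, v i ^ 2)

/-! ## The check gives the bounds of the norms -/

theorem l1_wz (ps ms : List ℕ) (l : List ℤ) (n : ℕ) (hp : ps.length = n) (hm : ms.length = n) (hl : l.length = n) :
    (l1 (wz ps ms l) : ℤ) = ∑ c ∈ range n, |((ps.getD c 0 : ℤ) - ms.getD c 0) * l.getD c 0| := by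
  induction ps generalizing ms l n with
  | nil =>
    simp only [List.length_nil] at hp
    subst hp
    simp [wz, l1]
  | cons p ps ih =>
    cases ms with
    | nil => simp only [List.length_nil] at hm; subst hm; simp at hp
    | cons m ms =>
      cases l with
      | nil => simp only [List.length_nil] at hl; subst hl; simp at hp
      | cons a l =>
        simp only [List.length_cons] at hp hm hl
        subst hp
        rw [Finset.sum_range_succ']
        simp only [wz, l1, List.getD_cons_succ, List.getD_cons_zero]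
        rw [Nat.cast_add, ih ms l ps.length rfl (by omega) (by omega), Int.natCast_natAbs]
        ring

theorem l1_wz_its (b N K : ℕ) (l : List It) (h : ∀ t ∈ l, t.OK b N K) (i : ℕ) :
    (l1 (wz (wpos l) (wneg l) (lZ b l i)) : ℤ) = (l.map fun t => t.lw b i).sum := by
  induction l with
  | nil => simp [wpos, wz, l1]
  | cons t l ih =>
    have h1 := h t List.mem_cons_self
    have h2 := ih fun u hu => h u (List.mem_cons_of_mem _ hu)
    set p : List ℕ := bif t.neg then List.replicate t.n 0 else t.ws with hp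
    set m : List ℕ := bif t.neg then t.ws else List.replicate t.n 0 with hm
    have lp : p.length = t.n := by rw [hp]; cases t.neg <;> simp [h1.lw]
    have lm : m.length = t.n := by rw [hm]; cases t.neg <;> simp [h1.lw]
    have e2 : lZ b (t :: l) i = ls b t.n (t.zs.getD i 0) ++ lZ b l i := rfl
    have e3 : wpos (t :: l) = p ++ wpos l := rfl
    have e4 : wneg (t :: l) = m ++ wneg l := rfl
    rw [e2, e3, e4, wz_append _ _ _ _ _ _ t.n lp lm (length_ls _ _ _), l1_append, Nat.cast_add, h2, List.map_cons,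
      List.sum_cons]
    congr 1
    rw [l1_wz _ _ _ t.n lp lm (length_ls _ _ _)]
    unfold It.lw
    refine Finset.sum_congr rfl fun c hc => ?_
    have hcn := Finset.mem_range.1 hc
    have r0 : (List.replicate t.n 0).getD c 0 = 0 := by
      simp [List.getD_eq_getElem?_getD, hcn]
    have w0 : (0 : ℤ) ≤ (t.ws.getD c 0 : ℤ) := Nat.cast_nonneg _
    cases hn : t.neg with
    | true =>
      rw [hn] at hp hm
      simp only [cond_true] at hp hm
      rw [hp, hm, r0]
      simp only [dgt, Nat.cast_zero, zero_sub, neg_mul, abs_neg, abs_mul, abs_of_nonneg w0]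
    | false =>
      rw [hn] at hp hm
      simp only [cond_false] at hp hm
      rw [hp, hm, r0]
      simp only [dgt, Nat.cast_zero, sub_zero, abs_mul, abs_of_nonneg w0]

theorem It.lw_nonneg (b : ℕ) (t : It) (i : ℕ) : 0 ≤ t.lw b i :=
  Finset.sum_nonneg fun _ _ => mul_nonneg (Nat.cast_nonneg _) (abs_nonneg _)

theorem lw_le_sum (b : ℕ) (l : List It) (i : ℕ) (t : It) (ht : t ∈ l) : t.lw b i ≤ (l.map fun t => t.lw b i).sum := by
  induction l with
  | nil => simp at ht
  | cons a l ih =>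
    rw [List.map_cons, List.sum_cons]
    have h0 : 0 ≤ (l.map fun t => t.lw b i).sum := by
      refine List.sum_nonneg fun x hx => ?_
      obtain ⟨u, _, rfl⟩ := List.mem_map.1 hx
      exact u.lw_nonneg b i
    rcases List.mem_cons.1 ht with h | h
    · rw [h]; linarith
    · have := ih h
      have := a.lw_nonneg b i
      linarith

theorem chkI_lw {p : PM} {N : ℕ} {l : List It} (h : chkI p N l = true) (t : It) (ht : t ∈ l) (j : ℕ) (hj : j < N) :
    t.lw p.b j ≤ p.NY := by
  unfold chkI chk2 chk3 okPM at h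
  simp only [bif3] at h
  obtain ⟨⟨g1, g2, g3, g4, g5, g6, g7⟩, h2, h3, h4, h5, h6⟩ := h
  have g2 : ntot l ≤ 2 ^ p.k := Nat.le_of_ble_eq_true g2
  have g3 : p.r ≤ p.b + 1 := Nat.le_of_ble_eq_true g3
  have g4 : p.K ≤ p.b + 1 := Nat.le_of_ble_eq_true g4
  have g6 : 2 ^ p.K * p.NZ < 2 ^ p.b := Nat.le_of_ble_eq_true g6
  have hI := okIts_mem _ _ _ _ h2
  have lz := catZ_length _ _ _ _ hI
  set n := ntot l with hn
  have ly : (yvs (mkVC p.b p.k p.K l) (catZ p.b N l)).length = N := by rw [yvs_eq, List.length_map, lz]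
  have ey : (yvs (mkVC p.b p.k p.K l) (catZ p.b N l)).getD j 0 = yv (mkVC p.b p.k p.K l) ((catZ p.b N l).getD j 0) := by
    rw [yvs_eq, List.getD_eq_getElem?_getD, List.getD_eq_getElem?_getD, List.getElem?_map,
      List.getElem?_eq_getElem (by rw [lz]; exact hj)]
    rfl
  have nY := okX_mem _ _ _ _ g3 _ h5 j (by rw [ly]; exact hj)
  rw [ey] at nY
  set Z := (catZ p.b N l).getD j 0 with hZ
  obtain ⟨z1, z2⟩ := ls_catZ p.b N p.K l hI j
  rw [← hZ] at z1 z2
  have nZ : l1 (ls p.b n Z) ≤ p.NZ := okX_mem _ _ _ _ g3 _ h4 j (by rw [lz]; omega)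
  have wp := wpos_len _ _ _ _ hI
  have wm := wneg_len _ _ _ _ hI
  have wpl := wpos_lt _ _ _ _ hI
  have wml := wneg_lt _ _ _ _ hI
  have hw : l1 (wz (wpos l) (wneg l) (ls p.b n Z)) < 2 ^ p.b :=
    lt_of_le_of_lt ((wz_l1 _ _ _ (2 ^ p.K) (fun w hw => (wpl w hw).le) (fun w hw => (wml w hw).le)).trans
      (Nat.mul_le_mul_left _ nZ)) g6
  obtain ⟨v1, v2⟩ := wv_sound p.b n p.K g4 (wpos l) (wneg l) wp wm wpl wml Z hw
  obtain ⟨y1, y2⟩ := rvn_sound p.b p.k n _ g2 v2
  rw [v1] at y1
  have ey2 : yv (mkVC p.b p.k p.K l) Z =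
    rvn p.b p.k n (lev p.b p.k 1) (wv (mkWC p.b n p.K (pwl p.b (wpos l)) (pwl p.b (wneg l))) Z) := rfl
  rw [ey2, y1, l1_reverse, z1] at nY
  have h8 := l1_wz_its p.b N p.K l hI j
  have h9 := lw_le_sum p.b l j t ht
  rw [← h8] at h9
  exact h9.trans (by exact_mod_cast nY)

theorem mem_allIts (L : List GI2) (G : GI2) (hG : G ∈ L) (t : It) (ht : t ∈ G.its) : t ∈ allIts L := by
  induction L with
  | nil => simp at hG
  | cons H L ih =>
    rw [allIts, List.mem_append]
    rcases List.mem_cons.1 hG with h | h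
    · left; rw [← h]; exact ht
    · right; exact ih h

/-- FINAL THEOREM with blocks whose error is bounded by `NY` -/
theorem final3 {p : PM} {N : ℕ} {σ : ℝ} (hσ : 0 < σ) (L : List GI2) (hL : ∀ G ∈ L, G.OKY p.b N p.NY σ) {n w : ℕ}
    {C : List ℕ} (hc : chkI p N (fIt n w C :: allIts L) = true) {κ0 : ℕ}
    (hδ : Nat.ble (Nat.add (Nat.mul N (Nat.add (Nat.add p.rho 4) (κs2 L))) κ0) p.δ = true) {c0 : ℝ}
    (hc0 : σ * c0 ≤ κ0) (v : ℕ → ℝ) (hv : v 0 = 1) :
    c0 * ∑ i ∈ range N, v i ^ 2 ≤ gs2 L v := by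
  refine final2 hσ L (fun G hG => ⟨(hL G hG).1, (hL G hG).2 fun t ht i hi => ?_⟩) hc hδ hc0 v hv
  exact chkI_lw hc t (List.mem_cons_of_mem _ (mem_allIts L G hG t ht)) i hi

/-! ## Error of a bilinear block -/

/-- sum of the weights -/
def sumW : List ℕ → ℕ
  | [] => 0
  | w :: ws => Nat.add w (sumW ws)

theorem sumW_eq (ws : List ℕ) (n : ℕ) (h : ws.length = n) : (sumW ws : ℝ) = ∑ c ∈ range n, (ws.getD c 0 : ℝ) := by
  induction ws generalizing n with
  | nil => simp only [List.length_nil] at h; subst h; simp [sumW]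
  | cons w ws ih =>
    simp only [List.length_cons] at h
    subst h
    have e : sumW (w :: ws) = w + sumW ws := rfl
    rw [e, Finset.sum_range_succ', Nat.cast_add, ih _ rfl]
    simp only [List.getD_cons_succ, List.getD_cons_zero]
    ring

theorem bil_le (n : ℕ) (ws : List ℕ) (hw : ws.length = n) (p q : ℝ) (ρ τ : ℕ → ℝ) (x z : ℕ → ℤ) (e : ℕ) (X Z : ℝ)
    (h1 : ∀ c < n, |p * ρ c - x c| ≤ e) (h2 : ∀ c < n, |q * τ c - z c| ≤ e)
    (hx : ∑ c ∈ range n, (ws.getD c 0 : ℝ) * |(x c : ℝ)| ≤ X) (hz : ∑ c ∈ range n, (ws.getD c 0 : ℝ) * |(z c : ℝ)| ≤ Z) :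
    |∑ c ∈ range n, (ws.getD c 0 : ℝ) * (p * q * (ρ c * τ c) - x c * z c)| ≤ e * X + e * Z + e * e * sumW ws := by
  have h3 : ∀ c < n, |(ws.getD c 0 : ℝ) * (p * q * (ρ c * τ c) - x c * z c)| ≤
      e * ((ws.getD c 0 : ℝ) * |(x c : ℝ)|) + e * ((ws.getD c 0 : ℝ) * |(z c : ℝ)|) + e * e * (ws.getD c 0 : ℝ) := by
    intro c hc
    have hw0 : (0 : ℝ) ≤ (ws.getD c 0 : ℝ) := Nat.cast_nonneg _
    have he : (0 : ℝ) ≤ e := Nat.cast_nonneg _
    have e1 : p * q * (ρ c * τ c) - x c * z c =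
      x c * (q * τ c - z c) + z c * (p * ρ c - x c) + (p * ρ c - x c) * (q * τ c - z c) := by ring
    rw [e1, abs_mul, abs_of_nonneg hw0]
    have h4 : |x c * (q * τ c - z c) + z c * (p * ρ c - x c) + (p * ρ c - x c) * (q * τ c - z c)| ≤
        |(x c : ℝ)| * e + |(z c : ℝ)| * e + e * e := by
      refine (abs_add_le _ _).trans (add_le_add ((abs_add_le _ _).trans (add_le_add ?_ ?_)) ?_)
      · rw [abs_mul]; exact mul_le_mul_of_nonneg_left (h2 c hc) (abs_nonneg _)
      · rw [abs_mul]; exact mul_le_mul_of_nonneg_left (h1 c hc) (abs_nonneg _)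
      · rw [abs_mul]; exact mul_le_mul (h1 c hc) (h2 c hc) (abs_nonneg _) he
    calc (ws.getD c 0 : ℝ) * |x c * (q * τ c - z c) + z c * (p * ρ c - x c) + (p * ρ c - x c) * (q * τ c - z c)|
        ≤ (ws.getD c 0 : ℝ) * (|(x c : ℝ)| * e + |(z c : ℝ)| * e + e * e) := mul_le_mul_of_nonneg_left h4 hw0
      _ = _ := by ring
  refine (Finset.abs_sum_le_sum_abs _ _).trans ((Finset.sum_le_sum fun c hc => h3 c (Finset.mem_range.1 hc)).trans ?_)
  rw [Finset.sum_add_distrib, Finset.sum_add_distrib, ← Finset.mul_sum, ← Finset.mul_sum, ← Finset.mul_sum,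
    ← sumW_eq ws n hw]
  have he : (0 : ℝ) ≤ e := Nat.cast_nonneg _
  have k1 := mul_le_mul_of_nonneg_left hx he
  have k2 := mul_le_mul_of_nonneg_left hz he
  linarith

theorem lw_real (b : ℕ) (n : ℕ) (ws zs : List ℕ) (i NY : ℕ)
    (h : ∑ c ∈ range n, (ws.getD c 0 : ℤ) * |dgt b n zs i c| ≤ NY) :
    ∑ c ∈ range n, (ws.getD c 0 : ℝ) * |(dgt b n zs i c : ℝ)| ≤ NY := by
  have : ((∑ c ∈ range n, (ws.getD c 0 : ℤ) * |dgt b n zs i c| : ℤ) : ℝ) ≤ NY := by exact_mod_cast h
  rw [Int.cast_sum] at this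
  refine le_trans (le_of_eq ?_) this
  refine Finset.sum_congr rfl fun c _ => ?_
  rw [Int.cast_mul, Int.cast_abs]
  rfl

/-! ## Squares -/

/-- block of squares -/
def sqG (n : ℕ) (neg : Bool) (ws as : List ℕ) (e NY : ℕ) (g : (ℕ → ℝ) → ℝ) : GI2 :=
  ⟨[⟨n, neg, ws, as, as⟩], g, Nat.add (Nat.mul (Nat.mul 2 e) NY) (Nat.mul (Nat.mul e e) (sumW ws))⟩

theorem sgn_abs (neg : Bool) : |((sgn neg : ℤ) : ℝ)| = 1 := by cases neg <;> simp [sgn]

theorem sqG_OK {b N NY n : ℕ} {neg : Bool} {ws as : List ℕ} {e : ℕ} {σ q : ℝ} {A : ℕ → (ℕ → ℝ) → ℝ} {W : ℕ → ℝ}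
    (hw : ws.length = n) (hA : ∀ c < n, LR N q (A c) (fun i => dgt b n as i c) e)
    (hW : ∀ c < n, σ * W c = sgn neg * (q * q) * (ws.getD c 0 : ℝ)) :
    (sqG n neg ws as e NY fun v => ∑ c ∈ range n, W c * A c v ^ 2).OKY b N NY σ := by
  constructor
  · intro i j
    show ([(⟨n, neg, ws, as, as⟩ : It)].map fun t => t.M b i j).sum = ([(⟨n, neg, ws, as, as⟩ : It)].map fun t => t.M b j i).sum
    simp only [List.map_cons, List.map_nil, List.sum_cons, List.sum_nil, add_zero]
    unfold It.M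
    congr 1
    exact Finset.sum_congr rfl fun c _ => by ring
  · intro hlw v hv
    have hl : ∀ i < N, ∑ c ∈ range n, (ws.getD c 0 : ℤ) * |dgt b n as i c| ≤ NY :=
      fun i hi => hlw ⟨n, neg, ws, as, as⟩ List.mem_cons_self i hi
    choose ρ h1 h2 using hA
    -- total functions
    set R : ℕ → ℕ → ℝ := fun c i => if h : c < n then ρ c h i else 0 with hR
    have h1' : ∀ c < n, A c v = ∑ i ∈ range N, R c i * v i := by
      intro c hc
      rw [h1 c hc v hv]
      exact Finset.sum_congr rfl fun i _ => by simp only [hR, dif_pos hc]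
    have h2' : ∀ c < n, ∀ i < N, |q * R c i - (dgt b n as i c : ℝ)| ≤ e := by
      intro c hc i hi
      have := h2 c hc i hi
      simp only [hR, dif_pos hc]
      exact this
    have k1 : σ * (∑ c ∈ range n, W c * A c v ^ 2) =
        ∑ i ∈ range N, ∑ j ∈ range N, (∑ c ∈ range n, (sgn neg * (q * q) * (ws.getD c 0 : ℝ)) * (R c i * R c j)) *
          (v i * v j) := by
      rw [bform n N (fun c => sgn neg * (q * q) * (ws.getD c 0 : ℝ)) (fun i c => R c i) (fun i c => R c i) v,
        Finset.mul_sum]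
      refine Finset.sum_congr rfl fun c hc => ?_
      have hc' := Finset.mem_range.1 hc
      rw [h1' c hc', ← hW c hc']
      ring
    have k2 : fm N (itM b [(⟨n, neg, ws, as, as⟩ : It)]) v = ∑ i ∈ range N, ∑ j ∈ range N,
        (∑ c ∈ range n, (sgn neg : ℝ) * ((ws.getD c 0 : ℝ) * ((dgt b n as i c : ℝ) * dgt b n as j c))) * (v i * v j) := by
      unfold fm itM
      refine Finset.sum_congr rfl fun i _ => Finset.sum_congr rfl fun j _ => ?_
      simp only [List.map_cons, List.map_nil, List.sum_cons, List.sum_nil, add_zero]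
      unfold It.M
      push_cast
      rw [Finset.mul_sum]
    show |σ * (∑ c ∈ range n, W c * A c v ^ 2) - fm N (itM b [(⟨n, neg, ws, as, as⟩ : It)]) v| ≤
      ((2 * e * NY + e * e * sumW ws : ℕ) : ℝ) * N * ∑ i ∈ range N, v i ^ 2
    rw [k1, k2, ← Finset.sum_sub_distrib]
    have k3 : (∑ i ∈ range N, ((∑ j ∈ range N, (∑ c ∈ range n, (sgn neg * (q * q) * (ws.getD c 0 : ℝ)) * (R c i * R c j)) *
          (v i * v j)) - ∑ j ∈ range N,
        (∑ c ∈ range n, (sgn neg : ℝ) * ((ws.getD c 0 : ℝ) * ((dgt b n as i c : ℝ) * dgt b n as j c))) * (v i * v j))) =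
        ∑ i ∈ range N, ∑ j ∈ range N, (sgn neg * ∑ c ∈ range n, (ws.getD c 0 : ℝ) * (q * q * (R c i * R c j) -
          (dgt b n as i c : ℝ) * dgt b n as j c)) * (v i * v j) := by
      refine Finset.sum_congr rfl fun i _ => ?_
      rw [← Finset.sum_sub_distrib]
      refine Finset.sum_congr rfl fun j _ => ?_
      rw [← sub_mul, ← Finset.sum_sub_distrib, Finset.mul_sum]
      congr 1
      exact Finset.sum_congr rfl fun c _ => by ring
    rw [k3]
    refine form_le N _ _ (by positivity) (fun i j hi hj => ?_) v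
    rw [abs_mul, sgn_abs, one_mul]
    refine (bil_le n ws hw q q (fun c => R c i) (fun c => R c j) (fun c => dgt b n as i c) (fun c => dgt b n as j c) e
      NY NY (fun c hc => h2' c hc i hi) (fun c hc => h2' c hc j hj) (lw_real b n ws as i NY (hl i hi))
      (lw_real b n ws as j NY (hl j hj))).trans (le_of_eq ?_)
    push_cast
    ring

/-! ## Pairs -/

/-- block of pairs -/
def prG (n : ℕ) (neg : Bool) (ws as cs : List ℕ) (e NY : ℕ) (g : (ℕ → ℝ) → ℝ) : GI2 :=
  ⟨[⟨n, neg, ws, as, cs⟩, ⟨n, neg, ws, cs, as⟩], g,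
    Nat.add (Nat.mul (Nat.mul 4 e) NY) (Nat.mul (Nat.mul 2 (Nat.mul e e)) (sumW ws))⟩

theorem prG_OK {b N NY n : ℕ} {neg : Bool} {ws as cs : List ℕ} {e : ℕ} {σ q1 q2 : ℝ} {A C : ℕ → (ℕ → ℝ) → ℝ}
    {W : ℕ → ℝ} (hw : ws.length = n) (hA : ∀ c < n, LR N q1 (A c) (fun i => dgt b n as i c) e)
    (hC : ∀ c < n, LR N q2 (C c) (fun i => dgt b n cs i c) e)
    (hW : ∀ c < n, σ * W c = sgn neg * (2 * (q1 * q2)) * (ws.getD c 0 : ℝ)) :
    (prG n neg ws as cs e NY fun v => ∑ c ∈ range n, W c * (A c v * C c v)).OKY b N NY σ := by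
  constructor
  · intro i j
    show ([(⟨n, neg, ws, as, cs⟩ : It), ⟨n, neg, ws, cs, as⟩].map fun t => t.M b i j).sum =
      ([(⟨n, neg, ws, as, cs⟩ : It), ⟨n, neg, ws, cs, as⟩].map fun t => t.M b j i).sum
    simp only [List.map_cons, List.map_nil, List.sum_cons, List.sum_nil, add_zero]
    unfold It.M
    rw [add_comm]
    congr 2
    · exact Finset.sum_congr rfl fun c _ => by ring
    · exact Finset.sum_congr rfl fun c _ => by ring
  · intro hlw v hv
    have hlc : ∀ i < N, ∑ c ∈ range n, (ws.getD c 0 : ℤ) * |dgt b n cs i c| ≤ NY :=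
      fun i hi => hlw ⟨n, neg, ws, as, cs⟩ List.mem_cons_self i hi
    have hla : ∀ i < N, ∑ c ∈ range n, (ws.getD c 0 : ℤ) * |dgt b n as i c| ≤ NY :=
      fun i hi => hlw ⟨n, neg, ws, cs, as⟩ (List.mem_cons_of_mem _ List.mem_cons_self) i hi
    choose ρ h1 h2 using hA
    choose τ g1 g2 using hC
    set R : ℕ → ℕ → ℝ := fun c i => if h : c < n then ρ c h i else 0 with hR
    set T : ℕ → ℕ → ℝ := fun c i => if h : c < n then τ c h i else 0 with hT
    have h1' : ∀ c < n, A c v = ∑ i ∈ range N, R c i * v i := by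
      intro c hc
      rw [h1 c hc v hv]
      exact Finset.sum_congr rfl fun i _ => by simp only [hR, dif_pos hc]
    have h2' : ∀ c < n, ∀ i < N, |q1 * R c i - (dgt b n as i c : ℝ)| ≤ e := by
      intro c hc i hi
      have := h2 c hc i hi
      simp only [hR, dif_pos hc]
      exact this
    have g1' : ∀ c < n, C c v = ∑ i ∈ range N, T c i * v i := by
      intro c hc
      rw [g1 c hc v hv]
      exact Finset.sum_congr rfl fun i _ => by simp only [hT, dif_pos hc]
    have g2' : ∀ c < n, ∀ i < N, |q2 * T c i - (dgt b n cs i c : ℝ)| ≤ e := by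
      intro c hc i hi
      have := g2 c hc i hi
      simp only [hT, dif_pos hc]
      exact this
    have k1 : σ * (∑ c ∈ range n, W c * (A c v * C c v)) =
        ∑ i ∈ range N, ∑ j ∈ range N, (∑ c ∈ range n, (sgn neg * (q1 * q2) * (ws.getD c 0 : ℝ)) *
          (R c i * T c j + T c i * R c j)) * (v i * v j) := by
      have b1 := bform n N (fun c => sgn neg * (q1 * q2) * (ws.getD c 0 : ℝ)) (fun i c => R c i) (fun i c => T c i) v
      have b2 := bform n N (fun c => sgn neg * (q1 * q2) * (ws.getD c 0 : ℝ)) (fun i c => T c i) (fun i c => R c i) v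
      have b3 : ∑ i ∈ range N, ∑ j ∈ range N, (∑ c ∈ range n, (sgn neg * (q1 * q2) * (ws.getD c 0 : ℝ)) *
          (R c i * T c j + T c i * R c j)) * (v i * v j) =
          (∑ i ∈ range N, ∑ j ∈ range N, (∑ c ∈ range n, (sgn neg * (q1 * q2) * (ws.getD c 0 : ℝ)) *
          (R c i * T c j)) * (v i * v j)) + ∑ i ∈ range N, ∑ j ∈ range N, (∑ c ∈ range n,
          (sgn neg * (q1 * q2) * (ws.getD c 0 : ℝ)) * (T c i * R c j)) * (v i * v j) := by
        rw [← Finset.sum_add_distrib]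
        refine Finset.sum_congr rfl fun i _ => ?_
        rw [← Finset.sum_add_distrib]
        refine Finset.sum_congr rfl fun j _ => ?_
        rw [← add_mul, ← Finset.sum_add_distrib]
        congr 1
        exact Finset.sum_congr rfl fun c _ => by ring
      rw [b3, b1, b2, ← Finset.sum_add_distrib, Finset.mul_sum]
      refine Finset.sum_congr rfl fun c hc => ?_
      have hc' := Finset.mem_range.1 hc
      have := hW c hc'
      rw [h1' c hc', g1' c hc', ← mul_assoc, this]
      ring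
    have k2 : fm N (itM b [(⟨n, neg, ws, as, cs⟩ : It), ⟨n, neg, ws, cs, as⟩]) v = ∑ i ∈ range N, ∑ j ∈ range N,
        ((sgn neg : ℝ) * ((∑ c ∈ range n, (ws.getD c 0 : ℝ) * ((dgt b n as i c : ℝ) * dgt b n cs j c)) +
        ∑ c ∈ range n, (ws.getD c 0 : ℝ) * ((dgt b n cs i c : ℝ) * dgt b n as j c))) * (v i * v j) := by
      unfold fm itM
      refine Finset.sum_congr rfl fun i _ => Finset.sum_congr rfl fun j _ => ?_
      simp only [List.map_cons, List.map_nil, List.sum_cons, List.sum_nil, add_zero]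
      unfold It.M
      push_cast
      ring
    show |σ * (∑ c ∈ range n, W c * (A c v * C c v)) - fm N (itM b [(⟨n, neg, ws, as, cs⟩ : It), ⟨n, neg, ws, cs, as⟩]) v| ≤
      ((4 * e * NY + 2 * (e * e) * sumW ws : ℕ) : ℝ) * N * ∑ i ∈ range N, v i ^ 2
    rw [k1, k2, ← Finset.sum_sub_distrib]
    have k3 : (∑ i ∈ range N, ((∑ j ∈ range N, (∑ c ∈ range n, (sgn neg * (q1 * q2) * (ws.getD c 0 : ℝ)) *
          (R c i * T c j + T c i * R c j)) * (v i * v j)) - ∑ j ∈ range N,
        ((sgn neg : ℝ) * ((∑ c ∈ range n, (ws.getD c 0 : ℝ) * ((dgt b n as i c : ℝ) * dgt b n cs j c)) +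
        ∑ c ∈ range n, (ws.getD c 0 : ℝ) * ((dgt b n cs i c : ℝ) * dgt b n as j c))) * (v i * v j))) =
        ∑ i ∈ range N, ∑ j ∈ range N, (sgn neg * ((∑ c ∈ range n, (ws.getD c 0 : ℝ) * (q1 * q2 * (R c i * T c j) -
          (dgt b n as i c : ℝ) * dgt b n cs j c)) + ∑ c ∈ range n, (ws.getD c 0 : ℝ) * (q2 * q1 * (T c i * R c j) -
          (dgt b n cs i c : ℝ) * dgt b n as j c))) * (v i * v j) := by
      refine Finset.sum_congr rfl fun i _ => ?_
      rw [← Finset.sum_sub_distrib]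
      refine Finset.sum_congr rfl fun j _ => ?_
      rw [← sub_mul]
      congr 1
      have m1 : ∑ c ∈ range n, (sgn neg * (q1 * q2) * (ws.getD c 0 : ℝ)) * (R c i * T c j + T c i * R c j) =
          sgn neg * ((∑ c ∈ range n, (ws.getD c 0 : ℝ) * (q1 * q2 * (R c i * T c j))) +
            ∑ c ∈ range n, (ws.getD c 0 : ℝ) * (q2 * q1 * (T c i * R c j))) := by
        rw [← Finset.sum_add_distrib, Finset.mul_sum]
        exact Finset.sum_congr rfl fun c _ => by ring
      rw [m1]
      simp only [mul_sub, Finset.sum_sub_distrib]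
      ring
    rw [k3]
    refine form_le N _ _ (by positivity) (fun i j hi hj => ?_) v
    rw [abs_mul, sgn_abs, one_mul]
    have a1 := bil_le n ws hw q1 q2 (fun c => R c i) (fun c => T c j) (fun c => dgt b n as i c) (fun c => dgt b n cs j c)
      e NY NY (fun c hc => h2' c hc i hi) (fun c hc => g2' c hc j hj) (lw_real b n ws as i NY (hla i hi))
      (lw_real b n ws cs j NY (hlc j hj))
    have a2 := bil_le n ws hw q2 q1 (fun c => T c i) (fun c => R c j) (fun c => dgt b n cs i c) (fun c => dgt b n as j c)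
      e NY NY (fun c hc => g2' c hc i hi) (fun c hc => h2' c hc j hj) (lw_real b n ws cs i NY (hlc i hi))
      (lw_real b n ws as j NY (hla j hj))
    refine (abs_add_le _ _).trans ((add_le_add a1 a2).trans (le_of_eq ?_))
    push_cast
    ring

end Helper54.SH.MatF
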