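import Pool.Agent.Helper54.SH.MatL

/-!
# Tools for the rows of the matrix certificate

`flL`: all digits divided by `2 ^ k`; `oneL`: the constant row; `pkL`: one integer row; `catL`: rows of two lists together.
-/

set_option autoImplicit false

open Finset Helper95.SH

namespace Helper54.SH.MatF

open Helper76.RC.TPoly Helper54.RC.Fast

/-! ## Scaling -/

/-- all digits divided by `2 ^ k` (floor); `O = on b n` -/
def flM (b k O : ℕ) : List ℕ → List ℕ
  | [] => []
  | a :: l => fl b k O a :: flM b k O l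

def flL (b k n : ℕ) (as : List ℕ) : List ℕ := flM b k (on b n) as

theorem flM_eq (b k O : ℕ) (l : List ℕ) : flM b k O l = l.map (fl b k O) := by
  induction l with
  | nil => rfl
  | cons a l ih => rw [flM, ih]; rfl

theorem flL_length (b k n : ℕ) (as : List ℕ) : (flL b k n as).length = as.length := by
  unfold flL
  rw [flM_eq, List.length_map]

theorem dgt_flL {b k n : ℕ} (hk : k ≤ b) {as : List ℕ} {i : ℕ} (hi : i < as.length) {c : ℕ} (hc : c < n) :
    dgt b n (flL b k n as) i c = dgt b n as i c / ((2 ^ k : ℕ) : ℤ) := by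
  unfold dgt flL
  rw [flM_eq]
  have e1 : (as.map (fl b k (on b n))).getD i 0 = fl b k (on b n) (as.getD i 0) := by
    rw [List.getD_eq_getElem?_getD, List.getD_eq_getElem?_getD, List.getElem?_map, List.getElem?_eq_getElem hi]
    rfl
  rw [e1, on_eq, (ls_fl b k n _ hk).1]
  have hl : c < (ls b n (as.getD i 0)).length := by rw [length_ls]; exact hc
  generalize ls b n (as.getD i 0) = l at hl
  rw [List.getD_eq_getElem?_getD, List.getD_eq_getElem?_getD, List.getElem?_map, List.getElem?_eq_getElem hl]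
  rfl

/-- the scaled digits represent the functional at the scale `q / 2 ^ k` -/
theorem LR_fl {b k n N : ℕ} (hk : k ≤ b) {as : List ℕ} (hN : as.length = N) {c : ℕ} (hc : c < n) {q e e' : ℝ}
    {A : (ℕ → ℝ) → ℝ} (h : LR N q A (fun i => dgt b n as i c) e) (he : e ≤ 2 ^ k * e') :
    LR N (q / 2 ^ k) A (fun i => dgt b n (flL b k n as) i c) (e' + 1) := by
  obtain ⟨ρ, h1, h2⟩ := h
  refine ⟨ρ, h1, fun i hi => ?_⟩
  have hP : (0 : ℝ) < 2 ^ k := by positivity
  have e1 : dgt b n (flL b k n as) i c = dgt b n as i c / ((2 ^ k : ℕ) : ℤ) := dgt_flL hk (by omega) hc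
  simp only [e1]
  have h3 := Int.emod_add_mul_ediv (dgt b n as i c) ((2 ^ k : ℕ) : ℤ)
  have h4 := Int.emod_nonneg (dgt b n as i c) (b := ((2 ^ k : ℕ) : ℤ)) (by positivity)
  have h5 := Int.emod_lt_of_pos (dgt b n as i c) (b := ((2 ^ k : ℕ) : ℤ)) (by positivity)
  set d := dgt b n as i c with hd
  set m := d % ((2 ^ k : ℕ) : ℤ) with hm
  set Q := d / ((2 ^ k : ℕ) : ℤ) with hQ
  have h6 : (d : ℝ) = m + 2 ^ k * Q := by
    have : (d : ℤ) = m + ((2 ^ k : ℕ) : ℤ) * Q := h3.symm
    rw [this]; push_cast; ring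
  have h7 : (0 : ℝ) ≤ m := by exact_mod_cast h4
  have h8 : (m : ℝ) < 2 ^ k := by exact_mod_cast h5
  have h9 := h2 i hi
  have e2 : q / 2 ^ k * ρ i - (Q : ℝ) = ((q * ρ i - d) + m) / 2 ^ k := by
    rw [h6]; field_simp; ring
  rw [e2, abs_div, abs_of_pos hP, div_le_iff₀ hP]
  calc |q * ρ i - (d : ℝ) + m| ≤ |q * ρ i - (d : ℝ)| + |(m : ℝ)| := abs_add_le _ _
    _ ≤ e + 2 ^ k := by rw [abs_of_nonneg h7]; linarith
    _ ≤ 2 ^ k * e' + 2 ^ k := by linarith
    _ = (e' + 1) * 2 ^ k := by ring

/-! ## Rows with one digit -/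

/-- one integer row: `l` the integers of the coordinates -/
def pkL (b : ℕ) : List ℤ → List ℕ
  | [] => []
  | a :: l => encL b [a] :: pkL b l

def rngL (b : ℕ) : List ℤ → Bool
  | [] => true
  | a :: l => bif rng b [a] then rngL b l else false

theorem pkL_length (b : ℕ) (l : List ℤ) : (pkL b l).length = l.length := by
  induction l with
  | nil => rfl
  | cons a l ih => rw [pkL, List.length_cons, ih, List.length_cons]

theorem dgt_pkL (b : ℕ) (l : List ℤ) (h : rngL b l = true) (i : ℕ) (hi : i < l.length) :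
    dgt b 1 (pkL b l) i 0 = l.getD i 0 := by
  induction l generalizing i with
  | nil => simp at hi
  | cons a l ih =>
    unfold rngL at h
    rw [bif3] at h
    cases i with
    | zero =>
      have k := (encL_sound b [a] h.1).1
      unfold dgt
      rw [pkL, List.getD_cons_zero]
      have e : ([a] : List ℤ).length = 1 := rfl
      rw [e] at k
      rw [k]
      rfl
    | succ i =>
      have := ih h.2 i (by simpa using hi)
      unfold dgt at this ⊢
      rw [pkL, List.getD_cons_succ, List.getD_cons_succ]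
      exact this

/-- an integer row as a packed row -/
theorem LR_pk {b N : ℕ} {l : List ℤ} (h : rngL b l = true) (hN : l.length = N) {q e : ℝ} {A : (ℕ → ℝ) → ℝ} {R : ℕ → ℤ}
    (hA : LR N q A R e) (hR : ∀ i < N, l.getD i 0 = R i) : LR N q A (fun i => dgt b 1 (pkL b l) i 0) e := by
  refine hA.congr (fun v _ => rfl) fun i hi => ?_
  rw [dgt_pkL b l h i (by omega), hR i hi]

/-- the constant row: `q` at the coordinate 0 -/
def oneL (b N q : ℕ) : List ℕ := Nat.add q (Nat.pow 2 b) :: List.replicate (Nat.sub N 1) (Nat.pow 2 b)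

theorem oneL_length (b N q : ℕ) (hN : 0 < N) : (oneL b N q).length = N := by
  show (Nat.add q (Nat.pow 2 b) :: List.replicate (N - 1) (Nat.pow 2 b)).length = N
  rw [List.length_cons, List.length_replicate]
  omega

theorem LR_one {b N q : ℕ} (hN : 0 < N) (hq : q < 2 ^ b) :
    LR N (q : ℝ) (fun _ => 1) (fun i => dgt b 1 (oneL b N q) i 0) 0 := by
  have h := LR.one hN (q : ℤ)
  have e : (((q : ℤ)) : ℝ) = (q : ℝ) := by push_cast; rfl
  rw [e] at h
  refine h.congr (fun v _ => rfl) fun i hi => ?_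
  have hp : 2 ^ (b + 1) = 2 ^ b + 2 ^ b := by rw [pow_succ]; ring
  cases i with
  | zero =>
    rw [if_pos rfl]
    have e1 : (oneL b N q).getD 0 0 = q + 2 ^ b := rfl
    unfold dgt
    rw [e1]
    have e2 : (ls b 1 (q + 2 ^ b)).getD 0 0 = (((q + 2 ^ b) % 2 ^ (b + 1) : ℕ) : ℤ) - ((2 ^ b : ℕ) : ℤ) := rfl
    rw [e2, Nat.mod_eq_of_lt (by omega)]
    push_cast
    ring
  | succ i =>
    rw [if_neg (by omega)]
    have e1 : (oneL b N q).getD (i + 1) 0 = 2 ^ b := by
      show (Nat.add q (Nat.pow 2 b) :: List.replicate (N - 1) (2 ^ b)).getD (i + 1) 0 = 2 ^ b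
      rw [List.getD_cons_succ, List.getD_eq_getElem?_getD, List.getElem?_replicate, if_pos (by omega)]
      rfl
    unfold dgt
    rw [e1]
    have e2 : (ls b 1 (2 ^ b)).getD 0 0 = (((2 ^ b) % 2 ^ (b + 1) : ℕ) : ℤ) - ((2 ^ b : ℕ) : ℤ) := rfl
    rw [e2, Nat.mod_eq_of_lt (by omega)]
    ring

/-- a linear functional with an integer row: the block `W * A v` -/
theorem linG_OK {b N NY : ℕ} (hN : 0 < N) {neg : Bool} {w : ℕ} {as : List ℕ} {e q2 : ℕ} (hq : q2 < 2 ^ b)
    {σ q1 : ℝ} {A : (ℕ → ℝ) → ℝ} {W : ℝ} (hA : LR N q1 A (fun i => dgt b 1 as i 0) e)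
    (hW : σ * W = sgn neg * (2 * (q1 * q2)) * (w : ℝ)) :
    (prG 1 neg [w] as (oneL b N q2) e NY fun v => W * A v).OKY b N NY σ := by
  have h := prG_OK (b := b) (N := N) (NY := NY) (n := 1) (neg := neg) (ws := [w]) (as := as) (cs := oneL b N q2) (e := e)
    (σ := σ) (q1 := q1) (q2 := (q2 : ℝ)) (A := fun _ => A) (C := fun _ _ => 1) (W := fun _ => W) rfl
    (fun c hc => by
      have : c = 0 := by omega
      subst this
      exact hA) (fun c hc => by
      have : c = 0 := by omega
      subst this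
      exact (LR_one hN hq).mono (Nat.cast_nonneg e)) (fun c hc => by
      have : c = 0 := by omega
      subst this
      exact hW)
  have e1 : (fun v : ℕ → ℝ => ∑ c ∈ range 1, W * (A v * 1)) = fun v => W * A v := by
    funext v
    rw [Finset.sum_range_one, mul_one]
  rw [e1] at h
  exact h

end Helper54.SH.MatF
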