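import Pool.Agent.Helper54.SH.MatG

/-!
# The matrix certificate, fast version: weights and reversal of all digits at once
-/

set_option autoImplicit false

open Finset

namespace Helper54.SH.MatF

open Helper76.RC.TPoly Helper54.RC.Fast

/-! ## Weights by bit planes -/

/-- packed weights -/
def pwl (b : ℕ) : List ℕ → ℕ
  | [] => 0
  | w :: ws => Nat.add w (Nat.mul (Nat.pow 2 (Nat.succ b)) (pwl b ws))

/-- masks of the bit planes; `F = 2 ^ (b + 1) - 1`, `S = on b n` -/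
def pls (S F : ℕ) : ℕ → ℕ → List ℕ
  | 0, _ => []
  | k + 1, P => Nat.mul F (Nat.land P S) :: pls S F k (Nat.shiftRight P 1)

/-- the weighted number -/
def wg : List ℕ → ℕ → ℕ
  | [], _ => 0
  | m :: ms, Z => Nat.add (Nat.land Z m) (Nat.mul 2 (wg ms Z))

def bsum (b : ℕ) : ℕ → ℕ → ℕ → ℕ
  | 0, _, _ => 0
  | n + 1, Z, P => (P % 2) * (Z % 2 ^ (b + 1)) + 2 ^ (b + 1) * bsum b n (Z / 2 ^ (b + 1)) (P / 2 ^ (b + 1))

def wsum (b K : ℕ) : ℕ → ℕ → ℕ → ℕ
  | 0, _, _ => 0
  | n + 1, Z, P => (P % 2 ^ K) * (Z % 2 ^ (b + 1)) + 2 ^ (b + 1) * wsum b K n (Z / 2 ^ (b + 1)) (P / 2 ^ (b + 1))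

theorem land_bit (b z p : ℕ) (hz : z < 2 ^ (b + 1)) : z &&& ((2 ^ (b + 1) - 1) * (p % 2)) = (p % 2) * z := by
  rcases Nat.mod_two_eq_zero_or_one p with h | h
  · rw [h]; simp
  · rw [h, mul_one, one_mul, Nat.and_two_pow_sub_one_eq_mod, Nat.mod_eq_of_lt hz]

theorem land_plane (b n Z P : ℕ) :
    Z &&& ((2 ^ (b + 1) - 1) * (P &&& gs (2 ^ (b + 1)) n)) = bsum b n Z P := by
  induction n generalizing Z P with
  | zero => simp [gs, bsum]
  | succ n ih =>
    have hB : 0 < 2 ^ (b + 1) := by positivity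
    have h1 : P &&& gs (2 ^ (b + 1)) (n + 1) = (P % 2) + 2 ^ (b + 1) * (P / 2 ^ (b + 1) &&& gs (2 ^ (b + 1)) n) := by
      have e := land_cons (c := b + 1) (Nat.mod_lt P hB) (Nat.one_lt_two_pow (Nat.succ_ne_zero b)) (P / 2 ^ (b + 1))
        (gs (2 ^ (b + 1)) n)
      rw [Nat.mod_add_div] at e
      have e2 : (P % 2 ^ (b + 1)) &&& 1 = P % 2 := by
        rw [Nat.and_one_is_mod]
        exact Nat.mod_mod_of_dvd P (by rw [pow_succ]; exact Dvd.intro_left _ rfl)
      rw [e2] at e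
      exact e
    have h2 : (2 ^ (b + 1) - 1) * (P % 2) < 2 ^ (b + 1) := by
      have h3 : (2 ^ (b + 1) - 1) * (P % 2) ≤ (2 ^ (b + 1) - 1) * 1 := Nat.mul_le_mul_left _ (by omega)
      have h4 := Nat.sub_lt hB (Nat.one_pos)
      omega
    have h5 := land_cons (c := b + 1) (Nat.mod_lt Z hB) h2 (Z / 2 ^ (b + 1))
      ((2 ^ (b + 1) - 1) * (P / 2 ^ (b + 1) &&& gs (2 ^ (b + 1)) n))
    rw [Nat.mod_add_div, land_bit b _ P (Nat.mod_lt Z hB), ih] at h5
    rw [h1, bsum, ← h5]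
    congr 1
    ring

theorem bsum_wsum (b K n Z P : ℕ) : bsum b n Z P + 2 * wsum b K n Z (P / 2) = wsum b (K + 1) n Z P := by
  induction n generalizing Z P with
  | zero => simp [bsum, wsum]
  | succ n ih =>
    have h := ih (Z / 2 ^ (b + 1)) (P / 2 ^ (b + 1))
    have e1 : P / 2 / 2 ^ (b + 1) = P / 2 ^ (b + 1) / 2 := by
      rw [Nat.div_div_eq_div_mul, Nat.div_div_eq_div_mul, mul_comm]
    have e2 : P % 2 ^ (K + 1) = P % 2 + 2 * (P / 2 % 2 ^ K) := by
      rw [pow_succ, mul_comm (2 ^ K) 2, Nat.mod_mul]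
    rw [bsum, wsum, wsum, ← h, e1, e2]
    ring

theorem wsum_zero (b n Z P : ℕ) : wsum b 0 n Z P = 0 := by
  induction n generalizing Z P with
  | zero => rfl
  | succ n ih => rw [wsum, ih]; simp [Nat.mod_one]

theorem wg_eq (b n K P Z : ℕ) : wg (pls (on b n) (2 ^ (b + 1) - 1) K P) Z = wsum b K n Z P := by
  induction K generalizing P with
  | zero => rw [wsum_zero]; rfl
  | succ K ih =>
    have e : wg (pls (on b n) (2 ^ (b + 1) - 1) (K + 1) P) Z =
      (Z &&& ((2 ^ (b + 1) - 1) * (P &&& on b n))) + 2 * wg (pls (on b n) (2 ^ (b + 1) - 1) K (P >>> 1)) Z := rfl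
    rw [e, ih, on_eq, land_plane, Nat.shiftRight_one, bsum_wsum]

theorem wsum_pwl (b K : ℕ) (hK : K ≤ b + 1) (ws : List ℕ) (hw : ∀ w ∈ ws, w < 2 ^ K) (n Z : ℕ) (hn : ws.length = n) :
    (wsum b K n Z (pwl b ws) : ℤ) = evz ((2 ^ (b + 1) : ℕ) : ℤ) (wl ws (ls b n Z)) + (2 ^ b : ℕ) * (pwl b ws : ℕ) := by
  induction ws generalizing n Z with
  | nil =>
    simp only [List.length_nil] at hn
    subst hn
    simp [wsum, pwl, wl, evz]
  | cons w ws ih =>
    simp only [List.length_cons] at hn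
    subst hn
    have h1 : w < 2 ^ K := hw w List.mem_cons_self
    have h2 : w < 2 ^ (b + 1) := lt_of_lt_of_le h1 (Nat.pow_le_pow_right (by norm_num) hK)
    have e1 : pwl b (w :: ws) = w + 2 ^ (b + 1) * pwl b ws := rfl
    have e2 : pwl b (w :: ws) % 2 ^ K = w := by
      have : 2 ^ (b + 1) * pwl b ws = 2 ^ K * (2 ^ (b + 1 - K) * pwl b ws) := by
        rw [← mul_assoc, ← pow_add]
        congr 2
        omega
      rw [e1, this, Nat.add_mul_mod_self_left, Nat.mod_eq_of_lt h1]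
    have e3 : pwl b (w :: ws) / 2 ^ (b + 1) = pwl b ws := by
      rw [e1, Nat.add_mul_div_left _ _ (by positivity), Nat.div_eq_of_lt h2, zero_add]
    have e4 : ls b (ws.length + 1) Z = (((Z % 2 ^ (b + 1) : ℕ) : ℤ) - ((2 ^ b : ℕ) : ℤ)) ::
      ls b ws.length (Z / 2 ^ (b + 1)) := rfl
    rw [wsum, e2, e3, e4]
    rw [Nat.cast_add, Nat.cast_mul, Nat.cast_mul, ih (fun u hu => hw u (List.mem_cons_of_mem _ hu)) _ _ rfl, e1]
    simp only [wl, evz]
    push_cast
    ring

/-! ## Reversal of the digits by swapping -/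

/-- mask of the even groups of `g` digits, `m` pairs of groups -/
def mkR (b g m : ℕ) : ℕ := (2 ^ ((b + 1) * g) - 1) * gs (2 ^ ((b + 1) * (2 * g))) m

/-- swap neighbouring groups; `s = (b + 1) g` -/
def swp (s M X : ℕ) : ℕ := Nat.add (Nat.land (Nat.shiftRight X s) M) (Nat.mul (Nat.land X M) (Nat.pow 2 s))

/-- swap neighbouring groups of `g` elements of a list -/
def swl (g : ℕ) : ℕ → List ℤ → List ℤ
  | 0, _ => []
  | m + 1, l => (l.drop g).take g ++ (l.take g ++ swl g m (l.drop (2 * g)))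

/-- reverse all chunks -/
def rc (g : ℕ) : ℕ → List ℤ → List ℤ
  | 0, _ => []
  | m + 1, l => (l.take g).reverse ++ rc g m (l.drop g)

theorem swp_succ (s g M X : ℕ) (hs : s = g) :
    swp s ((2 ^ g - 1) + 2 ^ (2 * g) * M) X =
      (X / 2 ^ g % 2 ^ g + 2 ^ g * (X % 2 ^ g)) + 2 ^ (2 * g) * swp s M (X / 2 ^ (2 * g)) := by
  subst hs
  have hp : 0 < 2 ^ s := by positivity
  have hp2 : 0 < 2 ^ (2 * s) := by positivity
  have hle : 2 ^ s ≤ 2 ^ (2 * s) := Nat.pow_le_pow_right (by norm_num) (by omega)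
  have h1 : 2 ^ s - 1 < 2 ^ (2 * s) := by omega
  have e0 : swp s ((2 ^ s - 1) + 2 ^ (2 * s) * M) X =
    ((X >>> s) &&& ((2 ^ s - 1) + 2 ^ (2 * s) * M)) + (X &&& ((2 ^ s - 1) + 2 ^ (2 * s) * M)) * 2 ^ s := rfl
  have e1 : swp s M (X / 2 ^ (2 * s)) =
    ((X / 2 ^ (2 * s)) >>> s &&& M) + (X / 2 ^ (2 * s) &&& M) * 2 ^ s := rfl
  have a1 := land_cons (c := 2 * s) (Nat.mod_lt (X >>> s) hp2) h1 ((X >>> s) / 2 ^ (2 * s)) M
  have a2 := land_cons (c := 2 * s) (Nat.mod_lt X hp2) h1 (X / 2 ^ (2 * s)) M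
  rw [Nat.mod_add_div] at a1 a2
  have pp : 2 ^ (2 * s) = 2 ^ s * 2 ^ s := by rw [← pow_add]; congr 1; ring
  have b1 : ((X >>> s) % 2 ^ (2 * s)) &&& (2 ^ s - 1) = X / 2 ^ s % 2 ^ s := by
    rw [Nat.and_two_pow_sub_one_eq_mod, Nat.shiftRight_eq_div_pow, pp, Nat.mod_mul_left_mod]
  have b2 : (X % 2 ^ (2 * s)) &&& (2 ^ s - 1) = X % 2 ^ s := by
    rw [Nat.and_two_pow_sub_one_eq_mod, pp, Nat.mod_mul_left_mod]
  have b3 : (X >>> s) / 2 ^ (2 * s) = (X / 2 ^ (2 * s)) >>> s := by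
    rw [Nat.shiftRight_eq_div_pow, Nat.shiftRight_eq_div_pow, Nat.div_div_eq_div_mul, Nat.div_div_eq_div_mul, mul_comm]
  rw [b1, b3] at a1
  rw [b2] at a2
  rw [e0, e1, a1, a2]
  ring

theorem ls_two (b g m X : ℕ) : ls b (2 * g * (m + 1)) X =
    ls b g X ++ (ls b g (X / 2 ^ ((b + 1) * g)) ++ ls b (2 * g * m) (X / 2 ^ ((b + 1) * (2 * g)))) := by
  have e1 : 2 * g * (m + 1) = g + (g + 2 * g * m) := by ring
  rw [e1, ls_append, ls_append, ← pow_mul]
  have e2 : X / 2 ^ ((b + 1) * g) / 2 ^ ((b + 1) * g) = X / 2 ^ ((b + 1) * (2 * g)) := by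
    rw [Nat.div_div_eq_div_mul, ← pow_add]
    congr 2
    ring
  rw [e2]

theorem take_ls (b g X : ℕ) (l : List ℤ) : (ls b g X ++ l).take g = ls b g X := by
  rw [List.take_append_of_le_length (by rw [length_ls]), List.take_of_length_le (by rw [length_ls])]

theorem drop_ls (b g X : ℕ) (l : List ℤ) : (ls b g X ++ l).drop g = l := by
  have := List.drop_left (l₁ := ls b g X) (l₂ := l)
  rwa [length_ls] at this

theorem ls_cat' (b n m A C : ℕ) (hA : A < 2 ^ ((b + 1) * n)) :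
    ls b (n + m) (A + 2 ^ ((b + 1) * n) * C) = ls b n A ++ ls b m C := by
  rw [pow_mul] at hA ⊢
  exact ls_cat b n m A C hA

/-- swapping groups of digits -/
theorem ls_swp (b g m X : ℕ) :
    ls b (2 * g * m) (swp ((b + 1) * g) (mkR b g m) X) = swl g m (ls b (2 * g * m) X) := by
  induction m generalizing X with
  | zero => simp [swl, lst]
  | succ m ih =>
    have hp : 0 < 2 ^ ((b + 1) * g) := by positivity
    have e1 : mkR b g (m + 1) = (2 ^ ((b + 1) * g) - 1) + 2 ^ (2 * ((b + 1) * g)) * mkR b g m := by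
      unfold mkR
      rw [gs]
      have : (b + 1) * (2 * g) = 2 * ((b + 1) * g) := by ring
      rw [this]
      ring
    rw [e1, swp_succ _ _ _ _ rfl]
    have e2 : 2 * ((b + 1) * g) = (b + 1) * (2 * g) := by ring
    rw [e2]
    have h1 : X / 2 ^ ((b + 1) * g) % 2 ^ ((b + 1) * g) + 2 ^ ((b + 1) * g) * (X % 2 ^ ((b + 1) * g)) <
        2 ^ ((b + 1) * (2 * g)) := by
      have a1 : X / 2 ^ ((b + 1) * g) % 2 ^ ((b + 1) * g) < 2 ^ ((b + 1) * g) := Nat.mod_lt _ hp
      have a2 : X % 2 ^ ((b + 1) * g) < 2 ^ ((b + 1) * g) := Nat.mod_lt _ hp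
      have a3 : 2 ^ ((b + 1) * (2 * g)) = 2 ^ ((b + 1) * g) * 2 ^ ((b + 1) * g) := by
        rw [← pow_add]; congr 1; ring
      rw [a3]
      calc X / 2 ^ ((b + 1) * g) % 2 ^ ((b + 1) * g) + 2 ^ ((b + 1) * g) * (X % 2 ^ ((b + 1) * g))
          < 2 ^ ((b + 1) * g) + 2 ^ ((b + 1) * g) * (X % 2 ^ ((b + 1) * g)) := by omega
        _ = 2 ^ ((b + 1) * g) * (X % 2 ^ ((b + 1) * g) + 1) := by ring
        _ ≤ 2 ^ ((b + 1) * g) * 2 ^ ((b + 1) * g) := Nat.mul_le_mul_left _ a2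
    have e3 : 2 * g * (m + 1) = 2 * g + 2 * g * m := by ring
    rw [e3, ls_cat' b (2 * g) (2 * g * m) _ _ h1, ih]
    have e4 : 2 * g = g + g := by ring
    have h2 : ls b (2 * g) (X / 2 ^ ((b + 1) * g) % 2 ^ ((b + 1) * g) + 2 ^ ((b + 1) * g) * (X % 2 ^ ((b + 1) * g))) =
        ls b g (X / 2 ^ ((b + 1) * g)) ++ ls b g X := by
      rw [e4, ls_cat' b g g _ _ (Nat.mod_lt _ hp)]
      have a1 : ∀ Y, ls b g (Y % 2 ^ ((b + 1) * g)) = ls b g Y := by
        intro Y
        rw [pow_mul]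
        exact ls_mod b g g Y le_rfl
      rw [a1, a1]
    rw [h2, ← e3, ls_two b g m X, swl, take_ls b g, drop_ls, take_ls b g]
    have e5 : (2 * g) = g + g := by ring
    have e6 : ∀ l : List ℤ, (ls b g X ++ (ls b g (X / 2 ^ ((b + 1) * g)) ++ l)).drop (2 * g) = l := by
      intro l
      rw [e5, ← List.drop_drop, drop_ls, drop_ls]
    rw [e6, List.append_assoc]

/-- chunks of a list of digits -/
theorem rc_ls (b g m X : ℕ) : rc g (m + 1) (ls b (g * (m + 1)) X) =
    (ls b g X).reverse ++ rc g m (ls b (g * m) (X / 2 ^ ((b + 1) * g))) := by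
  have e1 : g * (m + 1) = g + g * m := by ring
  rw [e1, ls_append, rc, take_ls b g, drop_ls, ← pow_mul]

theorem length_rc (g m : ℕ) (l : List ℤ) (hl : l.length = g * m) : (rc g m l).length = g * m := by
  induction m generalizing l with
  | zero => simp [rc]
  | succ m ih =>
    have h1 : (l.drop g).length = g * m := by
      rw [List.length_drop, hl]
      have : g * (m + 1) = g * m + g := by ring
      omega
    rw [rc, List.length_append, List.length_reverse, List.length_take, ih _ h1, hl]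
    have : g * (m + 1) = g * m + g := by ring
    omega

/-- swapping reversed chunks reverses the double chunks -/
theorem swl_rc (g m : ℕ) (l : List ℤ) (hl : l.length = 2 * g * m) : swl g m (rc g (2 * m) l) = rc (2 * g) m l := by
  induction m generalizing l with
  | zero => simp [swl, rc]
  | succ m ih =>
    have e1 : 2 * (m + 1) = (2 * m + 1) + 1 := by ring
    have e2 : 2 * g * (m + 1) = 2 * g * m + g + g := by ring
    have h1 : (l.take g).reverse.length = g := by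
      rw [List.length_reverse, List.length_take, hl, e2]; omega
    have h2 : ((l.drop g).take g).reverse.length = g := by
      rw [List.length_reverse, List.length_take, List.length_drop, hl, e2]; omega
    have t1 : ∀ (a c : List ℤ), a.length = g → (a ++ c).take g = a := by
      intro a c h
      rw [List.take_append_of_le_length (by omega), List.take_of_length_le (by omega)]
    have t2 : ∀ (a c : List ℤ), a.length = g → (a ++ c).drop g = c := by
      intro a c h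
      have := List.drop_left (l₁ := a) (l₂ := c)
      rwa [h] at this
    rw [e1, rc, rc, swl, t1 _ _ h1, t2 _ _ h1, t1 _ _ h2]
    have t3 : ((l.take g).reverse ++ (((l.drop g).take g).reverse ++ rc g (2 * m) ((l.drop g).drop g))).drop (2 * g) =
        rc g (2 * m) ((l.drop g).drop g) := by
      have : 2 * g = g + g := by ring
      rw [this, ← List.drop_drop, t2 _ _ h1, t2 _ _ h2]
    rw [t3, List.drop_drop]
    have e3 : g + g = 2 * g := by ring
    rw [e3, ih _ (by rw [List.length_drop, hl, e2]; omega), rc]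
    have e4 : l.take (2 * g) = l.take g ++ (l.drop g).take g := by
      have : 2 * g = g + g := by ring
      rw [this, List.take_add]
    rw [e4, List.reverse_append, List.append_assoc]

/-- masks of all levels: `(shift, mask)`; `g` the group, `m` the number of pairs of groups -/
structure RM where
  s : ℕ
  M : ℕ

def lev (b : ℕ) : ℕ → ℕ → List RM
  | 0, _ => []
  | k + 1, g => ⟨Nat.mul (Nat.succ b) g, Nat.mul (Nat.sub (Nat.pow 2 (Nat.mul (Nat.succ b) g)) 1)
      (Nat.div (Nat.sub (Nat.pow 2 (Nat.mul (Nat.mul (Nat.succ b) (Nat.mul 2 g)) (Nat.pow 2 k))) 1)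
        (Nat.sub (Nat.pow 2 (Nat.mul (Nat.succ b) (Nat.mul 2 g))) 1))⟩ :: lev b k (Nat.mul 2 g)

/-- all levels -/
def rvS : List RM → ℕ → ℕ
  | [], X => X
  | r :: l, X => rvS l (swp r.s r.M X)

theorem mkR_eq (b g m : ℕ) (hg : 1 ≤ g) : mkR b g m = (2 ^ ((b + 1) * g) - 1) *
    ((2 ^ (((b + 1) * (2 * g)) * m) - 1) / (2 ^ ((b + 1) * (2 * g)) - 1)) := by
  unfold mkR
  have h1 : 1 ≤ 2 ^ ((b + 1) * (2 * g)) := Nat.one_le_two_pow
  have h2 : 0 < 2 ^ ((b + 1) * (2 * g)) - 1 := by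
    have : 2 ≤ 2 ^ ((b + 1) * (2 * g)) := by
      calc 2 = 2 ^ 1 := rfl
        _ ≤ 2 ^ ((b + 1) * (2 * g)) := Nat.pow_le_pow_right (by norm_num) (by nlinarith)
    omega
  have e : 2 ^ (((b + 1) * (2 * g)) * m) = (2 ^ ((b + 1) * (2 * g))) ^ m := pow_mul _ _ _
  rw [e]
  generalize 2 ^ ((b + 1) * (2 * g)) = Q at h1 h2
  rw [← gs_mul Q m h1, Nat.mul_div_cancel_left _ h2]

theorem rc_one (l : List ℤ) (m : ℕ) (hl : l.length = m) : rc 1 m l = l := by
  induction m generalizing l with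
  | zero =>
    have : l = [] := List.length_eq_zero_iff.1 hl
    rw [this]; rfl
  | succ m ih =>
    cases l with
    | nil => simp at hl
    | cons a l =>
      have h := ih l (by simpa using hl)
      simp only [rc, List.take_succ_cons, List.take_zero, List.reverse_cons, List.reverse_nil, List.nil_append,
        List.drop_succ_cons, List.drop_zero, h]
      rfl

theorem rvS_gen (b : ℕ) : ∀ (k g : ℕ), 1 ≤ g → ∀ (X : ℕ) (L : List ℤ), L.length = g * 2 ^ k →
    ls b (g * 2 ^ k) X = rc g (2 ^ k) L → ls b (g * 2 ^ k) (rvS (lev b k g) X) = L.reverse := by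
  intro k
  induction k with
  | zero =>
    intro g _ X L hL h
    rw [pow_zero, mul_one] at hL h ⊢
    show ls b g X = L.reverse
    rw [h]
    simp only [rc, List.append_nil]
    rw [List.take_of_length_le (by omega)]
  | succ k ih =>
    intro g hg X L hL h
    have e1 : g * 2 ^ (k + 1) = 2 * g * 2 ^ k := by rw [pow_succ]; ring
    have e0 : rvS (lev b (k + 1) g) X = rvS (lev b k (2 * g)) (swp ((b + 1) * g)
      ((2 ^ ((b + 1) * g) - 1) * ((2 ^ (((b + 1) * (2 * g)) * 2 ^ k) - 1) / (2 ^ ((b + 1) * (2 * g)) - 1))) X) := rfl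
    rw [e0, ← mkR_eq b g (2 ^ k) hg, e1]
    refine ih (2 * g) (by omega) _ L (by rw [hL, e1]) ?_
    rw [ls_swp, ← e1, h]
    have e2 : 2 ^ (k + 1) = 2 * 2 ^ k := by rw [pow_succ]; ring
    rw [e2]
    exact swl_rc g (2 ^ k) L (by rw [hL, e1])

/-- REVERSAL of `2 ^ k` digits -/
theorem ls_rvS (b k X : ℕ) : ls b (2 ^ k) (rvS (lev b k 1) X) = (ls b (2 ^ k) X).reverse := by
  have h := rvS_gen b k 1 le_rfl X (ls b (2 ^ k) X) (by rw [length_ls, one_mul]) (by
    rw [one_mul, rc_one _ _ (length_ls b _ X)])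
  rwa [one_mul] at h

end Helper54.SH.MatF
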