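import Pool.Agent.Helper54.SH.MatS1

/-!
# The matrix certificate, fast version: items, coordinate vectors, the check of the entries

Common base `2 ^ (b + 1)`. An item is `± ∑_c w_c x_c(i) z_c(j)` with packed numbers `x(i)`, `z(i)` for every coordinate.
All items are concatenated; the entry `(i, j)` costs one product of natural numbers.
-/

set_option autoImplicit false

open Finset

namespace Helper54.SH.MatF

open Helper76.RC.TPoly Helper54.RC.Fast

/-! ## Items -/

/-- `± ∑_{c < n} w_c x_c(i) z_c(j)` -/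
structure It where
  n : ℕ
  neg : Bool
  ws : List ℕ
  xs : List ℕ
  zs : List ℕ

/-- its matrix -/
def It.M (b : ℕ) (t : It) (i j : ℕ) : ℤ :=
  sgn t.neg * ∑ c ∈ range t.n, (t.ws.getD c 0 : ℤ) * (dgt b t.n t.xs i c * dgt b t.n t.zs j c)

/-- all numbers of the list are less than `C` -/
def ltAll (C : ℕ) : List ℕ → Bool
  | [] => true
  | a :: l => bif Nat.ble (Nat.succ a) C then ltAll C l else false

theorem ltAll_getD (C : ℕ) (hC : 0 < C) (l : List ℕ) (h : ltAll C l = true) (i : ℕ) : l.getD i 0 < C := by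
  induction l generalizing i with
  | nil => simpa using hC
  | cons a l ih =>
    unfold ltAll at h
    rw [bif3] at h
    cases i with
    | zero => simpa using (Nat.le_of_ble_eq_true h.1 : a + 1 ≤ C)
    | succ i => simpa using ih h.2 i

/-- shape of an item: lengths, digits, weights less than `2 ^ K` -/
def It.ok (b N K : ℕ) (t : It) : Bool :=
  bif Nat.beq t.ws.length t.n then bif Nat.beq t.xs.length N then bif Nat.beq t.zs.length N then
    bif ltAll (Nat.pow 2 K) t.ws then bif ltAll (Nat.pow (Nat.pow 2 (Nat.succ b)) t.n) t.xs then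
      ltAll (Nat.pow (Nat.pow 2 (Nat.succ b)) t.n) t.zs else false else false else false else false else false

structure It.OK (b N K : ℕ) (t : It) : Prop where
  lw : t.ws.length = t.n
  lx : t.xs.length = N
  lz : t.zs.length = N
  w : ∀ c, t.ws.getD c 0 < 2 ^ K
  x : ∀ i, t.xs.getD i 0 < (2 ^ (b + 1)) ^ t.n
  z : ∀ i, t.zs.getD i 0 < (2 ^ (b + 1)) ^ t.n

theorem It.ok_iff {b N K : ℕ} {t : It} (h : t.ok b N K = true) : t.OK b N K := by
  unfold It.ok at h
  simp only [bif3] at h
  obtain ⟨h1, h2, h3, h4, h5, h6⟩ := h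
  exact ⟨Nat.eq_of_beq_eq_true h1, Nat.eq_of_beq_eq_true h2, Nat.eq_of_beq_eq_true h3,
    ltAll_getD _ (by positivity) _ h4, ltAll_getD _ (by positivity) _ h5, ltAll_getD _ (by positivity) _ h6⟩

def okIts (b N K : ℕ) : List It → Bool
  | [] => true
  | t :: l => bif t.ok b N K then okIts b N K l else false

theorem okIts_mem (b N K : ℕ) (l : List It) (h : okIts b N K l = true) : ∀ t ∈ l, t.OK b N K := by
  induction l with
  | nil => intro t ht; simp at ht
  | cons a l ih =>
    unfold okIts at h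
    rw [bif3] at h
    intro t ht
    rcases List.mem_cons.1 ht with h2 | h2
    · rw [h2]; exact It.ok_iff h.1
    · exact ih h.2 t h2

/-! ## Concatenation -/

/-- total number of digits -/
def ntot : List It → ℕ
  | [] => 0
  | t :: l => Nat.add t.n (ntot l)

/-- weights of the positive items -/
def wpos : List It → List ℕ
  | [] => []
  | t :: l => (bif t.neg then List.replicate t.n 0 else t.ws) ++ wpos l

/-- weights of the negative items -/
def wneg : List It → List ℕ
  | [] => []
  | t :: l => (bif t.neg then t.ws else List.replicate t.n 0) ++ wneg l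

def zcN (C : ℕ) : List ℕ → List ℕ → List ℕ
  | a :: l, r :: rs => Nat.add a (Nat.mul C r) :: zcN C l rs
  | _, _ => []

/-- concatenated numbers of all coordinates -/
def catX (b N : ℕ) : List It → List ℕ
  | [] => List.replicate N 0
  | t :: l => zcN (Nat.pow (Nat.pow 2 (Nat.succ b)) t.n) t.xs (catX b N l)

def catZ (b N : ℕ) : List It → List ℕ
  | [] => List.replicate N 0
  | t :: l => zcN (Nat.pow (Nat.pow 2 (Nat.succ b)) t.n) t.zs (catZ b N l)

theorem zcN_length (C : ℕ) (l rs : List ℕ) (h : l.length = rs.length) : (zcN C l rs).length = l.length := by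
  induction l generalizing rs with
  | nil => cases rs <;> simp [zcN]
  | cons a l ih =>
    cases rs with
    | nil => simp at h
    | cons r rs => simp [zcN, ih rs (by simpa using h)]

theorem zcN_getD (C : ℕ) (l rs : List ℕ) (h : l.length = rs.length) (i : ℕ) :
    (zcN C l rs).getD i 0 = l.getD i 0 + C * rs.getD i 0 := by
  induction l generalizing rs i with
  | nil =>
    cases rs with
    | nil => simp [zcN]
    | cons r rs => simp at h
  | cons a l ih =>
    cases rs with
    | nil => simp at h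
    | cons r rs =>
      cases i with
      | zero => simp [zcN]
      | succ i => simpa [zcN] using ih rs (by simpa using h) i

theorem catX_length (b N K : ℕ) (l : List It) (h : ∀ t ∈ l, t.OK b N K) : (catX b N l).length = N := by
  induction l with
  | nil => simp [catX]
  | cons t l ih =>
    have h1 := h t List.mem_cons_self
    have h2 := ih fun u hu => h u (List.mem_cons_of_mem _ hu)
    rw [catX, zcN_length _ _ _ (h1.lx.trans h2.symm), h1.lx]

theorem catZ_length (b N K : ℕ) (l : List It) (h : ∀ t ∈ l, t.OK b N K) : (catZ b N l).length = N := by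
  induction l with
  | nil => simp [catZ]
  | cons t l ih =>
    have h1 := h t List.mem_cons_self
    have h2 := ih fun u hu => h u (List.mem_cons_of_mem _ hu)
    rw [catZ, zcN_length _ _ _ (h1.lz.trans h2.symm), h1.lz]

/-- digits of the concatenation -/
def lX (b : ℕ) : List It → ℕ → List ℤ
  | [], _ => []
  | t :: l, i => ls b t.n (t.xs.getD i 0) ++ lX b l i

def lZ (b : ℕ) : List It → ℕ → List ℤ
  | [], _ => []
  | t :: l, i => ls b t.n (t.zs.getD i 0) ++ lZ b l i

theorem ls_catX (b N K : ℕ) (l : List It) (h : ∀ t ∈ l, t.OK b N K) (i : ℕ) :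
    ls b (ntot l) ((catX b N l).getD i 0) = lX b l i ∧ (catX b N l).getD i 0 < (2 ^ (b + 1)) ^ (ntot l) := by
  induction l with
  | nil =>
    have e : (catX b N []).getD i 0 = 0 := by
      by_cases hi : i < N
      · simp [catX, List.getD_eq_getElem?_getD, hi]
      · simp [catX, List.getD_eq_getElem?_getD, hi]
    exact ⟨rfl, by rw [e]; simp [ntot]⟩
  | cons t l ih =>
    have h1 := h t List.mem_cons_self
    have h2 := fun u hu => h u (List.mem_cons_of_mem t hu)
    obtain ⟨i1, i2⟩ := ih h2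
    have e : (catX b N (t :: l)).getD i 0 = catN b t.n (t.xs.getD i 0) ((catX b N l).getD i 0) := by
      rw [catX, zcN_getD _ _ _ (h1.lx.trans (catX_length b N K l h2).symm)]
      rfl
    rw [e]
    constructor
    · show ls b (t.n + ntot l) _ = _
      rw [ls_cat b t.n (ntot l) _ _ (h1.x i), i1]
      rfl
    · show catN b t.n (t.xs.getD i 0) ((catX b N l).getD i 0) < (2 ^ (b + 1)) ^ (t.n + ntot l)
      have e3 : catN b t.n (t.xs.getD i 0) ((catX b N l).getD i 0) =
        t.xs.getD i 0 + (2 ^ (b + 1)) ^ t.n * (catX b N l).getD i 0 := rfl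
      rw [e3, pow_add _ t.n (ntot l)]
      have h3 := h1.x i
      calc t.xs.getD i 0 + (2 ^ (b + 1)) ^ t.n * (catX b N l).getD i 0
          < (2 ^ (b + 1)) ^ t.n + (2 ^ (b + 1)) ^ t.n * (catX b N l).getD i 0 := by omega
        _ = (2 ^ (b + 1)) ^ t.n * ((catX b N l).getD i 0 + 1) := by ring
        _ ≤ _ := Nat.mul_le_mul_left _ i2

theorem ls_catZ (b N K : ℕ) (l : List It) (h : ∀ t ∈ l, t.OK b N K) (i : ℕ) :
    ls b (ntot l) ((catZ b N l).getD i 0) = lZ b l i ∧ (catZ b N l).getD i 0 < (2 ^ (b + 1)) ^ (ntot l) := by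
  induction l with
  | nil =>
    have e : (catZ b N []).getD i 0 = 0 := by
      by_cases hi : i < N
      · simp [catZ, List.getD_eq_getElem?_getD, hi]
      · simp [catZ, List.getD_eq_getElem?_getD, hi]
    exact ⟨rfl, by rw [e]; simp [ntot]⟩
  | cons t l ih =>
    have h1 := h t List.mem_cons_self
    have h2 := fun u hu => h u (List.mem_cons_of_mem t hu)
    obtain ⟨i1, i2⟩ := ih h2
    have e : (catZ b N (t :: l)).getD i 0 = catN b t.n (t.zs.getD i 0) ((catZ b N l).getD i 0) := by
      rw [catZ, zcN_getD _ _ _ (h1.lz.trans (catZ_length b N K l h2).symm)]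
      rfl
    rw [e]
    constructor
    · show ls b (t.n + ntot l) _ = _
      rw [ls_cat b t.n (ntot l) _ _ (h1.z i), i1]
      rfl
    · show catN b t.n (t.zs.getD i 0) ((catZ b N l).getD i 0) < (2 ^ (b + 1)) ^ (t.n + ntot l)
      have e3 : catN b t.n (t.zs.getD i 0) ((catZ b N l).getD i 0) =
        t.zs.getD i 0 + (2 ^ (b + 1)) ^ t.n * (catZ b N l).getD i 0 := rfl
      rw [e3, pow_add _ t.n (ntot l)]
      have h3 := h1.z i
      calc t.zs.getD i 0 + (2 ^ (b + 1)) ^ t.n * (catZ b N l).getD i 0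
          < (2 ^ (b + 1)) ^ t.n + (2 ^ (b + 1)) ^ t.n * (catZ b N l).getD i 0 := by omega
        _ = (2 ^ (b + 1)) ^ t.n * ((catZ b N l).getD i 0 + 1) := by ring
        _ ≤ _ := Nat.mul_le_mul_left _ i2

/-! ## Weighted reversed vectors -/

/-- signed weights -/
def wz : List ℕ → List ℕ → List ℤ → List ℤ
  | p :: ps, m :: ms, a :: l => ((p : ℤ) - m) * a :: wz ps ms l
  | _, _, _ => []

theorem wz_sub (ps ms : List ℕ) (l : List ℤ) (n : ℕ) (hp : ps.length = n) (hm : ms.length = n) (hl : l.length = n)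
    (B : ℤ) : evz B (wz ps ms l) = evz B (wl ps l) - evz B (wl ms l) := by
  induction ps generalizing ms l n with
  | nil =>
    simp only [List.length_nil] at hp
    subst hp
    have h1 : ms = [] := List.length_eq_zero_iff.1 hm
    subst h1
    simp [wz, wl, evz]
  | cons p ps ih =>
    cases ms with
    | nil => simp only [List.length_nil] at hm; subst hm; simp at hp
    | cons m ms =>
      cases l with
      | nil => simp only [List.length_nil] at hl; subst hl; simp at hp
      | cons a l =>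
        simp only [List.length_cons] at hp hm hl
        simp only [wz, wl, evz]
        rw [ih ms l ps.length rfl (by omega) (by omega)]
        ring

theorem wz_length (ps ms : List ℕ) (l : List ℤ) (n : ℕ) (hp : ps.length = n) (hm : ms.length = n) (hl : l.length = n) :
    (wz ps ms l).length = n := by
  induction ps generalizing ms l n with
  | nil => simp only [List.length_nil] at hp; subst hp; simp [wz]
  | cons p ps ih =>
    cases ms with
    | nil => simp only [List.length_nil] at hm; subst hm; simp at hp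
    | cons m ms =>
      cases l with
      | nil => simp only [List.length_nil] at hl; subst hl; simp at hp
      | cons a l =>
        simp only [List.length_cons] at hp hm hl
        simp only [wz, List.length_cons]
        rw [ih ms l ps.length rfl (by omega) (by omega)]
        exact hp

theorem wz_l1 (ps ms : List ℕ) (l : List ℤ) (W : ℕ) (hp : ∀ p ∈ ps, p ≤ W) (hm : ∀ m ∈ ms, m ≤ W) :
    l1 (wz ps ms l) ≤ W * l1 l := by
  induction ps generalizing ms l with
  | nil => simp [wz, l1]
  | cons p ps ih =>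
    cases ms with
    | nil => simp [wz, l1]
    | cons m ms =>
      cases l with
      | nil => simp [wz, l1]
      | cons a l =>
        have h1 := ih ms l (fun q hq => hp q (List.mem_cons_of_mem _ hq)) (fun q hq => hm q (List.mem_cons_of_mem _ hq))
        have h2 := hp p List.mem_cons_self
        have h3 := hm m List.mem_cons_self
        have h4 : (((p : ℤ) - m) * a).natAbs ≤ W * a.natAbs := by
          rw [Int.natAbs_mul]
          exact Nat.mul_le_mul_right _ (by omega)
        simp only [wz, l1]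
        rw [mul_add]
        exact Nat.add_le_add h4 h1

theorem l1_mem (l : List ℤ) : ∀ c ∈ l, c.natAbs ≤ l1 l := by
  induction l with
  | nil => intro c hc; simp at hc
  | cons a l ih =>
    intro c hc
    simp only [l1]
    rcases List.mem_cons.1 hc with h | h
    · rw [h]; omega
    · have := ih c h; omega

/-- constants of the weights: `off = of b n + 2 ^ b P⁻`, `dif = 2 ^ b P⁺` -/
structure WC where
  mp : List ℕ
  mm : List ℕ
  off : ℕ
  dif : ℕ

def mkWC (b n K Pp Pm : ℕ) : WC :=
  ⟨pls (on b n) (Nat.sub (Nat.pow 2 (Nat.succ b)) 1) K Pp, pls (on b n) (Nat.sub (Nat.pow 2 (Nat.succ b)) 1) K Pm,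
    Nat.add (of b n) (Nat.mul (Nat.pow 2 b) Pm), Nat.mul (Nat.pow 2 b) Pp⟩

/-- the weighted vector -/
def wv (c : WC) (Z : ℕ) : ℕ := Nat.sub (Nat.add (wg c.mp Z) c.off) (Nat.add (wg c.mm Z) c.dif)

theorem wv_sound (b n K : ℕ) (hK : K ≤ b + 1) (ps ms : List ℕ) (hp : ps.length = n) (hm : ms.length = n)
    (hp2 : ∀ w ∈ ps, w < 2 ^ K) (hm2 : ∀ w ∈ ms, w < 2 ^ K) (Z : ℕ)
    (h : l1 (wz ps ms (ls b n Z)) < 2 ^ b) :
    ls b n (wv (mkWC b n K (pwl b ps) (pwl b ms)) Z) = wz ps ms (ls b n Z) ∧
      wv (mkWC b n K (pwl b ps) (pwl b ms)) Z < (2 ^ (b + 1)) ^ n := by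
  have e1 : wv (mkWC b n K (pwl b ps) (pwl b ms)) Z =
    (wg (pls (on b n) (2 ^ (b + 1) - 1) K (pwl b ps)) Z + (of b n + 2 ^ b * pwl b ms)) -
    (wg (pls (on b n) (2 ^ (b + 1) - 1) K (pwl b ms)) Z + 2 ^ b * pwl b ps) := rfl
  rw [e1, wg_eq, wg_eq]
  refine ls_sub b n _ (wz_length ps ms _ n hp hm (length_ls b n Z)) ?_ _ _ ?_
  · intro c hc
    have := l1_mem _ c hc
    omega
  · have a1 := wsum_pwl b K hK ps hp2 n Z hp
    have a2 := wsum_pwl b K hK ms hm2 n Z hm
    rw [wz_sub ps ms _ n hp hm (length_ls b n Z), of_eq]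
    push_cast at a1 a2 ⊢
    linarith

/-- reversed vector of `n ≤ 2 ^ k` digits -/
def rvn (b k n : ℕ) (lv : List RM) (Y : ℕ) : ℕ :=
  Nat.shiftRight (rvS lv Y) (Nat.mul (Nat.succ b) (Nat.sub (Nat.pow 2 k) n))

theorem swp_lt (b g m X : ℕ) (hX : X < 2 ^ ((b + 1) * (2 * g * m))) :
    swp ((b + 1) * g) (mkR b g m) X < 2 ^ ((b + 1) * (2 * g * m)) := by
  induction m generalizing X with
  | zero =>
    have : X = 0 := by simpa using hX
    subst this
    simp [mkR, gs, swp]
  | succ m ih =>
    have hp : 0 < 2 ^ ((b + 1) * g) := by positivity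
    have e1 : mkR b g (m + 1) = (2 ^ ((b + 1) * g) - 1) + 2 ^ (2 * ((b + 1) * g)) * mkR b g m := by
      unfold mkR
      rw [gs]
      have : (b + 1) * (2 * g) = 2 * ((b + 1) * g) := by ring
      rw [this]
      ring
    rw [e1, swp_succ _ _ _ _ rfl]
    have e2 : 2 * ((b + 1) * g) = (b + 1) * (2 * g) := by ring
    rw [e2]
    have h1 : X / 2 ^ ((b + 1) * g) % 2 ^ ((b + 1) * g) + 2 ^ ((b + 1) * g) * (X % 2 ^ ((b + 1) * g)) <
        2 ^ ((b + 1) * (2 * g)) := by
      have a1 : X / 2 ^ ((b + 1) * g) % 2 ^ ((b + 1) * g) < 2 ^ ((b + 1) * g) := Nat.mod_lt _ hp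
      have a2 : X % 2 ^ ((b + 1) * g) < 2 ^ ((b + 1) * g) := Nat.mod_lt _ hp
      have a3 : 2 ^ ((b + 1) * (2 * g)) = 2 ^ ((b + 1) * g) * 2 ^ ((b + 1) * g) := by
        rw [← pow_add]; congr 1; ring
      rw [a3]
      calc X / 2 ^ ((b + 1) * g) % 2 ^ ((b + 1) * g) + 2 ^ ((b + 1) * g) * (X % 2 ^ ((b + 1) * g))
          < 2 ^ ((b + 1) * g) + 2 ^ ((b + 1) * g) * (X % 2 ^ ((b + 1) * g)) := by omega
        _ = 2 ^ ((b + 1) * g) * (X % 2 ^ ((b + 1) * g) + 1) := by ring
        _ ≤ 2 ^ ((b + 1) * g) * 2 ^ ((b + 1) * g) := Nat.mul_le_mul_left _ a2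
    have e3 : (b + 1) * (2 * g * (m + 1)) = (b + 1) * (2 * g) + (b + 1) * (2 * g * m) := by ring
    have h2 : X / 2 ^ ((b + 1) * (2 * g)) < 2 ^ ((b + 1) * (2 * g * m)) := by
      rw [Nat.div_lt_iff_lt_mul (by positivity), ← pow_add, add_comm, ← e3]
      exact hX
    have h3 := ih _ h2
    rw [e3, pow_add]
    calc _ < 2 ^ ((b + 1) * (2 * g)) + 2 ^ ((b + 1) * (2 * g)) *
          swp ((b + 1) * g) (mkR b g m) (X / 2 ^ ((b + 1) * (2 * g))) := by omega
      _ = 2 ^ ((b + 1) * (2 * g)) * (swp ((b + 1) * g) (mkR b g m) (X / 2 ^ ((b + 1) * (2 * g))) + 1) := by ring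
      _ ≤ _ := Nat.mul_le_mul_left _ h3

theorem rvS_lt (b : ℕ) : ∀ (k g : ℕ), 1 ≤ g → ∀ (X : ℕ), X < 2 ^ ((b + 1) * (g * 2 ^ k)) →
    rvS (lev b k g) X < 2 ^ ((b + 1) * (g * 2 ^ k)) := by
  intro k
  induction k with
  | zero => intro g _ X h; exact h
  | succ k ih =>
    intro g hg X h
    have e1 : g * 2 ^ (k + 1) = 2 * g * 2 ^ k := by rw [pow_succ]; ring
    have e0 : rvS (lev b (k + 1) g) X = rvS (lev b k (2 * g)) (swp ((b + 1) * g)
      ((2 ^ ((b + 1) * g) - 1) * ((2 ^ (((b + 1) * (2 * g)) * 2 ^ k) - 1) / (2 ^ ((b + 1) * (2 * g)) - 1))) X) := rfl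
    rw [e0, ← mkR_eq b g (2 ^ k) hg, e1]
    rw [e1] at h
    exact ih (2 * g) (by omega) _ (swp_lt b g (2 ^ k) X h)

theorem rvn_sound (b k n Y : ℕ) (hn : n ≤ 2 ^ k) (hY : Y < (2 ^ (b + 1)) ^ n) :
    ls b n (rvn b k n (lev b k 1) Y) = (ls b n Y).reverse ∧ rvn b k n (lev b k 1) Y < (2 ^ (b + 1)) ^ n := by
  have hk := ls_rvS b k Y
  have e1 : rvn b k n (lev b k 1) Y = rvS (lev b k 1) Y / (2 ^ (b + 1)) ^ (2 ^ k - n) := by
    show rvS (lev b k 1) Y >>> ((b + 1) * (2 ^ k - n)) = _
    rw [Nat.shiftRight_eq_div_pow, pow_mul]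
  have e2 : 2 ^ k = (2 ^ k - n) + n := by omega
  have e3 : 2 ^ k = n + (2 ^ k - n) := by omega
  have h1 : ls b (2 ^ k) (rvS (lev b k 1) Y) = ls b (2 ^ k - n) (rvS (lev b k 1) Y) ++
      ls b n (rvn b k n (lev b k 1) Y) := by
    conv_lhs => rw [e2]
    rw [ls_append, e1]
  have h2 : ls b (2 ^ k) Y = ls b n Y ++ ls b (2 ^ k - n) (Y / (2 ^ (b + 1)) ^ n) := by
    conv_lhs => rw [e3]
    rw [ls_append]
  rw [h1, h2, List.reverse_append] at hk
  constructor
  · have h3 := (List.append_inj hk (by rw [List.length_reverse, length_ls, length_ls])).2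
    exact h3
  · rw [e1, Nat.div_lt_iff_lt_mul (by positivity), ← pow_add]
    have h4 : Y < 2 ^ ((b + 1) * (1 * 2 ^ k)) := by
      rw [one_mul, pow_mul]
      exact lt_of_lt_of_le hY (Nat.pow_le_pow_right (by positivity) hn)
    have h5 := rvS_lt b k 1 le_rfl Y h4
    rw [one_mul, pow_mul] at h5
    have e4 : n + (2 ^ k - n) = 2 ^ k := by omega
    rw [e4]
    exact h5

end Helper54.SH.MatF
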