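import Pool.Agent.Helper54.SH.MatS2

/-!
# The matrix certificate, fast version: the check of one entry and the final theorem
-/

set_option autoImplicit false

open Finset

namespace Helper54.SH.MatF

open Helper76.RC.TPoly Helper54.RC.Fast

/-! ## One entry -/

/-- `P - (⌊O X / 2 ^ s⌋ mod P)` -/
def mx (O s P X : ℕ) : ℕ := Nat.sub P (Nat.mod (Nat.shiftRight (Nat.mul O X) s) P)

/-- the shifted middle digit of the product -/
def pz (s P X Y ys xs : ℕ) : ℕ :=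
  Nat.mod (Nat.add (Nat.add (Nat.mod (Nat.shiftRight (Nat.mul X Y) s) P) ys) xs) P

/-- arithmetic of the carries -/
theorem carry (D P qd xy ox oy K T rho δ u dot B2 : ℤ) (hD : 0 < D) (hP : 0 < P)
    (hT : T = xy + K - (ox + oy)) (hqd : T / D % P = qd) (hdot : qd = B2 + dot) (hB : P = 2 * B2)
    (hu : u = ((xy / D % P) + (P - oy / D % P) + ((P - ox / D % P) + (K / D % P + (P + rho + 2 - B2) + (P - δ)))) % P)
    (hd1 : -B2 < dot) (hd2 : dot < B2) (hr : 0 ≤ rho) (hδ : 0 ≤ δ) (hs : 2 * rho + δ + 8 ≤ B2) (hle : u ≤ 2 * rho) :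
    |dot - δ| ≤ rho + 4 := by
  have hu0 : 0 ≤ u := by rw [hu]; exact Int.emod_nonneg _ hP.ne'
  have huP : u < P := by rw [hu]; exact Int.emod_lt_of_pos _ hP
  -- floors
  have f1 := Int.emod_add_mul_ediv xy D
  have f2 := Int.emod_add_mul_ediv ox D
  have f3 := Int.emod_add_mul_ediv oy D
  have f4 := Int.emod_add_mul_ediv K D
  have f5 := Int.emod_add_mul_ediv T D
  have g1 := Int.emod_nonneg xy hD.ne'
  have g2 := Int.emod_nonneg ox hD.ne'
  have g3 := Int.emod_nonneg oy hD.ne'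
  have g4 := Int.emod_nonneg K hD.ne'
  have g5 := Int.emod_nonneg T hD.ne'
  have k1 := Int.emod_lt_of_pos xy hD
  have k2 := Int.emod_lt_of_pos ox hD
  have k3 := Int.emod_lt_of_pos oy hD
  have k4 := Int.emod_lt_of_pos K hD
  have k5 := Int.emod_lt_of_pos T hD
  set ε := T / D - (xy / D + K / D - ox / D - oy / D) with hε
  have e1 : D * ε = (xy % D + K % D - ox % D - oy % D) - T % D := by
    rw [hε]
    have : D * (T / D - (xy / D + K / D - ox / D - oy / D)) =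
      D * (T / D) - (D * (xy / D) + D * (K / D) - D * (ox / D) - D * (oy / D)) := by ring
    rw [this]
    linarith
  have e2 : ε < 2 := by
    by_contra hc
    push Not at hc
    have : D * 2 ≤ D * ε := mul_le_mul_of_nonneg_left hc hD.le
    linarith
  have e3 : -3 < ε := by
    by_contra hc
    push Not at hc
    have : D * ε ≤ D * (-3) := mul_le_mul_of_nonneg_left hc hD.le
    linarith
  -- congruence
  have c0 : ∀ a : ℤ, ∃ m : ℤ, a % P = a - P * m := fun a => ⟨a / P, by have := Int.emod_add_mul_ediv a P; linarith⟩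
  obtain ⟨m1, h1⟩ := c0 (xy / D)
  obtain ⟨m2, h2⟩ := c0 (oy / D)
  obtain ⟨m3, h3⟩ := c0 (ox / D)
  obtain ⟨m4, h4⟩ := c0 (K / D)
  obtain ⟨m5, h5⟩ := c0 (T / D)
  obtain ⟨m6, h6⟩ := c0 ((xy / D % P) + (P - oy / D % P) + ((P - ox / D % P) + (K / D % P + (P + rho + 2 - B2) + (P - δ))))
  rw [← hu] at h6
  have h7 : u = (dot - δ + rho + 2 - ε) + P * (m5 - m1 + m2 + m3 - m4 - m6 + 4) := by
    have h8 : T / D = B2 + dot + P * m5 := by linarith
    have h9 : T / D = xy / D + K / D - ox / D - oy / D + ε := by rw [hε]; ring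
    rw [h6, h1, h2, h3, h4]
    linarith
  set M := m5 - m1 + m2 + m3 - m4 - m6 + 4
  have z1 : dot - δ + rho + 2 - ε < P := by omega
  have z2 : -P < dot - δ + rho + 2 - ε := by omega
  have hM : M = 0 := by
    have y1 : M < 1 := by
      by_contra hc
      push Not at hc
      have : P * 1 ≤ P * M := mul_le_mul_of_nonneg_left hc hP.le
      omega
    have y2 : -1 < M := by
      by_contra hc
      push Not at hc
      have : P * M ≤ P * (-1) := mul_le_mul_of_nonneg_left hc hP.le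
      omega
    omega
  rw [hM, mul_zero, add_zero] at h7
  rw [abs_le]
  constructor <;> omega

/-- constants of the check: `s = (b + 1) (n - 1)`, `P`, `O`, and the constants of the entries -/
structure KC where
  s : ℕ
  P : ℕ
  O : ℕ
  co : ℕ
  cd : ℕ

def mkKC (b n rho δ : ℕ) : KC :=
  ⟨Nat.mul (Nat.succ b) (Nat.sub n 1), Nat.pow 2 (Nat.succ b), of b n,
    Nat.add (Nat.add (Nat.mod (Nat.shiftRight (dotK b n) (Nat.mul (Nat.succ b) (Nat.sub n 1))) (Nat.pow 2 (Nat.succ b)))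
      (Nat.sub (Nat.add (Nat.add (Nat.pow 2 (Nat.succ b)) rho) 2) (Nat.pow 2 b))) (Nat.sub (Nat.pow 2 (Nat.succ b)) 0),
    Nat.add (Nat.add (Nat.mod (Nat.shiftRight (dotK b n) (Nat.mul (Nat.succ b) (Nat.sub n 1))) (Nat.pow 2 (Nat.succ b)))
      (Nat.sub (Nat.add (Nat.add (Nat.pow 2 (Nat.succ b)) rho) 2) (Nat.pow 2 b))) (Nat.sub (Nat.pow 2 (Nat.succ b)) δ)⟩

structure CY where
  Y : ℕ
  s : ℕ

structure CX where
  X : ℕ
  so : ℕ
  sd : ℕ

def mkCY (c : KC) (Y : ℕ) : CY := ⟨Y, mx c.O c.s c.P Y⟩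
def mkCX (c : KC) (X : ℕ) : CX := ⟨X, Nat.add (mx c.O c.s c.P X) c.co, Nat.add (mx c.O c.s c.P X) c.cd⟩

/-- the check of one entry, general `δ` (0 off the diagonal) -/
theorem pz_sound (b n rho δ X Y : ℕ) (hn : 1 ≤ n) (hX : X < (2 ^ (b + 1)) ^ n) (hY : Y < (2 ^ (b + 1)) ^ n)
    (h : l1 (ls b n X) * l1 (ls b n Y) < 2 ^ b) (m : List ℤ) (hm : m.length = n) (hmY : ls b n Y = m.reverse)
    (hs : 2 * rho + δ + 8 ≤ 2 ^ b)
    (hle : pz ((b + 1) * (n - 1)) (2 ^ (b + 1)) X Y (mx (of b n) ((b + 1) * (n - 1)) (2 ^ (b + 1)) Y)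
      (mx (of b n) ((b + 1) * (n - 1)) (2 ^ (b + 1)) X +
        ((dotK b n >>> ((b + 1) * (n - 1)) % 2 ^ (b + 1) + (2 ^ (b + 1) + rho + 2 - 2 ^ b)) + (2 ^ (b + 1) - δ)))
      ≤ 2 * rho) : |∑ i ∈ range n, (ls b n X).getD i 0 * m.getD i 0 - (δ : ℤ)| ≤ rho + 4 := by
  have hd := dotF_sound b n X Y hn hX hY h m hm hmY
  set dot : ℤ := ∑ i ∈ range n, (ls b n X).getD i 0 * m.getD i 0 with hdot
  -- bound of the dot product
  have hb : |dot| < 2 ^ b := by
    have h1 : dot = (conv (ls b n X) m.reverse).getD (n - 1) 0 := by rw [conv_dot _ m n hn hm]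
    have h2 : Bd (l1 (ls b n X) * l1 (ls b n Y)) (conv (ls b n X) (ls b n Y)) := Bd_conv _ _ (Bd_l1 (ls b n Y))
    rw [← hmY] at h1
    have h3 : ∀ (l : List ℤ) (B k : ℕ), Bd B l → (l.getD k 0).natAbs ≤ B := by
      intro l B k hB
      rw [List.getD_eq_getElem?_getD]
      by_cases hk : k < l.length
      · rw [List.getElem?_eq_getElem hk]
        exact hB _ (List.getElem_mem hk)
      · rw [List.getElem?_eq_none (by omega)]
        simp
    have h4 := h3 _ _ (n - 1) h2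
    rw [← h1] at h4
    have h5 : dot.natAbs < 2 ^ b := lt_of_le_of_lt h4 h
    have h6 : |dot| = (dot.natAbs : ℤ) := Int.abs_eq_natAbs dot
    rw [h6]
    exact_mod_cast h5
  obtain ⟨hb1, hb2⟩ := abs_lt.1 hb
  have hle2 : of b n * X + of b n * Y ≤ X * Y + dotK b n := by
    have a1 := evz_lst' b n X hX
    have a2 := evz_lst' b n Y hY
    have e : dotK b n = of b n * of b n + of b (n + n - 1) := rfl
    rw [e]
    have hcl : (conv (ls b n X) (ls b n Y)).length = n + n - 1 := by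
      have hne : ∀ l : List ℤ, l.length = n → l ≠ [] := by
        intro l hl h0
        rw [h0] at hl
        simp at hl
        omega
      rw [length_conv _ _ (hne _ (length_ls b n X)) (hne _ (length_ls b n Y)), length_ls, length_ls]
    have h0 := evz_nonneg b (conv (ls b n X) (ls b n Y)) (Bd_range (Bd_conv _ _ (Bd_l1 (ls b n Y))) h)
    rw [hcl, evz_conv] at h0
    have e2 := of_eq b (n + n - 1)
    have e3 := of_eq b n
    have h7 : ((of b n * X + of b n * Y : ℕ) : ℤ) ≤ ((X * Y + (of b n * of b n + of b (n + n - 1)) : ℕ) : ℤ) := by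
      rw [e2, e3]
      push_cast
      push_cast at a1 a2 h0
      rw [a1, a2]
      nlinarith
    exact_mod_cast h7
  have hP : (0 : ℤ) < ((2 ^ (b + 1) : ℕ) : ℤ) := by positivity
  have hD : (0 : ℤ) < ((2 ^ ((b + 1) * (n - 1)) : ℕ) : ℤ) := by positivity
  have hpow : (2 : ℕ) ^ (b + 1) = 2 * 2 ^ b := by rw [pow_succ]; ring
  refine carry ((2 ^ ((b + 1) * (n - 1)) : ℕ) : ℤ) ((2 ^ (b + 1) : ℕ) : ℤ)
    ((dotF b n (dotK b n) X (of b n * X) Y (of b n * Y) : ℕ) : ℤ) ((X * Y : ℕ) : ℤ) ((of b n * X : ℕ) : ℤ)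
    ((of b n * Y : ℕ) : ℤ) ((dotK b n : ℕ) : ℤ) ((X * Y + dotK b n - (of b n * X + of b n * Y) : ℕ) : ℤ) rho δ
    ((pz ((b + 1) * (n - 1)) (2 ^ (b + 1)) X Y (mx (of b n) ((b + 1) * (n - 1)) (2 ^ (b + 1)) Y)
      (mx (of b n) ((b + 1) * (n - 1)) (2 ^ (b + 1)) X +
        ((dotK b n >>> ((b + 1) * (n - 1)) % 2 ^ (b + 1) + (2 ^ (b + 1) + rho + 2 - 2 ^ b)) + (2 ^ (b + 1) - δ))) : ℕ) : ℤ)
    dot ((2 ^ b : ℕ) : ℤ) hD hP ?_ ?_ hd ?_ ?_ ?_ ?_ (Nat.cast_nonneg _) (Nat.cast_nonneg _) ?_ ?_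
  · rw [Nat.cast_sub hle2]
    push_cast
    ring
  · rw [← Int.natCast_ediv, ← Int.natCast_emod]
    have e : dotF b n (dotK b n) X (of b n * X) Y (of b n * Y) =
      (X * Y + dotK b n - (of b n * X + of b n * Y)) >>> ((b + 1) * (n - 1)) % 2 ^ (b + 1) := rfl
    rw [e, Nat.shiftRight_eq_div_pow]
  · exact_mod_cast hpow
  · have m1 : ∀ a : ℕ, a / 2 ^ ((b + 1) * (n - 1)) % 2 ^ (b + 1) ≤ 2 ^ (b + 1) :=
      fun a => (Nat.mod_lt _ (by positivity)).le
    have m2 : 2 ^ b ≤ 2 ^ (b + 1) + rho + 2 := by omega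
    have m3 : δ ≤ 2 ^ (b + 1) := by omega
    have e1 : pz ((b + 1) * (n - 1)) (2 ^ (b + 1)) X Y (mx (of b n) ((b + 1) * (n - 1)) (2 ^ (b + 1)) Y)
      (mx (of b n) ((b + 1) * (n - 1)) (2 ^ (b + 1)) X +
        ((dotK b n >>> ((b + 1) * (n - 1)) % 2 ^ (b + 1) + (2 ^ (b + 1) + rho + 2 - 2 ^ b)) + (2 ^ (b + 1) - δ))) =
      ((X * Y) / 2 ^ ((b + 1) * (n - 1)) % 2 ^ (b + 1) +
        (2 ^ (b + 1) - (of b n * Y) / 2 ^ ((b + 1) * (n - 1)) % 2 ^ (b + 1)) +
        ((2 ^ (b + 1) - (of b n * X) / 2 ^ ((b + 1) * (n - 1)) % 2 ^ (b + 1)) +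
        ((dotK b n / 2 ^ ((b + 1) * (n - 1)) % 2 ^ (b + 1) + (2 ^ (b + 1) + rho + 2 - 2 ^ b)) + (2 ^ (b + 1) - δ)))) %
        2 ^ (b + 1) := by
      simp only [← Nat.shiftRight_eq_div_pow]
      rfl
    rw [e1]
    rw [Int.natCast_emod, Nat.cast_add, Nat.cast_add, Nat.cast_add, Nat.cast_add, Nat.cast_add, Nat.cast_sub (m1 _),
      Nat.cast_sub (m1 _), Nat.cast_sub m2, Nat.cast_sub m3]
    push_cast
    ring_nf
  · exact_mod_cast hb1
  · exact_mod_cast hb2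
  · exact_mod_cast hs
  · exact_mod_cast hle

end Helper54.SH.MatF
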