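import Pool.Agent.Helper54.SH.MatS3

/-!
# The matrix certificate, fast version: all entries and the final theorem
-/

set_option autoImplicit false

open Finset

namespace Helper54.SH.MatF

open Helper76.RC.TPoly Helper54.RC.Fast

/-! ## All entries -/

/-- row `i`, columns `j > i` -/
def cRo (s P R X xs : ℕ) : List CY → Bool
  | [] => true
  | y :: l => bif Nat.ble (pz s P X y.Y y.s xs) R then cRo s P R X xs l else false

def cAo (s P R : ℕ) : List CX → List CY → Bool
  | x :: xl, y :: yl => bif Nat.ble (pz s P x.X y.Y y.s x.sd) R then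
      bif cRo s P R x.X x.so yl then cAo s P R xl yl else false else false
  | _, _ => true

theorem cRo_mem (c : KC) (R X xs : ℕ) (ys : List ℕ) (h : cRo c.s c.P R X xs (ys.map (mkCY c)) = true) (j : ℕ)
    (hj : j < ys.length) : pz c.s c.P X (ys.getD j 0) (mx c.O c.s c.P (ys.getD j 0)) xs ≤ R := by
  induction ys generalizing j with
  | nil => simp at hj
  | cons y ys ih =>
    rw [List.map_cons, cRo, bif3] at h
    cases j with
    | zero => exact Nat.le_of_ble_eq_true h.1
    | succ j => simpa using ih h.2 j (by simpa using hj)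

theorem cAo_mem (c : KC) (R : ℕ) (xs ys : List ℕ) (hl : xs.length = ys.length)
    (h : cAo c.s c.P R (xs.map (mkCX c)) (ys.map (mkCY c)) = true) (i j : ℕ) (hij : i ≤ j) (hj : j < ys.length) :
    pz c.s c.P (xs.getD i 0) (ys.getD j 0) (mx c.O c.s c.P (ys.getD j 0))
      (mx c.O c.s c.P (xs.getD i 0) + if i = j then c.cd else c.co) ≤ R := by
  induction xs generalizing ys i j with
  | nil => simp at hl; omega
  | cons x xs ih =>
    cases ys with
    | nil => simp at hl
    | cons y ys =>
      rw [List.map_cons, List.map_cons, cAo] at h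
      simp only [bif3] at h
      cases i with
      | zero =>
        cases j with
        | zero => exact Nat.le_of_ble_eq_true h.1
        | succ j =>
          rw [if_neg (by omega), List.getD_cons_succ, List.getD_cons_zero]
          exact cRo_mem c R x (mkCX c x).so ys h.2.1 j (by simpa using hj)
      | succ i =>
        cases j with
        | zero => omega
        | succ j =>
          have := ih ys (by simpa using hl) h.2.2 i j (by omega) (by simpa using hj)
          by_cases e : i = j
          · rw [if_pos e] at this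
            rw [if_pos (by omega)]
            simpa using this
          · rw [if_neg e] at this
            rw [if_neg (by omega)]
            simpa using this

/-! ## The vectors -/

/-- norms of all `X` and `Z` -/
def okX (b r n NX : ℕ) : List ℕ → Bool
  | [] => true
  | x :: l => bif Nat.ble (l1F b r n x) NX then okX b r n NX l else false

theorem okX_mem (b r n NX : ℕ) (hr : r ≤ b + 1) (l : List ℕ) (h : okX b r n NX l = true) (i : ℕ) (hi : i < l.length) :
    l1 (ls b n (l.getD i 0)) ≤ NX := by
  induction l generalizing i with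
  | nil => simp at hi
  | cons a l ih =>
    unfold okX at h
    rw [bif3] at h
    cases i with
    | zero => exact (l1F_le b r n a hr).trans (Nat.le_of_ble_eq_true h.1)
    | succ i => simpa using ih h.2 i (by simpa using hi)

/-- constants of the vectors -/
structure VC where
  b : ℕ
  k : ℕ
  n : ℕ
  lv : List RM
  wc : WC

def mkVC (b k K : ℕ) (l : List It) : VC :=
  ⟨b, k, ntot l, lev b k 1, mkWC b (ntot l) K (pwl b (wpos l)) (pwl b (wneg l))⟩

/-- the reversed weighted vector of a coordinate -/
def yv (c : VC) (Z : ℕ) : ℕ := rvn c.b c.k c.n c.lv (wv c.wc Z)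

/-- all reversed weighted vectors -/
def yvs (c : VC) : List ℕ → List ℕ
  | [] => []
  | z :: l => yv c z :: yvs c l

theorem yvs_eq (c : VC) (l : List ℕ) : yvs c l = l.map (yv c) := by
  induction l with
  | nil => rfl
  | cons a l ih => rw [yvs, ih]; rfl

/-! ## Parameters and the check -/

/-- parameters: base `b`, `r` for the norms, `k` with `n ≤ 2 ^ k`, `K` bits of the weights, `NX`, `NZ`, `NY` bounds of the
`ℓ¹` norms, `rho` the error of the entries, `δ` the slack -/
structure PM where
  b : ℕ
  r : ℕ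
  k : ℕ
  K : ℕ
  NX : ℕ
  NZ : ℕ
  NY : ℕ
  rho : ℕ
  δ : ℕ

def okPM (p : PM) (n : ℕ) : Bool :=
  bif Nat.ble 1 n then bif Nat.ble n (Nat.pow 2 p.k) then bif Nat.ble p.r (Nat.succ p.b) then
    bif Nat.ble p.K (Nat.succ p.b) then bif Nat.ble (Nat.succ (Nat.mul p.NX p.NY)) (Nat.pow 2 p.b) then
    bif Nat.ble (Nat.succ (Nat.mul (Nat.pow 2 p.K) p.NZ)) (Nat.pow 2 p.b) then
    Nat.ble (Nat.add (Nat.add (Nat.mul 2 p.rho) p.δ) 8) (Nat.pow 2 p.b) else false else false else false else false
    else false else false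

def chk3 (p : PM) (c : KC) (n : ℕ) (xs ys : List ℕ) : Bool :=
  bif okX p.b p.r n p.NY ys then
    cAo c.s c.P (Nat.mul 2 p.rho) (xs.map (mkCX c)) (ys.map (mkCY c)) else false

def chk2 (p : PM) (n : ℕ) (v : VC) (xs zs : List ℕ) : Bool :=
  bif okX p.b p.r n p.NX xs then bif okX p.b p.r n p.NZ zs then
    chk3 p (mkKC p.b n p.rho p.δ) n xs (yvs v zs) else false else false

/-- THE CHECK of all items -/
def chkI (p : PM) (N : ℕ) (l : List It) : Bool :=
  bif okPM p (ntot l) then bif okIts p.b N p.K l then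
    chk2 p (ntot l) (mkVC p.b p.k p.K l) (catX p.b N l) (catZ p.b N l) else false else false

/-! ## Soundness -/

theorem wpos_len (b N K : ℕ) (l : List It) (h : ∀ t ∈ l, t.OK b N K) : (wpos l).length = ntot l := by
  induction l with
  | nil => rfl
  | cons t l ih =>
    have h1 := (h t List.mem_cons_self).lw
    have h2 := ih fun u hu => h u (List.mem_cons_of_mem _ hu)
    show ((bif t.neg then List.replicate t.n 0 else t.ws) ++ wpos l).length = t.n + ntot l
    rw [List.length_append, h2]
    cases t.neg <;> simp [h1]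

theorem wneg_len (b N K : ℕ) (l : List It) (h : ∀ t ∈ l, t.OK b N K) : (wneg l).length = ntot l := by
  induction l with
  | nil => rfl
  | cons t l ih =>
    have h1 := (h t List.mem_cons_self).lw
    have h2 := ih fun u hu => h u (List.mem_cons_of_mem _ hu)
    show ((bif t.neg then t.ws else List.replicate t.n 0) ++ wneg l).length = t.n + ntot l
    rw [List.length_append, h2]
    cases t.neg <;> simp [h1]

theorem mem_getD (l : List ℕ) (w : ℕ) (h : w ∈ l) : ∃ c, l.getD c 0 = w := by
  obtain ⟨c, hc, e⟩ := List.mem_iff_getElem.1 h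
  refine ⟨c, ?_⟩
  rw [List.getD_eq_getElem?_getD, List.getElem?_eq_getElem hc, e]
  rfl

theorem wpos_lt (b N K : ℕ) (l : List It) (h : ∀ t ∈ l, t.OK b N K) : ∀ w ∈ wpos l, w < 2 ^ K := by
  induction l with
  | nil => intro w hw; simp [wpos] at hw
  | cons t l ih =>
    have h1 := (h t List.mem_cons_self).w
    have h2 := ih fun u hu => h u (List.mem_cons_of_mem _ hu)
    intro w hw
    rcases List.mem_append.1 (show w ∈ (bif t.neg then List.replicate t.n 0 else t.ws) ++ wpos l from hw) with h3 | h3
    · cases hn : t.neg with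
      | true =>
        rw [hn] at h3
        have := List.eq_of_mem_replicate h3
        rw [this]
        positivity
      | false =>
        rw [hn] at h3
        obtain ⟨c, hc⟩ := mem_getD _ _ h3
        rw [← hc]
        exact h1 c
    · exact h2 w h3

theorem wneg_lt (b N K : ℕ) (l : List It) (h : ∀ t ∈ l, t.OK b N K) : ∀ w ∈ wneg l, w < 2 ^ K := by
  induction l with
  | nil => intro w hw; simp [wneg] at hw
  | cons t l ih =>
    have h1 := (h t List.mem_cons_self).w
    have h2 := ih fun u hu => h u (List.mem_cons_of_mem _ hu)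
    intro w hw
    rcases List.mem_append.1 (show w ∈ (bif t.neg then t.ws else List.replicate t.n 0) ++ wneg l from hw) with h3 | h3
    · cases hn : t.neg with
      | false =>
        rw [hn] at h3
        have := List.eq_of_mem_replicate h3
        rw [this]
        positivity
      | true =>
        rw [hn] at h3
        obtain ⟨c, hc⟩ := mem_getD _ _ h3
        rw [← hc]
        exact h1 c
    · exact h2 w h3

theorem lX_len (b : ℕ) (l : List It) (i : ℕ) : (lX b l i).length = ntot l := by
  induction l with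
  | nil => rfl
  | cons t l ih =>
    show (ls b t.n (t.xs.getD i 0) ++ lX b l i).length = t.n + ntot l
    rw [List.length_append, length_ls, ih]

theorem lZ_len (b : ℕ) (l : List It) (i : ℕ) : (lZ b l i).length = ntot l := by
  induction l with
  | nil => rfl
  | cons t l ih =>
    show (ls b t.n (t.zs.getD i 0) ++ lZ b l i).length = t.n + ntot l
    rw [List.length_append, length_ls, ih]

theorem wz_append (ps ms ps' ms' : List ℕ) (l l' : List ℤ) (n : ℕ) (hp : ps.length = n) (hm : ms.length = n)
    (hl : l.length = n) : wz (ps ++ ps') (ms ++ ms') (l ++ l') = wz ps ms l ++ wz ps' ms' l' := by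
  induction ps generalizing ms l n with
  | nil =>
    simp only [List.length_nil] at hp
    subst hp
    have h1 : ms = [] := List.length_eq_zero_iff.1 hm
    have h2 : l = [] := List.length_eq_zero_iff.1 hl
    subst h1 h2
    simp [wz]
  | cons p ps ih =>
    cases ms with
    | nil => simp only [List.length_nil] at hm; subst hm; simp at hp
    | cons m ms =>
      cases l with
      | nil => simp only [List.length_nil] at hl; subst hl; simp at hp
      | cons a l =>
        simp only [List.length_cons] at hp hm hl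
        simp only [List.cons_append, wz]
        rw [ih ms l ps.length rfl (by omega) (by omega)]

theorem wz_getD (ps ms : List ℕ) (l : List ℤ) (n : ℕ) (hp : ps.length = n) (hm : ms.length = n) (hl : l.length = n)
    (c : ℕ) : (wz ps ms l).getD c 0 = ((ps.getD c 0 : ℤ) - ms.getD c 0) * l.getD c 0 := by
  induction ps generalizing ms l n c with
  | nil =>
    simp only [List.length_nil] at hp
    subst hp
    have h1 : ms = [] := List.length_eq_zero_iff.1 hm
    subst h1
    simp [wz]
  | cons p ps ih =>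
    cases ms with
    | nil => simp only [List.length_nil] at hm; subst hm; simp at hp
    | cons m ms =>
      cases l with
      | nil => simp only [List.length_nil] at hl; subst hl; simp at hp
      | cons a l =>
        simp only [List.length_cons] at hp hm hl
        cases c with
        | zero => simp [wz]
        | succ c => simpa [wz] using ih ms l ps.length rfl (by omega) (by omega) c

/-- the dot product of the concatenated vectors -/
theorem dot_its (b N K : ℕ) (l : List It) (h : ∀ t ∈ l, t.OK b N K) (i j : ℕ) :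
    dotL (lX b l i) (wz (wpos l) (wneg l) (lZ b l j)) = (l.map fun t => t.M b i j).sum := by
  induction l with
  | nil => simp [lX, dotL]
  | cons t l ih =>
    have h1 := h t List.mem_cons_self
    have h2 := ih fun u hu => h u (List.mem_cons_of_mem _ hu)
    set p : List ℕ := bif t.neg then List.replicate t.n 0 else t.ws with hp
    set m : List ℕ := bif t.neg then t.ws else List.replicate t.n 0 with hm
    have lp : p.length = t.n := by rw [hp]; cases t.neg <;> simp [h1.lw]
    have lm : m.length = t.n := by rw [hm]; cases t.neg <;> simp [h1.lw]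
    have e1 : lX b (t :: l) i = ls b t.n (t.xs.getD i 0) ++ lX b l i := rfl
    have e2 : lZ b (t :: l) j = ls b t.n (t.zs.getD j 0) ++ lZ b l j := rfl
    have e3 : wpos (t :: l) = p ++ wpos l := rfl
    have e4 : wneg (t :: l) = m ++ wneg l := rfl
    rw [e1, e2, e3, e4, wz_append _ _ _ _ _ _ t.n lp lm (length_ls _ _ _), dotL_append _ _ _ _ (by
      rw [length_ls, wz_length _ _ _ t.n lp lm (length_ls _ _ _)]), h2, List.map_cons, List.sum_cons]
    congr 1
    rw [dotL_sum _ _ t.n (length_ls _ _ _)]
    unfold It.M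
    rw [Finset.mul_sum]
    refine Finset.sum_congr rfl fun c hc => ?_
    rw [wz_getD _ _ _ t.n lp lm (length_ls _ _ _)]
    have hcn := Finset.mem_range.1 hc
    have r0 : (List.replicate t.n 0).getD c 0 = 0 := by
      simp [List.getD_eq_getElem?_getD, hcn]
    cases hn : t.neg with
    | true =>
      rw [hn] at hp hm
      simp only [cond_true] at hp hm
      rw [hp, hm, r0]
      simp only [sgn, if_true, dgt]
      push_cast
      ring
    | false =>
      rw [hn] at hp hm
      simp only [cond_false] at hp hm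
      rw [hp, hm, r0]
      simp only [sgn, dgt]
      push_cast
      simp
      ring

/-- SOUNDNESS of the check: entries of the upper triangle -/
theorem chkI_sound {p : PM} {N : ℕ} {l : List It} (h : chkI p N l = true) (i j : ℕ) (hij : i ≤ j) (hj : j < N) :
    |(l.map fun t => t.M p.b i j).sum - (if i = j then (p.δ : ℤ) else 0)| ≤ p.rho + 4 := by
  unfold chkI chk2 chk3 okPM at h
  simp only [bif3] at h
  obtain ⟨⟨g1, g2, g3, g4, g5, g6, g7⟩, h2, h3, h4, h5, h6⟩ := h
  have g1 : 1 ≤ ntot l := Nat.le_of_ble_eq_true g1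
  have g2 : ntot l ≤ 2 ^ p.k := Nat.le_of_ble_eq_true g2
  have g3 : p.r ≤ p.b + 1 := Nat.le_of_ble_eq_true g3
  have g4 : p.K ≤ p.b + 1 := Nat.le_of_ble_eq_true g4
  have g5 : p.NX * p.NY < 2 ^ p.b := Nat.le_of_ble_eq_true g5
  have g6 : 2 ^ p.K * p.NZ < 2 ^ p.b := Nat.le_of_ble_eq_true g6
  have g7 : 2 * p.rho + p.δ + 8 ≤ 2 ^ p.b := Nat.le_of_ble_eq_true g7
  have hI := okIts_mem _ _ _ _ h2
  have lx := catX_length _ _ _ _ hI
  have lz := catZ_length _ _ _ _ hI
  set n := ntot l with hn
  have ly : (yvs (mkVC p.b p.k p.K l) (catZ p.b N l)).length = N := by rw [yvs_eq, List.length_map, lz]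
  have k1 := cAo_mem _ _ _ _ (lx.trans ly.symm) h6 i j hij (by rw [ly]; exact hj)
  have ey : (yvs (mkVC p.b p.k p.K l) (catZ p.b N l)).getD j 0 = yv (mkVC p.b p.k p.K l) ((catZ p.b N l).getD j 0) := by
    rw [yvs_eq, List.getD_eq_getElem?_getD, List.getD_eq_getElem?_getD, List.getElem?_map,
      List.getElem?_eq_getElem (by rw [lz]; exact hj)]
    rfl
  have nY := okX_mem _ _ _ _ g3 _ h5 j (by rw [ly]; exact hj)
  rw [ey] at k1 nY
  set Z := (catZ p.b N l).getD j 0 with hZ
  set X := (catX p.b N l).getD i 0 with hX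
  obtain ⟨x1, x2⟩ := ls_catX p.b N p.K l hI i
  obtain ⟨z1, z2⟩ := ls_catZ p.b N p.K l hI j
  rw [← hX] at x1 x2
  rw [← hZ] at z1 z2
  have nX : l1 (ls p.b n X) ≤ p.NX := okX_mem _ _ _ _ g3 _ h3 i (by rw [lx]; omega)
  have nZ : l1 (ls p.b n Z) ≤ p.NZ := okX_mem _ _ _ _ g3 _ h4 j (by rw [lz]; omega)
  have wp := wpos_len _ _ _ _ hI
  have wm := wneg_len _ _ _ _ hI
  have wpl := wpos_lt _ _ _ _ hI
  have wml := wneg_lt _ _ _ _ hI
  have hw : l1 (wz (wpos l) (wneg l) (ls p.b n Z)) < 2 ^ p.b :=
    lt_of_le_of_lt ((wz_l1 _ _ _ (2 ^ p.K) (fun w hw => (wpl w hw).le) (fun w hw => (wml w hw).le)).trans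
      (Nat.mul_le_mul_left _ nZ)) g6
  obtain ⟨v1, v2⟩ := wv_sound p.b n p.K g4 (wpos l) (wneg l) wp wm wpl wml Z hw
  obtain ⟨y1, y2⟩ := rvn_sound p.b p.k n _ g2 v2
  rw [v1] at y1
  have ey2 : yv (mkVC p.b p.k p.K l) Z =
    rvn p.b p.k n (lev p.b p.k 1) (wv (mkWC p.b n p.K (pwl p.b (wpos l)) (pwl p.b (wneg l))) Z) := rfl
  rw [← ey2] at y1 y2
  set Y := yv (mkVC p.b p.k p.K l) Z with hY
  have hlen : (wz (wpos l) (wneg l) (ls p.b n Z)).length = n := wz_length _ _ _ n wp wm (length_ls _ _ _)
  have key : ∀ δ : ℕ, 2 * p.rho + δ + 8 ≤ 2 ^ p.b →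
      pz ((p.b + 1) * (n - 1)) (2 ^ (p.b + 1)) X Y (mx (of p.b n) ((p.b + 1) * (n - 1)) (2 ^ (p.b + 1)) Y)
      (mx (of p.b n) ((p.b + 1) * (n - 1)) (2 ^ (p.b + 1)) X +
        ((dotK p.b n >>> ((p.b + 1) * (n - 1)) % 2 ^ (p.b + 1) + (2 ^ (p.b + 1) + p.rho + 2 - 2 ^ p.b)) +
          (2 ^ (p.b + 1) - δ))) ≤ 2 * p.rho →
      |(l.map fun t => t.M p.b i j).sum - (δ : ℤ)| ≤ p.rho + 4 := by
    intro δ hδ hle
    have k2 := pz_sound p.b n p.rho δ X Y g1 x2 y2 (lt_of_le_of_lt (Nat.mul_le_mul nX nY) g5) _ hlen y1 hδ hle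
    rw [← dotL_sum _ _ n (length_ls _ _ _), x1, z1, dot_its p.b N p.K l hI i j] at k2
    exact k2
  by_cases e : i = j
  · rw [if_pos e] at k1 ⊢
    exact key p.δ g7 k1
  · rw [if_neg e] at k1 ⊢
    have k3 := key 0 (by omega) k1
    simpa using k3

/-! ## The final theorem -/

/-- a block: items and its real form -/
structure GI2 where
  its : List It
  g : (ℕ → ℝ) → ℝ
  κ : ℕ

/-- the integer matrix of a list of items -/
def itM (b : ℕ) (l : List It) (i j : ℕ) : ℤ := (l.map fun t => t.M b i j).sum

/-- meaning of a block: symmetric matrix; `|σ g(v) - form| ≤ κ N |v|²` -/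
def GI2.OK (b N : ℕ) (σ : ℝ) (G : GI2) : Prop :=
  (∀ i j, itM b G.its i j = itM b G.its j i) ∧
  ∀ v : ℕ → ℝ, v 0 = 1 → |σ * G.g v - fm N (itM b G.its) v| ≤ G.κ * N * ∑ i ∈ range N, v i ^ 2

/-- all items -/
def allIts : List GI2 → List It
  | [] => []
  | G :: L => G.its ++ allIts L

/-- the sum of all forms -/
noncomputable def gs2 : List GI2 → (ℕ → ℝ) → ℝ
  | [], _ => 0
  | G :: L, v => G.g v + gs2 L v

/-- the sum of the errors -/
def κs2 : List GI2 → ℕ
  | [] => 0
  | G :: L => Nat.add G.κ (κs2 L)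

theorem itM_append (b : ℕ) (l m : List It) (i j : ℕ) : itM b (l ++ m) i j = itM b l i j + itM b m i j := by
  unfold itM
  rw [List.map_append, List.sum_append]

theorem fm_add (N : ℕ) (A C : ℕ → ℕ → ℤ) (v : ℕ → ℝ) : fm N (fun i j => A i j + C i j) v = fm N A v + fm N C v := by
  unfold fm
  rw [← Finset.sum_add_distrib]
  refine Finset.sum_congr rfl fun i _ => ?_
  rw [← Finset.sum_add_distrib]
  refine Finset.sum_congr rfl fun j _ => ?_
  push_cast
  ring

theorem gs2_le (b N : ℕ) (σ : ℝ) (L : List GI2) (hL : ∀ G ∈ L, G.OK b N σ) (v : ℕ → ℝ) (hv : v 0 = 1) :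
    fm N (itM b (allIts L)) v ≤ σ * gs2 L v + κs2 L * N * ∑ i ∈ range N, v i ^ 2 := by
  induction L with
  | nil => simp [fm, itM, allIts, gs2, κs2]
  | cons G L ih =>
    have i1 := ih fun H hH => hL H (List.mem_cons_of_mem _ hH)
    have i2 := (abs_le.1 ((hL G List.mem_cons_self).2 v hv)).1
    have e0 : fm N (itM b (allIts (G :: L))) v = fm N (itM b G.its) v + fm N (itM b (allIts L)) v := by
      rw [← fm_add]
      congr 1
      funext i j
      exact itM_append b G.its (allIts L) i j
    have e2 : κs2 (G :: L) = G.κ + κs2 L := rfl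
    have e3 : gs2 (G :: L) v = G.g v + gs2 L v := rfl
    rw [e0, e2, e3, Nat.cast_add]
    have e1 : σ * (G.g v + gs2 L v) + ((G.κ : ℝ) + (κs2 L : ℝ)) * N * ∑ i ∈ range N, v i ^ 2 =
      (σ * G.g v + G.κ * N * ∑ i ∈ range N, v i ^ 2) + (σ * gs2 L v + κs2 L * N * ∑ i ∈ range N, v i ^ 2) := by ring
    rw [e1]
    refine add_le_add ?_ i1
    linarith

theorem itM_sym (b N : ℕ) (σ : ℝ) (L : List GI2) (hL : ∀ G ∈ L, G.OK b N σ) (i j : ℕ) :
    itM b (allIts L) i j = itM b (allIts L) j i := by
  induction L with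
  | nil => rfl
  | cons G L ih =>
    have e : ∀ i j, itM b (allIts (G :: L)) i j = itM b G.its i j + itM b (allIts L) i j :=
      fun i j => itM_append b G.its (allIts L) i j
    rw [e, e, (hL G List.mem_cons_self).1 i j, ih fun H hH => hL H (List.mem_cons_of_mem _ hH)]

/-- the factor as an item: `- ∑_c C_c(i) C_c(j)`, weight `w` -/
def fIt (n w : ℕ) (C : List ℕ) : It := ⟨n, true, List.replicate n w, C, C⟩

theorem fIt_form (b N n w : ℕ) (C : List ℕ) (v : ℕ → ℝ) : fm N (fun i j => (fIt n w C).M b i j) v ≤ 0 := by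
  have h : fm N (fun i j => (fIt n w C).M b i j) v =
      fm N (sqM b n true (List.replicate n w) C) v := rfl
  rw [h, sqM_form]
  have : 0 ≤ ∑ c ∈ range n, ((List.replicate n w).getD c 0 : ℝ) * (rv b n N C v c * rv b n N C v c) :=
    Finset.sum_nonneg fun c _ => mul_nonneg (Nat.cast_nonneg _) (mul_self_nonneg _)
  simp only [sgn, if_true]
  push_cast
  linarith

/-- FINAL THEOREM: `c0 |v|² ≤ ∑ g(v)` -/
theorem final2 {p : PM} {N : ℕ} {σ : ℝ} (hσ : 0 < σ) (L : List GI2) (hL : ∀ G ∈ L, G.OK p.b N σ) {n w : ℕ}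
    {C : List ℕ} (hc : chkI p N (fIt n w C :: allIts L) = true) {κ0 : ℕ}
    (hδ : Nat.ble (Nat.add (Nat.mul N (Nat.add (Nat.add p.rho 4) (κs2 L))) κ0) p.δ = true) {c0 : ℝ}
    (hc0 : σ * c0 ≤ κ0) (v : ℕ → ℝ) (hv : v 0 = 1) :
    c0 * ∑ i ∈ range N, v i ^ 2 ≤ gs2 L v := by
  set S : ℝ := ∑ i ∈ range N, v i ^ 2 with hS
  have hS0 : 0 ≤ S := Finset.sum_nonneg fun i _ => sq_nonneg _
  -- entries
  have hsymF : ∀ i j, (fIt n w C).M p.b i j = (fIt n w C).M p.b j i := by
    intro i j
    unfold It.M fIt
    congr 1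
    exact Finset.sum_congr rfl fun c _ => by ring
  have hall : ∀ i j, itM p.b (fIt n w C :: allIts L) i j = (fIt n w C).M p.b i j + itM p.b (allIts L) i j := by
    intro i j
    unfold itM
    rw [List.map_cons, List.sum_cons]
  have hent : ∀ i j, i < N → j < N →
      |(itM p.b (fIt n w C :: allIts L) i j - (if i = j then (p.δ : ℤ) else 0) : ℤ)| ≤ p.rho + 4 := by
    intro i j hi hj
    rcases le_total i j with hij | hij
    · exact chkI_sound hc i j hij hj
    · have h1 : |(itM p.b (fIt n w C :: allIts L) j i - (if j = i then (p.δ : ℤ) else 0) : ℤ)| ≤ p.rho + 4 :=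
        chkI_sound hc j i hij hi
      rw [hall, hsymF, itM_sym p.b N σ L hL, ← hall] at h1
      by_cases e : i = j
      · subst e; exact h1
      · rw [if_neg (fun e' => e e'.symm)] at h1
        rw [if_neg e]
        exact h1
  have h1 := form_le N (fun i j => ((itM p.b (fIt n w C :: allIts L) i j - (if i = j then (p.δ : ℤ) else 0) : ℤ) : ℝ))
    ((p.rho : ℝ) + 4) (by positivity) (fun i j hi hj => by
      rw [← Int.cast_abs]
      exact_mod_cast hent i j hi hj) v
  have h2 : ∑ i ∈ range N, ∑ j ∈ range N,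
      ((itM p.b (fIt n w C :: allIts L) i j - (if i = j then (p.δ : ℤ) else 0) : ℤ) : ℝ) * (v i * v j) =
      fm N (fun i j => (fIt n w C).M p.b i j) v + fm N (itM p.b (allIts L)) v - p.δ * S := by
    rw [← fm_add]
    unfold fm
    rw [hS, Finset.mul_sum, ← Finset.sum_sub_distrib]
    refine Finset.sum_congr rfl fun i hi => ?_
    have e1 : ∑ j ∈ range N, (((if i = j then (p.δ : ℤ) else 0 : ℤ)) : ℝ) * (v i * v j) = p.δ * v i ^ 2 := by
      rw [Finset.sum_eq_single i]
      · rw [if_pos rfl]; push_cast; ring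
      · intro j _ hne
        rw [if_neg (fun e => hne e.symm)]
        push_cast
        ring
      · intro hn
        exact absurd hi hn
    rw [← e1, ← Finset.sum_sub_distrib]
    refine Finset.sum_congr rfl fun j _ => ?_
    rw [hall, Int.cast_sub]
    ring
  rw [h2] at h1
  have h3 := (abs_le.1 h1).1
  have h4 := fIt_form p.b N n w C v
  have h5 := gs2_le p.b N σ L hL v hv
  have h6 : (N : ℝ) * (((p.rho : ℝ) + 4) + κs2 L) + κ0 ≤ p.δ := by
    have := Nat.le_of_ble_eq_true hδ
    exact_mod_cast this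
  have h7 : σ * (c0 * S) ≤ σ * gs2 L v := by
    have h8 : σ * c0 * S ≤ κ0 * S := mul_le_mul_of_nonneg_right hc0 hS0
    have h9 : ((N : ℝ) * (((p.rho : ℝ) + 4) + κs2 L) + κ0) * S ≤ p.δ * S := mul_le_mul_of_nonneg_right h6 hS0
    nlinarith
  exact le_of_mul_le_mul_left h7 hσ

end Helper54.SH.MatF
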